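import Pool.Agent.R426.QM.Stm
import Pool.Agent.Results.MP_e996df_nt.TwoPartTwistsX49

/-!
# Project QM: the partial `L`-functions over `ℚ(√-7)`
-/

set_option autoImplicit false

attribute [-instance] DivisionRing.toRatAlgebra

open scoped Classical

namespace Pool.Agent.R426.QM

open NumberField IsDedekindDomain
open Pool.Agent.Y698 Pool.Agent.Y698.SG
open Pool.Agent.R426.QC
open Pool.Agent.R426.QK (nrm ClsE nrm_cast)
open Pool.Agent.Results.MP_e996df_nt.TwoPartTwistsX49 (TwoPart curve IsL criterion exists_e cls_e)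
open Pool.Agent.W192.HK (sp HC)
open Pool.Agent.W189.NF (aV eV)
open Pool.Agent.Y696 (HBd LSeries_hasProd')

/-- `z N(z)^(-s)` -/
noncomputable def Yz (s : ℂ) (z : RR) : ℂ := (z : ℂ) * ((nrm z : ℕ) : ℂ) ^ (-s)

/-- the conjugate -/
noncomputable def Yb (s : ℂ) (z : RR) : ℂ := (starRingEnd ℂ) (z : ℂ) * ((nrm z : ℕ) : ℂ) ^ (-s)

/-- the sign -/
noncomputable def sg (N z : RR) : ℂ := sy z N * e7 z

/-- the Euler polynomial -/
noncomputable def pf (N z : RR) (s : ℂ) : ℂ := (1 - sg N z * Yz s z) * (1 - sg N z * Yb s z)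

lemma pd_eq {ι : Type} {S : Finset ι} {π : ι → RR} (hS : QD.Ev S π) {z : RR} (hz : Prime z)
    (h2 : ¬ z ∣ 2) (hg : ¬ z ∣ ∏ i ∈ S, π i) : ∏ i ∈ S, sy (π i) z = sy z (∏ i ∈ S, π i) := by
  have hne : ∀ i ∈ S, π i ∉ sp z := by
    intro i hi h
    rw [Ideal.mem_span_singleton] at h
    exact hg (h.trans (Finset.dvd_prod_of_mem π hi))
  have hne' : ∀ i ∈ S, z ∉ sp (π i) := by
    intro i hi h3
    apply hne i hi
    rw [Ideal.mem_span_singleton] at h3 ⊢
    exact (((hS.fa.pn i hi).pr.irreducible.associated_of_dvd hz.irreducible h3).symm).dvd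
  rw [QD.sy_prodO hz h2]
  have s1 := sgn_prod (s := S) (f := fun i => sy z (π i)) fun i hi => sy_sgn (hne i hi)
  have s2 := sgn_prod (s := S) (f := fun i => sy (π i) z) fun i hi => sy_sgn (hne' i hi)
  refine QD.eq_of_lg s2.1 s1.1 ?_
  rw [s1.2, s2.2]
  have e2 : ∑ i ∈ S, lg (sy (π i) z) = ∑ i ∈ S, (lg (sy z (π i)) + QD.tp (π i) * QD.et z) :=
    Finset.sum_congr rfl fun i hi => QD.recG (hS.fa.pn i hi) hz h2 (hne i hi) (hne' i hi)
  rw [e2, Finset.sum_add_distrib, ← Finset.sum_mul, hS.tp, zero_mul, add_zero]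

/-- the factors do not vanish -/
lemma lf_ne {a b : ℤ} {q : ℕ} (h : HBd a b q) (hq : 2 ≤ q) {s : ℂ} (hs : 1 / 2 < s.re) :
    1 - (a : ℂ) * (q : ℂ) ^ (-s) + (b : ℂ) * ((q : ℂ) ^ (-s)) ^ 2 ≠ 0 := by
  rcases h with ⟨rfl, rfl⟩ | ⟨x, h1, h2, h3⟩
  · simp
  · have hq0 : (0 : ℝ) < q := by exact_mod_cast (by omega : 0 < q)
    have hq1 : (1 : ℝ) < q := by exact_mod_cast (by omega : 1 < q)
    have hn : ‖(q : ℂ) ^ (-s)‖ = (q : ℝ) ^ (-s.re) := by
      have := Complex.norm_natCast_cpow_of_pos (n := q) (by omega) (-s)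
      rw [Complex.neg_re] at this
      exact this
    have hx : ‖x‖ = (q : ℝ) ^ (1 / 2 : ℝ) := by
      have h4 : ‖x‖ ^ 2 = q := by
        have h5 := congrArg norm h3
        rw [norm_mul, RCLike.norm_conj, Complex.norm_natCast] at h5
        rw [sq]
        exact h5
      rw [← h4, ← Real.sqrt_eq_rpow, Real.sqrt_sq (norm_nonneg x)]
    have hlt : ‖x‖ * ‖(q : ℂ) ^ (-s)‖ < 1 := by
      rw [hn, hx, ← Real.rpow_add hq0]
      exact Real.rpow_lt_one_of_one_lt_of_neg hq1 (by linarith)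
    have e : 1 - (a : ℂ) * (q : ℂ) ^ (-s) + (b : ℂ) * ((q : ℂ) ^ (-s)) ^ 2 =
        (1 - x * (q : ℂ) ^ (-s)) * (1 - (starRingEnd ℂ) x * (q : ℂ) ^ (-s)) := by
      rw [h1, h2]; ring
    rw [e]
    refine mul_ne_zero ?_ ?_
    · intro h0
      have h4 : x * (q : ℂ) ^ (-s) = 1 := by linear_combination -h0
      have h5 := congrArg norm h4
      rw [norm_mul, norm_one] at h5
      linarith
    · intro h0
      have h4 : (starRingEnd ℂ) x * (q : ℂ) ^ (-s) = 1 := by linear_combination -h0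
      have h5 := congrArg norm h4
      rw [norm_mul, norm_one, RCLike.norm_conj] at h5
      linarith

variable {K : Type} [Field K] [NumberField K]

theorem base_L (e : RR ≃+* 𝓞 K) {N : RR} (hN : ClsE N)
    (hT : TwoPart (curve ((e N : 𝓞 K) : K))) {B : RR} (hB : B ≠ 0) (hNB : 14 * N ∣ B)
    (gz : HeightOneSpectrum (𝓞 K) → RR) (hgz : ∀ v, ∃ hz : Prime (gz v), plc e hz = v) :
    ∃ F : ℂ → ℂ, Differentiable ℂ F ∧ F 1 ≠ 0 ∧ ∀ s : ℂ, 3 / 2 < s.re →
      HasProd (fun v : HeightOneSpectrum (𝓞 K) => if gz v ∣ B then 1 else (pf N (gz v) s)⁻¹)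
        (F s) := by
  obtain ⟨-, -, L, c, ⟨hL1, hL2⟩, hL0, -, -⟩ := hT
  set a : 𝓞 K := e aR with ha
  have hef : e fR = 2 * a - 1 := by
    unfold fR
    rw [map_sub, map_mul, map_ofNat, map_one, ha]
  obtain ⟨c1, c2, c3⟩ := (cls_e e hef N).2 hN
  obtain ⟨S, hSp, hSD, hE⟩ := QD.exists_S e rfl c2 c1 c3
  have hprod : ∏ p ∈ S, QC.pe e p = N := by
    show ∏ p ∈ S, e.symm p = N
    rw [← map_prod, hSD, e.symm_apply_apply]
  obtain ⟨J, hJ⟩ := hE.m4
  have hNJ : N = 1 + 4 * J := by rw [← hprod, hJ]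
  have hDj : ((e N : 𝓞 K) : K) = 1 + 4 * em e J := by
    show em e N = _
    rw [hNJ, map_add, map_mul, map_one, map_ofNat]
  have hcur : curve ((e N : 𝓞 K) : K) = EX K (em e J) := by
    unfold curve EX
    rw [hDj]
    congr 1
    field_simp
    ring
  rw [hcur] at hL2
  set P : HeightOneSpectrum (𝓞 K) → ℂ → ℂ := fun v s =>
    1 - (aV (EX K (em e J)) v : ℂ) * (Pool.Agent.H921R2.TatePole.nm v : ℂ) ^ (-s) +
      (eV (EX K (em e J)) v : ℂ) * ((Pool.Agent.H921R2.TatePole.nm v : ℂ) ^ (-s)) ^ 2 with hP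
  have hP0 : ∀ v, ∀ s : ℂ, 1 / 2 < s.re → P v s ≠ 0 := fun v s hs =>
    lf_ne (QD.hbdD e hE hJ v) (Pool.Agent.H921R2.TatePole.two_le_nm v) hs
  have hfin : {v : HeightOneSpectrum (𝓞 K) | gz v ∣ B}.Finite := by
    have h1 : {v : HeightOneSpectrum (𝓞 K) | gz v ∣ B} ⊆
        {v | v.asIdeal ∣ Ideal.span {e B}} := by
      intro v hv
      obtain ⟨hz, hzv⟩ := hgz v
      have h2 : e B ∈ v.asIdeal := by
        rw [← hzv]
        exact (plc_mem e hz B).2 hv
      show v.asIdeal ∣ Ideal.span {e B}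
      rw [Ideal.dvd_span_singleton]
      exact h2
    refine (Ideal.finite_factors ?_).subset h1
    rw [Ne, Ideal.zero_eq_bot, Ideal.span_singleton_eq_bot]
    exact (map_ne_zero_iff e e.injective).2 hB
  set Bs : Finset (HeightOneSpectrum (𝓞 K)) := hfin.toFinset with hBs
  have hmB : ∀ v, v ∈ Bs ↔ gz v ∣ B := fun v => by rw [hBs, Set.Finite.mem_toFinset]; rfl
  have hnm0 : ∀ v : HeightOneSpectrum (𝓞 K), ((Pool.Agent.H921R2.TatePole.nm v : ℕ) : ℂ) ≠ 0 := by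
    intro v
    have := Pool.Agent.H921R2.TatePole.two_le_nm v
    exact Nat.cast_ne_zero.2 (by omega)
  have hPd : ∀ v, Differentiable ℂ (P v) := by
    intro v
    have h1 : Differentiable ℂ fun s : ℂ =>
        ((Pool.Agent.H921R2.TatePole.nm v : ℕ) : ℂ) ^ (-s) := by
      intro s
      exact (differentiableAt_id.neg).const_cpow (Or.inl (hnm0 v))
    exact ((differentiable_const _).sub ((differentiable_const _).mul h1)).add
      ((differentiable_const _).mul (h1.pow 2))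
  refine ⟨fun s => L s * ∏ v ∈ Bs, P v s, hL1.mul (Differentiable.fun_finsetProd fun v _ => hPd v),
    mul_ne_zero hL0 (Finset.prod_ne_zero_iff.2 fun v _ => hP0 v 1 (by norm_num)), fun s hs => ?_⟩
  have hs' : 1 / 2 < s.re := by linarith
  have h2 := (LSeries_hasProd' (EX K (em e J)) (fun v => QD.hbdD e hE hJ v) hs).2
  rw [← (hL2 s hs).2] at h2
  have h4 : HasProd (fun v => if v ∈ Bs then P v s else 1) (∏ v ∈ Bs, P v s) := by
    have h5 : HasProd (fun v => if v ∈ Bs then P v s else 1)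
        (∏ v ∈ Bs, if v ∈ Bs then P v s else 1) :=
      hasProd_prod_of_ne_finset_one (fun v hv => if_neg hv)
    rwa [Finset.prod_congr rfl fun v hv => if_pos hv] at h5
  refine (h2.mul h4).congr_fun fun v => ?_
  obtain ⟨hz, hzv⟩ := hgz v
  by_cases hb : gz v ∣ B
  · rw [if_pos hb, if_pos ((hmB v).2 hb)]
    exact (inv_mul_cancel₀ (hP0 v s hs')).symm
  · rw [if_neg hb, if_neg (fun h => hb ((hmB v).1 h)), mul_one]
    have h14 : ¬ gz v ∣ 14 * N := fun h => hb (h.trans hNB)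
    have hf : ¬ gz v ∣ fR * ∏ i ∈ S, QC.pe e i := by
      rw [hprod]
      intro h
      apply h14
      rcases hz.dvd_or_dvd h with h3 | h3
      · have h5 : (14 : RR) * N = fR * (-2 * fR * N) := by
          have := fR_sq
          linear_combination (2 * N) * this
        rw [h5]
        exact h3.mul_right _
      · exact h3.mul_left _
    have hz2 : ¬ gz v ∣ 2 := fun h => h14 (h.trans ⟨7 * N, by ring⟩)
    have hzN : ¬ gz v ∣ ∏ i ∈ S, QC.pe e i := fun h => hf (h.mul_left _)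
    obtain ⟨g1, g2, g3, g4⟩ := QD.locGD e hE hJ hz hf
    obtain ⟨q1, q2⟩ := QD.sgn_sqD hE hz hf
    have hpd := pd_eq hE hz hz2 hzN
    rw [hprod] at hpd
    rw [hpd] at g1 q1
    rw [hzv] at g1 g2 g3 g4
    show (pf N (gz v) s)⁻¹ = (1 - (aV (EX K (em e J)) v : ℂ) *
      (Pool.Agent.H921R2.TatePole.nm v : ℂ) ^ (-s) +
      (eV (EX K (em e J)) v : ℂ) * ((Pool.Agent.H921R2.TatePole.nm v : ℂ) ^ (-s)) ^ 2)⁻¹
    congr 1
    have g4' : Pool.Agent.H921R2.TatePole.nm v = nrm (gz v) := g4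
    rw [g1, g2, g4']
    unfold pf sg Yz Yb
    linear_combination (((gz v : RR) : ℂ) * (starRingEnd ℂ) ((gz v : RR) : ℂ) *
      (((nrm (gz v) : ℕ) : ℂ) ^ (-s)) ^ 2 * e7 (gz v) ^ 2) * q1 +
      (((gz v : RR) : ℂ) * (starRingEnd ℂ) ((gz v : RR) : ℂ) *
      (((nrm (gz v) : ℕ) : ℂ) ^ (-s)) ^ 2) * q2

end Pool.Agent.R426.QM
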