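import Pool.Agent.R426.QM.Stm
import Pool.Agent.R426.QK.NS

/-!
# Project QM (helper138): squarefree classes of `ℤ[(1 + √-7) / 2]` modulo squares
-/

set_option autoImplicit false

open scoped Classical

namespace Pool.Agent.R426.QM.Cls

open Pool.Agent.Y698 (RR)
open Pool.Agent.R426.QK
open Pool.Agent.R426.QM

theorem cls_ps {N : RR} (h : ClsE N) : PS N := ((NS.cls_iff N).1 h).1

theorem cls_ne {N : RR} (h : ClsE N) : N ≠ 0 := (cls_ps h).ne

theorem cls_one : ClsE (1 : RR) :=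
  ⟨squarefree_one, by simp, fun h => prime_fR.not_isUnit (isUnit_of_dvd_one h)⟩

theorem cls_nrm {N : RR} (h : ClsE N) : nrm N % 4 = 1 := ((NS.mod_iff N).1 h.2.1).2

/-- a primary prime associated to a prime divisor -/
theorem ex_pq {N z : RR} (h : ClsE N) (hz : Prime z) (hd : z ∣ N) :
    ∃ π, Pq π ∧ Associated π z := by
  obtain ⟨h1, h2, h3⟩ := not_dvd_of_prm hd (cls_ps h).prm
  exact exists_PP hz h1 h2 h3

theorem eq_of_PD {N N' : RR} (h : ClsE N) (h' : ClsE N') (he : PD N = PD N') : N = N' := by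
  rw [← (cls_ps h).prod, ← (cls_ps h').prod, he]

theorem disj_of {D N : RR} (hD : ClsE D) (hN : ClsE N) (h : ∀ z, Prime z → z ∣ D → ¬ z ∣ N) :
    Disjoint (PD D) (PD N) := by
  rw [Finset.disjoint_left]
  intro π h1 h2
  rw [mem_PD (cls_ne hD)] at h1
  rw [mem_PD (cls_ne hN)] at h2
  exact h π h1.1.prime h1.2 h2.2

theorem mul_cls {D N : RR} (hD : ClsE D) (hN : ClsE N) (h : ∀ z, Prime z → z ∣ D → ¬ z ∣ N) :
    ClsE (D * N) := by
  refine ⟨?_, ?_, ?_⟩
  · rw [squarefree_mul_iff]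
    refine ⟨?_, hD.1, hN.1⟩
    intro x hx1 hx2
    by_contra hnu
    have hx0 : x ≠ 0 := by
      rintro rfl
      exact cls_ne hD (zero_dvd_iff.1 hx1)
    obtain ⟨ρ, hρ, hρx⟩ := WfDvdMonoid.exists_irreducible_factor hnu hx0
    exact h ρ (irreducible_iff_prime.1 hρ) (hρx.trans hx1) (hρx.trans hx2)
  · have e : D * N - 1 = D * (N - 1) + (D - 1) := by ring
    rw [e]
    exact dvd_add (hN.2.1.mul_left _) hD.2.1
  · intro h1
    rcases prime_fR.dvd_or_dvd h1 with h2 | h2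
    · exact hD.2.2 h2
    · exact hN.2.2 h2

theorem uniq {N N' c c' : RR} (h : ClsE N) (h' : ClsE N') (hc : c ≠ 0) (hc' : c' ≠ 0)
    (he : N * c ^ 2 = N' * c' ^ 2) : N = N' := by
  apply eq_of_PD h h'
  have key : ∀ {N N' c c' : RR}, ClsE N → ClsE N' → c ≠ 0 → c' ≠ 0 →
      N * c ^ 2 = N' * c' ^ 2 → PD N ⊆ PD N' := by
    intro N N' c c' h h' hc hc' he π hπ
    rw [mem_PD (cls_ne h)] at hπ
    rw [mem_PD (cls_ne h')]
    refine ⟨hπ.1, ?_⟩
    by_contra hnd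
    have hp := hπ.1.prime
    have e1 : N * N' * c ^ 2 = (N' * c') ^ 2 := by
      calc N * N' * c ^ 2 = N' * (N * c ^ 2) := by ring
        _ = N' * (N' * c' ^ 2) := by rw [he]
        _ = (N' * c') ^ 2 := by ring
    have e2 : c ^ 2 ∣ (N' * c') ^ 2 := ⟨N * N', by rw [← e1]; ring⟩
    have e3 : c ∣ N' * c' := (UniqueFactorizationMonoid.pow_dvd_pow_iff_dvd two_ne_zero).1 e2
    obtain ⟨e, he3⟩ := e3
    have e4 : N * N' = e ^ 2 := by
      have hc2 : c ^ 2 ≠ 0 := pow_ne_zero _ hc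
      apply mul_right_cancel₀ hc2
      rw [e1, he3]
      ring
    have e5 : π ∣ e := by
      apply hp.dvd_of_dvd_pow (n := 2)
      rw [← e4]
      exact hπ.2.mul_right _
    obtain ⟨f, rfl⟩ := e5
    obtain ⟨g, hg⟩ := hπ.2
    have e6 : g * N' = π * f ^ 2 := by
      apply mul_left_cancel₀ hp.ne_zero
      calc π * (g * N') = N * N' := by rw [hg]; ring
        _ = (π * f) ^ 2 := e4
        _ = π * (π * f ^ 2) := by ring
    have e7 : π ∣ g * N' := ⟨f ^ 2, e6⟩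
    rcases hp.dvd_or_dvd e7 with h8 | h8
    · have h9 : π * π ∣ N := by
        rw [hg]
        exact mul_dvd_mul_left _ h8
      exact hp.not_isUnit (h.1 _ h9)
    · exact hnd h8
  exact Finset.Subset.antisymm (key h h' hc hc' he) (key h' h hc' hc he.symm)

theorem t_MUL : S_MUL := by
  refine ⟨?_, ?_, ?_, ?_⟩
  · intro D N hD hN h
    exact ⟨mul_cls hD hN h, PD_mul (cls_ne hD) (cls_ne hN), disj_of hD hN h⟩
  · intro D N hD hN h z hz h1 h2
    obtain ⟨π, hπ, hass⟩ := ex_pq hD hz h1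
    have k1 : π ∈ PD D := (mem_PD (cls_ne hD)).2 ⟨hπ, hass.dvd.trans h1⟩
    have k2 : π ∈ PD N := (mem_PD (cls_ne hN)).2 ⟨hπ, hass.dvd.trans h2⟩
    exact (Finset.disjoint_left.1 h) k1 k2
  · intro N N' c c' h h' hc hc' he
    exact uniq h h' hc hc' he
  · intro N h
    exact ⟨((NS.cls_iff N).1 h).2, fun N' h' he => eq_of_PD h h' he⟩

/-- the product of two classes -/
theorem two {N1 N2 : RR} (h1 : ClsE N1) (h2 : ClsE N2) :
    ∃ N c : RR, ClsE N ∧ c ≠ 0 ∧ N1 * N2 = N * c ^ 2 ∧ c ∣ N1 := by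
  have p1 := cls_ps h1
  have p2 := cls_ps h2
  have hq1 : ∀ π ∈ PD N1, Pq π := fun π h => ((mem_PD p1.ne).1 h).1
  have hq2 : ∀ π ∈ PD N2, Pq π := fun π h => ((mem_PD p2.ne).1 h).1
  have hqA : ∀ π ∈ PD N1 \ PD N2, Pq π := fun π h => hq1 π (Finset.mem_sdiff.1 h).1
  have hqB : ∀ π ∈ PD N2 \ PD N1, Pq π := fun π h => hq2 π (Finset.mem_sdiff.1 h).1
  have hqS : ∀ π ∈ (PD N1 \ PD N2) ∪ (PD N2 \ PD N1), Pq π := by
    intro π h
    rcases Finset.mem_union.1 h with h | h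
    · exact hqA π h
    · exact hqB π h
  have hdis : Disjoint (PD N1 \ PD N2) (PD N2 \ PD N1) := by
    rw [Finset.disjoint_left]
    intro π ha hb
    exact (Finset.mem_sdiff.1 ha).2 (Finset.mem_sdiff.1 hb).1
  set A := ∏ π ∈ PD N1 \ PD N2, π with hA
  set B := ∏ π ∈ PD N2 \ PD N1, π with hB
  set c := ∏ π ∈ PD N1 ∩ PD N2, π with hc
  have e1 : N1 = A * c := by
    conv_lhs => rw [← p1.prod]
    rw [hA, hc, ← Finset.sdiff_inter_self_left (PD N1) (PD N2)]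
    rw [Finset.prod_sdiff (Finset.inter_subset_left)]
  have e2 : N2 = B * c := by
    conv_lhs => rw [← p2.prod]
    rw [hB, hc, Finset.inter_comm, ← Finset.sdiff_inter_self_left (PD N2) (PD N1)]
    rw [Finset.prod_sdiff (Finset.inter_subset_left)]
  have e3 : ∏ π ∈ (PD N1 \ PD N2) ∪ (PD N2 \ PD N1), π = A * B :=
    Finset.prod_union hdis
  have hPS := (PS_prod hqS).1
  rw [e3] at hPS
  have e4 : N1 * N2 = A * B * c ^ 2 := by
    conv_lhs => rw [e1, e2]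
    ring
  have hc0 : c ≠ 0 := by
    intro h
    apply p1.ne
    rw [e1, h, mul_zero]
  refine ⟨A * B, c, ⟨hPS.sqf, ?_, hPS.prm.cop7⟩, hc0, e4, ⟨A, by rw [mul_comm]; exact e1⟩⟩
  rw [NS.mod_iff]
  refine ⟨hPS.prm.r4, ?_⟩
  have k1 := cls_nrm h1
  have k2 := cls_nrm h2
  have k3 : nrm N1 * nrm N2 = nrm (A * B) * (nrm c) ^ 2 := by
    rw [← nrm_mul, e4, nrm_mul (A * B), pow_two c, nrm_mul c c, pow_two (nrm c)]
  have k4 : (nrm N1 * nrm N2) % 4 = 1 := by
    rw [Nat.mul_mod, k1, k2]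
  rw [k3, Nat.mul_mod, Nat.pow_mod] at k4
  have key : ∀ u < 4, ∀ v < 4, u * (v ^ 2 % 4) % 4 = 1 → u = 1 := by decide
  exact key _ (Nat.mod_lt _ (by norm_num)) _ (Nat.mod_lt _ (by norm_num)) k4

theorem t_CLS : S_CLS := by
  intro n d hd hind
  have hd0 : ∀ i, d i ≠ 0 := fun i => cls_ne (hd i)
  have hex : ∀ T : Finset (Fin n), ∃ N c : RR, ClsE N ∧ c ≠ 0 ∧ ∏ i ∈ T, d i = N * c ^ 2 ∧
      (∀ z, Prime z → z ∣ c → ∃ i, z ∣ d i) := by
    intro T
    induction T using Finset.induction_on with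
    | empty =>
      refine ⟨1, 1, cls_one, one_ne_zero, by simp, fun z hz h => ?_⟩
      exact absurd (isUnit_of_dvd_one h) hz.not_isUnit
    | insert a T ha ih =>
      obtain ⟨N, c, h1, h2, h3, h4⟩ := ih
      obtain ⟨N', c', g1, g2, g3, g4⟩ := two (hd a) h1
      refine ⟨N', c' * c, g1, mul_ne_zero g2 h2, ?_, ?_⟩
      · rw [Finset.prod_insert ha, h3, ← mul_assoc, g3]
        ring
      · intro z hz hzd
        rcases hz.dvd_or_dvd hzd with h | h
        · exact ⟨a, h.trans g4⟩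
        · exact h4 z hz h
  choose N c h1 h2 h3 h4 using hex
  refine ⟨N, h1, ?_, ?_, fun T => ⟨c T, h2 T, h3 T, h4 T⟩, ?_⟩
  · intro T T' hTT
    by_contra hne
    have hsd : (symmDiff T T').Nonempty := by
      rw [Finset.nonempty_iff_ne_empty]
      intro h0
      exact hne (symmDiff_eq_bot.1 h0)
    have hb : ∏ i ∈ T ∩ T', d i ≠ 0 := Finset.prod_ne_zero_iff.2 fun i _ => hd0 i
    apply hind _ hsd (N T * c T * c T') _ hb
    have e1 : ∏ i ∈ T, d i = (∏ i ∈ T \ T', d i) * ∏ i ∈ T ∩ T', d i := by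
      rw [← Finset.sdiff_inter_self_left T T', Finset.prod_sdiff (Finset.inter_subset_left)]
    have e2 : ∏ i ∈ T', d i = (∏ i ∈ T' \ T, d i) * ∏ i ∈ T ∩ T', d i := by
      rw [Finset.inter_comm, ← Finset.sdiff_inter_self_left T' T,
        Finset.prod_sdiff (Finset.inter_subset_left)]
    have hdis : Disjoint (T \ T') (T' \ T) := by
      rw [Finset.disjoint_left]
      intro π ha hb
      exact (Finset.mem_sdiff.1 ha).2 (Finset.mem_sdiff.1 hb).1
    have e3 : ∏ i ∈ symmDiff T T', d i = (∏ i ∈ T \ T', d i) * ∏ i ∈ T' \ T, d i := by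
      have : symmDiff T T' = (T \ T') ∪ (T' \ T) := rfl
      rw [this, Finset.prod_union hdis]
    calc (∏ i ∈ T ∩ T', d i) ^ 2 * ∏ i ∈ symmDiff T T', d i
        = ((∏ i ∈ T \ T', d i) * ∏ i ∈ T ∩ T', d i) *
            ((∏ i ∈ T' \ T, d i) * ∏ i ∈ T ∩ T', d i) := by rw [e3]; ring
      _ = (N T * c T ^ 2) * (N T' * c T' ^ 2) := by rw [← e1, ← e2, h3, h3]
      _ = (N T * c T * c T') ^ 2 := by rw [← hTT]; ring
  · have h5 := h3 ∅
    rw [Finset.prod_empty] at h5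
    exact (uniq cls_one (h1 ∅) one_ne_zero (h2 ∅) (by rw [← h5]; ring)).symm
  · intro T z hz hzd
    have h5 : z ∣ ∏ i ∈ T, d i := by
      rw [h3 T]
      exact hzd.mul_right _
    obtain ⟨i, _, hi⟩ := (hz.dvd_finsetProd_iff _).1 h5
    exact ⟨i, hi⟩

end Pool.Agent.R426.QM.Cls
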