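import Pool.Agent.R426.QK.Stm

/-!
# Project QM (helper426): twists of `X_0(49)` over multiquadratic extensions of `ℚ(√-7)`

`RR = ℤ[(1 + √-7) / 2]`. `L` is a number field with a ring homomorphism `ι : RR →+* 𝓞 L`, generated over
`ℚ(√-7)` by square roots of elements of `RR`. Statements of the parts, after project MQ
(`Pool/Agent/Y697/MQ`: the same over `ℚ(i)`; `Gal.lean`, `Gal2.lean`, `KL2.lean`, `KR.lean`). Tools:
`Pool/Agent/R426/QK/Bs.lean` (`nrm`: norm, `PD n`: the primary primes dividing `n`), `ClsE` in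
`Pool/Agent/R426/QK/Stm.lean`, `sy z x` in `Pool/Agent/Y698/SG/Stm.lean` (the quadratic residue symbol
of `x` modulo the prime `z`, a complex number), `e7` in `Pool/Agent/Y698/Psi.lean`, and
`Pool/Agent/R426/QC/Tr.lean`, `Pool/Agent/R426/QD/Tr.lean` (traces of Frobenius).
-/

set_option autoImplicit false
set_option linter.unusedVariables false

open scoped Classical

namespace Pool.Agent.R426.QM

open NumberField IsDedekindDomain
open Pool.Agent.Y698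
open Pool.Agent.Y698.SG hiding PD
open Pool.Agent.R426.QK

/-- `L` is generated over the image of `RR` by square roots of the elements of `s` -/
structure GenBy {L : Type} [Field L] [NumberField L] (ι : RR →+* 𝓞 L) (s : Finset RR)
    (r : RR → 𝓞 L) : Prop where
  sq : ∀ d ∈ s, r d ^ 2 = ι d
  gen : ∀ F : Subfield L, (∀ g : RR, (ι g : L) ∈ F) → (∀ d ∈ s, (r d : L) ∈ F) → F = ⊤

/-- no nonempty product is a square -/
def Indep (s : Finset RR) : Prop :=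
  ∀ J ⊆ s, J.Nonempty → ∀ a b : RR, b ≠ 0 → b ^ 2 * ∏ d ∈ J, d ≠ a ^ 2

/-- the residue degree -/
noncomputable def fd (z : RR) (s : Finset RR) : ℕ := if ∀ d ∈ s, sy z d = 1 then 1 else 2

/-- QM-SPLIT: the splitting of the primes of `RR` in `L` (port of `split_loc` in
`Pool/Agent/Y697/MQ/Gal2.lean`). -/
def S_SPLIT : Prop := ∀ (L : Type) [Field L] [NumberField L] (ι : RR →+* 𝓞 L) (s : Finset RR)
  (r : RR → 𝓞 L), GenBy ι s r → Indep s → (∀ d ∈ s, d ≠ 0) →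
  ∀ z : RR, Prime z → ¬ z ∣ 2 → (∀ d ∈ s, ¬ z ∣ d) →
  (∀ v : HeightOneSpectrum (𝓞 L), ι z ∈ v.asIdeal → Ideal.absNorm v.asIdeal = nrm z ^ fd z s) ∧
    Nat.card {v : HeightOneSpectrum (𝓞 L) // ι z ∈ v.asIdeal} * fd z s = 2 ^ s.card

/-- QM-TR: the number of points of `y² = x³ - 35 D² x - 98 D³` over a finite field `k` above `z` with
`q ^ f` elements, `q = nrm z`, `f = 1, 2`. -/
def S_TR : Prop := ∀ (k : Type) [Field k] [Finite k] (z : RR), Prime z → ¬ z ∣ 14 →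
  ∀ φ : RR →+* k, φ z = 0 → ∀ f : ℕ, f = 1 ∨ f = 2 → Nat.card k = nrm z ^ f → ∀ D : RR, ¬ z ∣ D →
  (((Nat.card k : ℤ) - Nat.card {p : k × k //
      p.2 ^ 2 = p.1 ^ 3 - 35 * φ D ^ 2 * p.1 - 98 * φ D ^ 3} : ℤ) : ℂ) =
    (sy z D * e7 z) ^ f * ((z : ℂ) ^ f + (starRingEnd ℂ) (z : ℂ) ^ f)

/-- the points of the twist `y² = x³ - 35 D² x - 98 D³` -/
abbrev Pt (k : Type) [Field k] (D : k) : Type :=
  ({ a₁ := 0, a₂ := 0, a₃ := 0, a₄ := -35 * D ^ 2, a₆ := -98 * D ^ 3 } :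
    WeierstrassCurve k).toAffine.Point

/-- QM-FIN: the points over a multiquadratic extension are finite if those of the twists are (see
`Pool/Agent/Y697/MQ/KR.lean`, which uses `gen mq1` of `Pool/Agent/W410/RS`, `Pool/Agent/W612/RS`). -/
def S_FIN : Prop := ∀ (k L : Type) [Field k] [NumberField k] [Field L] [NumberField L] [Algebra k L]
  (n : ℕ) (d : Fin n → k) (x : Fin n → L), (∀ i, d i ≠ 0) →
  (∀ i, x i ^ 2 = algebraMap k L (d i)) → IntermediateField.adjoin k (Set.range x) = ⊤ →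
  ∀ D : k, D ≠ 0 → (∀ T : Finset (Fin n), Finite (Pt k (D * ∏ i ∈ T, d i))) →
  Finite (Pt L (algebraMap k L D))

/-- QM-CLS: the classes of the products modulo squares -/
def S_CLS : Prop := ∀ (n : ℕ) (d : Fin n → RR), (∀ i, ClsE (d i)) →
  (∀ T : Finset (Fin n), T.Nonempty → ∀ a b : RR, b ≠ 0 → b ^ 2 * ∏ i ∈ T, d i ≠ a ^ 2) →
  ∃ N : Finset (Fin n) → RR, (∀ T, ClsE (N T)) ∧ Function.Injective N ∧ N ∅ = 1 ∧
    (∀ T, ∃ c : RR, c ≠ 0 ∧ ∏ i ∈ T, d i = N T * c ^ 2 ∧ ∀ z, Prime z → z ∣ c → ∃ i, z ∣ d i) ∧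
    ∀ T z, Prime z → z ∣ N T → ∃ i, z ∣ d i

/-- QM-CLS, second part: the class and multiplication -/
def S_MUL : Prop :=
  (∀ D N : RR, ClsE D → ClsE N → (∀ z, Prime z → z ∣ D → ¬ z ∣ N) →
    ClsE (D * N) ∧ PD (D * N) = PD D ∪ PD N ∧ Disjoint (PD D) (PD N)) ∧
  (∀ D N : RR, ClsE D → ClsE N → Disjoint (PD D) (PD N) → ∀ z, Prime z → z ∣ D → ¬ z ∣ N) ∧
  (∀ N N' c c' : RR, ClsE N → ClsE N' → c ≠ 0 → c' ≠ 0 → N * c ^ 2 = N' * c' ^ 2 → N = N') ∧
  ∀ N : RR, ClsE N → Cl (PD N) ∧ ∀ N' : RR, ClsE N' → PD N = PD N' → N = N'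

/-- `q_v` minus the number of the solutions, for a place `v` of `L` and the twist by `D` -/
noncomputable def aw {L : Type} [Field L] [NumberField L] (D : 𝓞 L) (v : HeightOneSpectrum (𝓞 L)) : ℤ :=
  (Nat.card (𝓞 L ⧸ v.asIdeal) : ℤ) - Nat.card {p : (𝓞 L ⧸ v.asIdeal) × (𝓞 L ⧸ v.asIdeal) //
    p.2 ^ 2 = p.1 ^ 3 - 35 * (Ideal.Quotient.mk v.asIdeal D) ^ 2 * p.1 -
      98 * (Ideal.Quotient.mk v.asIdeal D) ^ 3}

/-- the Euler factor -/
noncomputable def eul {L : Type} [Field L] [NumberField L] (D : 𝓞 L) (s : ℂ)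
    (v : HeightOneSpectrum (𝓞 L)) : ℂ :=
  (1 - (aw D v : ℂ) * (Nat.card (𝓞 L ⧸ v.asIdeal) : ℂ) ^ (-s) +
    (Nat.card (𝓞 L ⧸ v.asIdeal) : ℂ) ^ (1 - 2 * s))⁻¹

/-- `F` is entire and it is the `L`-function of the twist by `D` without the Euler factors at the places
dividing `M`, not zero at `1`. -/
def IsF {L : Type} [Field L] [NumberField L] (D M : 𝓞 L) (F : ℂ → ℂ) : Prop :=
  Differentiable ℂ F ∧ F 1 ≠ 0 ∧ ∀ s : ℂ, 3 / 2 < s.re →
    HasProd (fun v : HeightOneSpectrum (𝓞 L) => if M ∈ v.asIdeal then 1 else eul D s v) (F s)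

end Pool.Agent.R426.QM
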