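import Pool.Agent.R426.QJ.Stm
import Pool.Agent.R426.QM.Stm
import Pool.Agent.R426.QK.NS

/-!
# Project QM: the joint proportion, in terms of the elements
-/

set_option autoImplicit false

open scoped Classical

namespace Pool.Agent.R426.QM

open Finset Filter
open Pool.Agent.Y698
open Pool.Agent.Y698.SG hiding PD
open Pool.Agent.R426.QK Pool.Agent.R426.QJ

/-- the elements of the class prime to the `d i` -/
def FamR {n : ℕ} (d : Fin n → RR) (X : ℕ) : Set RR :=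
  {D | nrm D ≤ X ∧ ClsE D ∧ ∀ i, IsCoprime D (d i)}

/-- all the twists are good -/
def AllR {n : ℕ} (d : Fin n → RR) (D : RR) : Prop := ∀ (T : Finset (Fin n)) (N c : RR), ClsE N →
  c ≠ 0 → D * ∏ i ∈ T, d i = N * c ^ 2 → Gd (PD N)

/-- independence -/
def IndR {n : ℕ} (d : Fin n → RR) : Prop :=
  ∀ T : Finset (Fin n), T.Nonempty → ∀ a b : RR, b ≠ 0 → b ^ 2 * ∏ i ∈ T, d i ≠ a ^ 2

lemma cls_ne {D : RR} (h : ClsE D) : D ≠ 0 := h.1.ne_zero

lemma card_inst {α : Type} (s : Finset α) (p : α → Prop) (d1 d2 : DecidablePred p) :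
    (@Finset.filter α p d1 s).card = (@Finset.filter α p d2 s).card := by
  have h2 : d1 = d2 := Subsingleton.elim _ _
  subst h2
  rfl

lemma cop_iff' {x y : RR} (hx : x ≠ 0) : IsCoprime x y ↔ ∀ z, Prime z → z ∣ x → ¬ z ∣ y := by
  constructor
  · rintro ⟨a, b, hab⟩ z hz h1 h2
    apply hz.not_isUnit
    refine isUnit_of_dvd_one ?_
    rw [← hab]
    exact dvd_add (h1.mul_left a) (h2.mul_left b)
  · intro h
    refine isCoprime_of_prime_dvd (fun h' => hx h'.1) fun z hz h1 => ?_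
    exact h z hz h1

section

variable {n : ℕ} {d : Fin n → RR} (hCLS : S_CLS) (hMUL : S_MUL) (hd : ∀ i, ClsE (d i))
  (hi : IndR d)

include hMUL in
lemma single_eq {N : Finset (Fin n) → RR} (hd : ∀ i, ClsE (d i)) (hN1 : ∀ T, ClsE (N T))
    (hN4 : ∀ T, ∃ c : RR, c ≠ 0 ∧ ∏ i ∈ T, d i = N T * c ^ 2 ∧ ∀ z, Prime z → z ∣ c → ∃ i, z ∣ d i)
    (i : Fin n) : N {i} = d i := by
  obtain ⟨c, hc, h1, -⟩ := hN4 {i}
  rw [Finset.prod_singleton] at h1
  symm
  refine hMUL.2.2.1 (d i) (N {i}) 1 c (hd i) (hN1 _) one_ne_zero hc ?_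
  rw [one_pow, mul_one, h1]

include hMUL in
/-- the family and the sets -/
lemma cop_disj {N : Finset (Fin n) → RR} (hd : ∀ i, ClsE (d i)) (hN1 : ∀ T, ClsE (N T))
    (hN4 : ∀ T, ∃ c : RR, c ≠ 0 ∧ ∏ i ∈ T, d i = N T * c ^ 2 ∧ ∀ z, Prime z → z ∣ c → ∃ i, z ∣ d i)
    (hN5 : ∀ T z, Prime z → z ∣ N T → ∃ i, z ∣ d i) {D : RR} (hD : ClsE D) :
    (∀ i, IsCoprime D (d i)) ↔ Disjoint (PD D) (ZZ fun T : Finset (Fin n) => PD (N T)) := by
  unfold ZZ
  rw [Finset.disjoint_biUnion_right]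
  constructor
  · intro h T _
    refine (hMUL.1 D (N T) hD (hN1 T) fun z hz h1 h2 => ?_).2.2
    obtain ⟨i, hi⟩ := hN5 T z hz h2
    exact (cop_iff' (cls_ne hD)).1 (h i) z hz h1 hi
  · intro h i
    rw [cop_iff' (cls_ne hD), ← single_eq hMUL hd hN1 hN4 i]
    exact hMUL.2.1 D (N {i}) hD (hN1 _) (h {i} (Finset.mem_univ _))

include hMUL in
/-- the good elements and the sets -/
lemma all_iff {N : Finset (Fin n) → RR} (hd : ∀ i, ClsE (d i)) (hN1 : ∀ T, ClsE (N T))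
    (hN4 : ∀ T, ∃ c : RR, c ≠ 0 ∧ ∏ i ∈ T, d i = N T * c ^ 2 ∧ ∀ z, Prime z → z ∣ c → ∃ i, z ∣ d i)
    (hN5 : ∀ T z, Prime z → z ∣ N T → ∃ i, z ∣ d i) {D : RR} (hD : ClsE D)
    (hc : ∀ i, IsCoprime D (d i)) :
    AllR d D ↔ GdJ (fun T : Finset (Fin n) => PD (N T)) (PD D) := by
  have h1 : ∀ T, ClsE (D * N T) ∧ PD (D * N T) = PD D ∪ PD (N T) := by
    intro T
    obtain ⟨g1, g2, -⟩ := hMUL.1 D (N T) hD (hN1 T) fun z hz h1 h2 => by
      obtain ⟨i, hi⟩ := hN5 T z hz h2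
      exact (cop_iff' (cls_ne hD)).1 (hc i) z hz h1 hi
    exact ⟨g1, g2⟩
  unfold AllR GdJ
  constructor
  · intro h T
    obtain ⟨c, hc0, h2, -⟩ := hN4 T
    have h3 := h T (D * N T) c (h1 T).1 hc0 (by rw [h2]; ring)
    rwa [(h1 T).2] at h3
  · intro h T M c hM hc0 hMc
    obtain ⟨c', hc0', h2, -⟩ := hN4 T
    have h3 : M = D * N T := hMUL.2.2.1 M (D * N T) c c' hM (h1 T).1 hc0 hc0' (by
      rw [← hMc, h2]; ring)
    rw [h3, (h1 T).2]
    exact h T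

include hCLS hMUL hd hi in
/-- **the exact joint proportion** -/
theorem densR (hJ : S_DQJ) : Tendsto
    (fun X : ℕ => (({D ∈ FamR d X | AllR d D}).ncard : ℝ) / ((FamR d X).ncard : ℝ)) atTop
    (nhds (c2 ^ (2 ^ n))) := by
  obtain ⟨N, hN1, hN2, -, hN4, hN5⟩ := hCLS n d hd hi
  have hF : Fx (Finset (Fin n)) (fun T => PD (N T)) :=
    ⟨fun T => (hMUL.2.2.2 (N T) (hN1 T)).1, fun T T' h =>
      hN2 ((hMUL.2.2.2 (N T) (hN1 T)).2 (N T') (hN1 T') h)⟩
  have h1 := hJ (Finset (Fin n)) (fun T => PD (N T)) hF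
  rw [Fintype.card_finset, Fintype.card_fin] at h1
  refine h1.congr fun X => ?_
  have e1 : (SSJ (ZZ fun T : Finset (Fin n) => PD (N T)) X).card = (FamR d X).ncard := by
    have g := NS.card_eq X (fun S => Disjoint S (ZZ fun T : Finset (Fin n) => PD (N T)))
    refine Eq.trans (card_inst _ _ _ _) (g.symm.trans (congrArg Set.ncard ?_))
    ext D
    unfold FamR
    simp only [Set.mem_ofPred_eq]
    exact and_congr_right fun _ => and_congr_right fun hD =>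
      (cop_disj hMUL hd hN1 hN4 hN5 hD).symm
  have e2 : ((SSJ (ZZ fun T : Finset (Fin n) => PD (N T)) X).filter
      (GdJ fun T : Finset (Fin n) => PD (N T))).card = ({D ∈ FamR d X | AllR d D}).ncard := by
    unfold SSJ
    rw [Finset.filter_filter]
    have g := NS.card_eq X (fun S => Disjoint S (ZZ fun T : Finset (Fin n) => PD (N T)) ∧
      GdJ (fun T : Finset (Fin n) => PD (N T)) S)
    refine Eq.trans (card_inst _ _ _ _) (g.symm.trans (congrArg Set.ncard ?_))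
    ext D
    unfold FamR
    simp only [Set.mem_ofPred_eq]
    constructor
    · rintro ⟨g1, g2, g3, g4⟩
      have g5 := (cop_disj hMUL hd hN1 hN4 hN5 g2).2 g3
      exact ⟨⟨g1, g2, g5⟩, (all_iff hMUL hd hN1 hN4 hN5 g2 g5).2 g4⟩
    · rintro ⟨⟨g1, g2, g5⟩, g4⟩
      exact ⟨g1, g2, (cop_disj hMUL hd hN1 hN4 hN5 g2).1 g5,
        (all_iff hMUL hd hN1 hN4 hN5 g2 g5).1 g4⟩
  rw [e1, e2]

include hCLS hMUL hd hi in
/-- the lower bound -/
theorem lowR (hJ : S_DQJ) (hL : S_LOWJ) (hC2 : S_C2) : ∃ δ : ℝ, 0 < δ ∧ ∀ᶠ X : ℕ in atTop,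
    δ * X ≤ (({D ∈ FamR d X | AllR d D}).ncard : ℝ) := by
  obtain ⟨N, hN1, hN2, -, hN4, hN5⟩ := hCLS n d hd hi
  obtain ⟨c, X₀, hc, h1⟩ := hL (ZZ fun T : Finset (Fin n) => PD (N T)) (by
    intro u hu
    unfold ZZ at hu
    rw [Finset.mem_biUnion] at hu
    obtain ⟨T, -, h2⟩ := hu
    exact (hMUL.2.2.2 (N T) (hN1 T)).1.1 u h2)
  obtain ⟨-, hc0, -⟩ := hC2
  have hcp : 0 < c2 ^ (2 ^ n) := pow_pos hc0 _
  have h2 := (tendsto_order.1 (densR hCLS hMUL hd hi hJ)).1 (c2 ^ (2 ^ n) / 2) (by linarith)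
  refine ⟨c * (c2 ^ (2 ^ n) / 2), by positivity, ?_⟩
  filter_upwards [h2, eventually_ge_atTop X₀, eventually_ge_atTop 1] with X h3 h4 h5
  have h6 := h1 X h4
  have e1 : (SSJ (ZZ fun T : Finset (Fin n) => PD (N T)) X).card = (FamR d X).ncard := by
    have g := NS.card_eq X (fun S => Disjoint S (ZZ fun T : Finset (Fin n) => PD (N T)))
    refine Eq.trans (card_inst _ _ _ _) (g.symm.trans (congrArg Set.ncard ?_))
    ext D
    unfold FamR
    simp only [Set.mem_ofPred_eq]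
    exact and_congr_right fun _ => and_congr_right fun hD =>
      (cop_disj hMUL hd hN1 hN4 hN5 hD).symm
  rw [e1] at h6
  have hX1 : (1 : ℝ) ≤ X := by exact_mod_cast h5
  have h7 : 0 < ((FamR d X).ncard : ℝ) := lt_of_lt_of_le (by positivity) h6
  rw [lt_div_iff₀ h7] at h3
  nlinarith

end

end Pool.Agent.R426.QM
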