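import Pool.Agent.R426.QM.Lf2
import Pool.Agent.R426.QM.Cls
import Pool.Agent.R426.QJ.Fin

/-!
# Project QM: the joint proportion for a coset, and the extensions `L₀(√D)` of a fixed field
-/

set_option autoImplicit false

open scoped Classical

namespace Pool.Agent.R426.QM

open Finset Filter
open Pool.Agent.Y698
open Pool.Agent.Y698.SG hiding PD
open Pool.Agent.R426.QK Pool.Agent.R426.QJ

/-- the elements of the class prime to `M` and to the `d i` -/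
def FamM {n : ℕ} (d : Fin n → RR) (M : RR) (X : ℕ) : Set RR :=
  {D | nrm D ≤ X ∧ ClsE D ∧ IsCoprime D M ∧ ∀ i, IsCoprime D (d i)}

section

variable {n : ℕ} {d : Fin n → RR} {M : RR} (hM : ClsE M) (hMd : ∀ i, IsCoprime M (d i))
  (hd : ∀ i, ClsE (d i)) (hi : IndR d)

/-- the classes of the coset -/
theorem coset {N : Finset (Fin n) → RR} (hM : ClsE M) (hMd : ∀ i, IsCoprime M (d i))
    (hN1 : ∀ T, ClsE (N T)) (hN5 : ∀ T z, Prime z → z ∣ N T → ∃ i, z ∣ d i)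
    (T : Finset (Fin n)) : ClsE (M * N T) := by
  refine (Cls.t_MUL.1 M (N T) hM (hN1 T) fun z hz h1 h2 => ?_).1
  obtain ⟨i, hi⟩ := hN5 T z hz h2
  exact (cop_iff' (cls_ne hM)).1 (hMd i) z hz h1 hi

lemma cop_disjM {N : Finset (Fin n) → RR} (hM : ClsE M) (hMd : ∀ i, IsCoprime M (d i))
    (hd : ∀ i, ClsE (d i)) (hN1 : ∀ T, ClsE (N T))
    (hN4 : ∀ T, ∃ c : RR, c ≠ 0 ∧ ∏ i ∈ T, d i = N T * c ^ 2 ∧ ∀ z, Prime z → z ∣ c → ∃ i, z ∣ d i)
    (hN5 : ∀ T z, Prime z → z ∣ N T → ∃ i, z ∣ d i) {D : RR} (hD : ClsE D) :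
    (IsCoprime D M ∧ ∀ i, IsCoprime D (d i)) ↔
      Disjoint (PD D) (ZZ fun T : Finset (Fin n) => PD (M * N T)) := by
  unfold ZZ
  rw [Finset.disjoint_biUnion_right]
  constructor
  · rintro ⟨h0, h⟩ T _
    refine (Cls.t_MUL.1 D (M * N T) hD (coset hM hMd hN1 hN5 T) fun z hz h1 h2 => ?_).2.2
    rcases hz.dvd_or_dvd h2 with h3 | h3
    · exact (cop_iff' (cls_ne hD)).1 h0 z hz h1 h3
    · obtain ⟨i, hi⟩ := hN5 T z hz h3
      exact (cop_iff' (cls_ne hD)).1 (h i) z hz h1 hi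
  · intro h
    refine ⟨?_, fun i => ?_⟩
    · rw [cop_iff' (cls_ne hD)]
      intro z hz h1 h2
      exact Cls.t_MUL.2.1 D (M * N ∅) hD (coset hM hMd hN1 hN5 ∅) (h ∅ (Finset.mem_univ _)) z hz h1
        (h2.mul_right _)
    · rw [cop_iff' (cls_ne hD)]
      intro z hz h1 h2
      rw [← single_eq Cls.t_MUL hd hN1 hN4 i] at h2
      exact Cls.t_MUL.2.1 D (M * N {i}) hD (coset hM hMd hN1 hN5 {i}) (h {i} (Finset.mem_univ _)) z
        hz h1 (h2.mul_left _)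

lemma all_iffM {N : Finset (Fin n) → RR} (hM : ClsE M) (hMd : ∀ i, IsCoprime M (d i))
    (hN1 : ∀ T, ClsE (N T))
    (hN4 : ∀ T, ∃ c : RR, c ≠ 0 ∧ ∏ i ∈ T, d i = N T * c ^ 2 ∧ ∀ z, Prime z → z ∣ c → ∃ i, z ∣ d i)
    (hN5 : ∀ T z, Prime z → z ∣ N T → ∃ i, z ∣ d i) {D : RR} (hD : ClsE D)
    (h0 : IsCoprime D M) (hc : ∀ i, IsCoprime D (d i)) :
    AllR d (M * D) ↔ GdJ (fun T : Finset (Fin n) => PD (M * N T)) (PD D) := by
  have h1 : ∀ T, ClsE (D * (M * N T)) ∧ PD (D * (M * N T)) = PD D ∪ PD (M * N T) := by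
    intro T
    obtain ⟨g1, g2, -⟩ := Cls.t_MUL.1 D (M * N T) hD (coset hM hMd hN1 hN5 T)
      fun z hz h1 h2 => by
      rcases hz.dvd_or_dvd h2 with h3 | h3
      · exact (cop_iff' (cls_ne hD)).1 h0 z hz h1 h3
      · obtain ⟨i, hi⟩ := hN5 T z hz h3
        exact (cop_iff' (cls_ne hD)).1 (hc i) z hz h1 hi
    exact ⟨g1, g2⟩
  unfold AllR GdJ
  constructor
  · intro h T
    obtain ⟨c, hc0, h2, -⟩ := hN4 T
    have h3 := h T (D * (M * N T)) c (h1 T).1 hc0 (by rw [h2]; ring)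
    rwa [(h1 T).2] at h3
  · intro h T M' c hM' hc0 hMc
    obtain ⟨c', hc0', h2, -⟩ := hN4 T
    have h3 : M' = D * (M * N T) := Cls.t_MUL.2.2.1 M' (D * (M * N T)) c c' hM' (h1 T).1 hc0 hc0' (by
      rw [← hMc, h2]; ring)
    rw [h3, (h1 T).2]
    exact h T

include hM hMd hd hi in
/-- **the exact joint proportion for the coset** -/
theorem densM : Tendsto
    (fun X : ℕ => (({D ∈ FamM d M X | AllR d (M * D)}).ncard : ℝ) / ((FamM d M X).ncard : ℝ)) atTop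
    (nhds (c2 ^ (2 ^ n))) ∧ ∃ δ : ℝ, 0 < δ ∧ ∀ᶠ X : ℕ in atTop,
    δ * X ≤ (({D ∈ FamM d M X | AllR d (M * D)}).ncard : ℝ) := by
  obtain ⟨N, hN1, hN2, -, hN4, hN5⟩ := Cls.t_CLS n d hd hi
  have hC := coset hM hMd hN1 hN5
  have hF : Fx (Finset (Fin n)) (fun T => PD (M * N T)) := by
    refine ⟨fun T => (Cls.t_MUL.2.2.2 (M * N T) (hC T)).1, fun T T' h => ?_⟩
    have h1 := (Cls.t_MUL.2.2.2 (M * N T) (hC T)).2 (M * N T') (hC T') h
    exact hN2 (mul_left_cancel₀ (cls_ne hM) h1)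
  have e1 : ∀ X : ℕ, (SSJ (ZZ fun T : Finset (Fin n) => PD (M * N T)) X).card =
      (FamM d M X).ncard := by
    intro X
    have g := NS.card_eq X (fun S => Disjoint S (ZZ fun T : Finset (Fin n) => PD (M * N T)))
    refine Eq.trans (card_inst _ _ _ _) (g.symm.trans (congrArg Set.ncard ?_))
    ext D
    unfold FamM
    simp only [Set.mem_ofPred_eq]
    exact and_congr_right fun _ => and_congr_right fun hD =>
      (cop_disjM hM hMd hd hN1 hN4 hN5 hD).symm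
  have key : Tendsto (fun X : ℕ => (({D ∈ FamM d M X | AllR d (M * D)}).ncard : ℝ) /
      ((FamM d M X).ncard : ℝ)) atTop (nhds (c2 ^ (2 ^ n))) := by
    have h1 := t_DQJ (Finset (Fin n)) (fun T => PD (M * N T)) hF
    rw [Fintype.card_finset, Fintype.card_fin] at h1
    refine h1.congr fun X => ?_
    have e2 : ((SSJ (ZZ fun T : Finset (Fin n) => PD (M * N T)) X).filter
        (GdJ fun T : Finset (Fin n) => PD (M * N T))).card =
        ({D ∈ FamM d M X | AllR d (M * D)}).ncard := by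
      unfold SSJ
      rw [Finset.filter_filter]
      have g := NS.card_eq X (fun S => Disjoint S (ZZ fun T : Finset (Fin n) => PD (M * N T)) ∧
        GdJ (fun T : Finset (Fin n) => PD (M * N T)) S)
      refine Eq.trans (card_inst _ _ _ _) (g.symm.trans (congrArg Set.ncard ?_))
      ext D
      unfold FamM
      simp only [Set.mem_ofPred_eq]
      constructor
      · rintro ⟨g1, g2, g3, g4⟩
        have g5 := (cop_disjM hM hMd hd hN1 hN4 hN5 g2).2 g3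
        exact ⟨⟨g1, g2, g5⟩, (all_iffM hM hMd hN1 hN4 hN5 g2 g5.1 g5.2).2 g4⟩
      · rintro ⟨⟨g1, g2, g5⟩, g4⟩
        exact ⟨g1, g2, (cop_disjM hM hMd hd hN1 hN4 hN5 g2).1 g5,
          (all_iffM hM hMd hN1 hN4 hN5 g2 g5.1 g5.2).1 g4⟩
    rw [e1, e2]
  refine ⟨key, ?_⟩
  obtain ⟨c, X₀, hc, h1⟩ := LOW.t_LOWJ (ZZ fun T : Finset (Fin n) => PD (M * N T)) (by
    intro u hu
    unfold ZZ at hu
    rw [Finset.mem_biUnion] at hu
    obtain ⟨T, -, h2⟩ := hu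
    exact (Cls.t_MUL.2.2.2 (M * N T) (hC T)).1.1 u h2)
  obtain ⟨-, hc0, -⟩ := QK.MOM.t_C2
  have hcp : 0 < c2 ^ (2 ^ n) := pow_pos hc0 _
  have h2 := (tendsto_order.1 key).1 (c2 ^ (2 ^ n) / 2) (by linarith)
  refine ⟨c * (c2 ^ (2 ^ n) / 2), by positivity, ?_⟩
  filter_upwards [h2, eventually_ge_atTop X₀, eventually_ge_atTop 1] with X h3 h4 h5
  have h6 := h1 X h4
  rw [e1] at h6
  have hX1 : (1 : ℝ) ≤ X := by exact_mod_cast h5
  have h7 : 0 < ((FamM d M X).ncard : ℝ) := lt_of_lt_of_le (by positivity) h6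
  rw [lt_div_iff₀ h7] at h3
  nlinarith

end

end Pool.Agent.R426.QM
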