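import Pool.Agent.R432.RB5
import Pool.Agent.Y655.XT.Shavc

/-!
# Project QM, QM-FS: the Tate-Shafarevich groups of the twists of `X_0(49)` over multiquadratic extensions
-/

set_option autoImplicit false
set_option linter.unusedSectionVars false

attribute [-instance] DivisionRing.toRatAlgebra

namespace Pool.Agent.R426.QM.FS

open WeierstrassCurve NumberField
open Pool.Agent.TH841.NF (Sc)
open Pool.Agent.TH841.NF.D (Sha)
open Pool.Agent.R432.RB (Kl twk quad triv_ext adj_gen)
open Pool.Agent.Y700 (VR)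

/-- the curve `y² = x³ - 35 D² x - 98 D³` -/
def EE {k : Type} [Field k] (D : k) : WeierstrassCurve k := ⟨0, 0, 0, -35 * D ^ 2, -98 * D ^ 3⟩

/-- the twist of `X_0(49)` -/
noncomputable def cv {K : Type} [Field K] (D : K) : WeierstrassCurve K :=
  ⟨1, -(3 * D + 1) / 4, 0, -2 * D ^ 2, -D ^ 3⟩

lemma scE {k F : Type} [Field k] [Field F] [Algebra k F] (D : k) :
    Sc (algebraMap k F) 1 (EE D) (EE (algebraMap k F D)) := by
  refine ⟨one_ne_zero, ?_, ?_, ?_, ?_, ?_⟩
  · change (0 : F) = algebraMap k F 0 * 1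
    rw [map_zero, zero_mul]
  · change (0 : F) = algebraMap k F 0 * 1 ^ 2
    rw [map_zero, zero_mul]
  · change (0 : F) = algebraMap k F 0 * 1 ^ 3
    rw [map_zero, zero_mul]
  · change -35 * (algebraMap k F D) ^ 2 = algebraMap k F (-35 * D ^ 2) * 1 ^ 4
    rw [map_mul, map_neg, map_pow, map_ofNat]
    ring
  · change -98 * (algebraMap k F D) ^ 3 = algebraMap k F (-98 * D ^ 3) * 1 ^ 6
    rw [map_mul, map_neg, map_pow, map_ofNat]
    ring

lemma twkE {k : Type} [Field k] (d D : k) : twk d (EE D) = EE (d * D) := by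
  unfold twk EE
  apply WeierstrassCurve.ext
  · rfl
  · change d * 0 = 0
    rw [mul_zero]
  · rfl
  · change d ^ 2 * (-35 * D ^ 2) = -35 * (d * D) ^ 2
    ring
  · change d ^ 3 * (-98 * D ^ 3) = -98 * (d * D) ^ 3
    ring

/-- a quadratic step -/
theorem stepE {k F : Type} [Field k] [NumberField k] [Field F] [NumberField F] [Algebra k F]
    {r : F} {d D : k} (hr : r ^ 2 = algebraMap k F d) (hd : d ≠ 0)
    (hgen : IntermediateField.adjoin k {r} = ⊤) {a : ℕ}
    (h1 : Kl (Sha (EE D)) a) (h2 : Kl (Sha (EE (d * D))) a) :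
    Kl (Sha (EE (algebraMap k F D))) (a + 1) := by
  rw [← twkE] at h2
  exact quad (scE D) rfl rfl hr hd hgen h1 h2

/-- **Multiquadratic extensions.** -/
theorem mulq {ι : Type} [DecidableEq ι] (s : Finset ι) : ∀ (k F : Type) [Field k] [NumberField k]
    [Field F] [NumberField F] [Algebra k F] (q : ι → k) (r : ι → F),
    (∀ i ∈ s, r i ^ 2 = algebraMap k F (q i)) → (∀ i ∈ s, q i ≠ 0) →
    (∀ L : Subfield F, (∀ x : k, algebraMap k F x ∈ L) → (∀ i ∈ s, r i ∈ L) → L = ⊤) →
    ∀ (D : k) (a : ℕ), (∀ T ⊆ s, Kl (Sha (EE (D * ∏ i ∈ T, q i))) a) →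
    Kl (Sha (EE (algebraMap k F D))) (a + s.card) := by
  induction s using Finset.induction_on with
  | empty =>
    intro k F _ _ _ _ _ q r _ _ hgen D a hyp
    have hs : Function.Surjective (algebraMap k F) := by
      have h1 := hgen (algebraMap k F).fieldRange (fun x => ⟨x, rfl⟩)
        (fun i hi => absurd hi (Finset.notMem_empty i))
      intro y
      have h2 : y ∈ (algebraMap k F).fieldRange := by rw [h1]; trivial
      exact h2
    have h1 := hyp ∅ (Finset.Subset.refl _)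
    rw [Finset.prod_empty, mul_one] at h1
    exact triv_ext (scE D) rfl rfl hs h1
  | insert i₀ s hi₀ ih =>
    intro k F _ _ _ _ _ q r hr hq hgen D a hyp
    have hr0 := hr i₀ (Finset.mem_insert_self _ _)
    have hq0 := hq i₀ (Finset.mem_insert_self _ _)
    set L := IntermediateField.adjoin k {r i₀} with hL
    have hcard : a + (insert i₀ s).card = (a + 1) + s.card := by
      rw [Finset.card_insert_of_notMem hi₀]; ring
    rw [hcard]
    have key := ih L F (fun i => algebraMap k L (q i)) r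
      (fun i hi => hr i (Finset.mem_insert_of_mem hi))
      (fun i hi h => hq i (Finset.mem_insert_of_mem hi) ((map_eq_zero _).1 h)) ?_
      (algebraMap k L D) (a + 1) ?_
    · exact key
    · intro S hS1 hS2
      apply hgen S
      · intro x
        exact hS1 (algebraMap k L x)
      · intro i hi
        rcases Finset.mem_insert.1 hi with rfl | hi
        · exact hS1 (IntermediateField.AdjoinSimple.gen k (r i))
        · exact hS2 i hi
    · intro T hT
      have h1 : algebraMap k L D * ∏ i ∈ T, algebraMap k L (q i) =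
          algebraMap k L (D * ∏ i ∈ T, q i) := by
        rw [map_mul, map_prod]
      rw [h1]
      have h2 := hyp T (hT.trans (Finset.subset_insert _ _))
      have h3 := hyp (insert i₀ T) (Finset.insert_subset_insert _ hT)
      rw [Finset.prod_insert (fun h => hi₀ (hT h))] at h3
      have h5 : D * (q i₀ * ∏ i ∈ T, q i) = q i₀ * (D * ∏ i ∈ T, q i) := by ring
      rw [h5] at h3
      have e1 : (IntermediateField.AdjoinSimple.gen k (r i₀)) ^ 2 = algebraMap k L (q i₀) := by
        apply Subtype.ext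
        exact hr0
      exact stepE e1 hq0 (adj_gen _) h2 h3

theorem kl_iso {G H : Type} [AddCommGroup G] [AddCommGroup H] (e : G ≃+ H) {a : ℕ} (h : Kl G a) :
    Kl H a := by
  intro n x hx
  have h1 := h n (e.symm x) (by rw [← map_nsmul, hx, map_zero])
  rw [← map_nsmul] at h1
  exact (map_eq_zero_iff e.symm e.symm.injective).1 h1

section vr

variable {K : Type} [Field K] [CharZero K]

theorem vrC (D : K) : VR (EE D) (cv D) 2 (-D) 1 0 := by
  refine ⟨two_ne_zero, ?_, ?_, ?_, ?_, ?_⟩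
  · change (2 : K) * 1 = 0 + 2 * 1
    ring
  · change (2 : K) ^ 2 * (-(3 * D + 1) / 4) = 0 - 1 * 0 + 3 * (-D) - 1 ^ 2
    ring
  · change (2 : K) ^ 3 * 0 = 0 + -D * 0 + 2 * 0
    ring
  · change (2 : K) ^ 4 * (-2 * D ^ 2) = -35 * D ^ 2 - 1 * 0 + 2 * -D * 0 - (0 + -D * 1) * 0 +
      3 * (-D) ^ 2 - 2 * 1 * 0
    ring
  · change (2 : K) ^ 6 * (-D ^ 3) = -98 * D ^ 3 + -D * (-35 * D ^ 2) + (-D) ^ 2 * 0 + (-D) ^ 3 -
      0 * 0 - 0 ^ 2 - -D * 0 * 0
    ring

theorem vrS (N : K) {c : K} (hc : c ≠ 0) : VR (EE (N * c ^ 2)) (EE N) c 0 0 0 := by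
  refine ⟨hc, ?_, ?_, ?_, ?_, ?_⟩
  · change c * 0 = 0 + 2 * 0
    ring
  · change c ^ 2 * 0 = 0 - 0 * 0 + 3 * 0 - 0 ^ 2
    ring
  · change c ^ 3 * 0 = 0 + 0 * 0 + 2 * 0
    ring
  · change c ^ 4 * (-35 * N ^ 2) = -35 * (N * c ^ 2) ^ 2 - 0 * 0 + 2 * 0 * 0 - (0 + 0 * 0) * 0 +
      3 * 0 ^ 2 - 2 * 0 * 0
    ring
  · change c ^ 6 * (-98 * N ^ 3) = -98 * (N * c ^ 2) ^ 3 + 0 * (-35 * (N * c ^ 2) ^ 2) +
      0 ^ 2 * 0 + 0 ^ 3 - 0 * 0 - 0 ^ 2 - 0 * 0 * 0
    ring

theorem dE {D : K} (hD : D ≠ 0) : (EE D).Δ ≠ 0 := by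
  have e : (EE D).Δ = -1404928 * D ^ 6 := by
    simp only [EE, WeierstrassCurve.Δ, WeierstrassCurve.b₂, WeierstrassCurve.b₄,
      WeierstrassCurve.b₆, WeierstrassCurve.b₈]
    ring
  rw [e]
  exact mul_ne_zero (by norm_num) (pow_ne_zero 6 hD)

theorem dC {D : K} (hD : D ≠ 0) : (cv D).Δ ≠ 0 := by
  have h := (vrC D).delta
  intro h0
  rw [h0, mul_zero] at h
  exact dE hD h

open Classical in
/-- the points -/
theorem ptC {D : K} (hD : D ≠ 0) :
    Finite (cv D).toAffine.Point ↔ Finite (EE D).toAffine.Point :=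
  ((vrC D).equiv (dC hD)).toEquiv.finite_iff

open Classical in
theorem ptS {N : K} (hN : N ≠ 0) {c : K} (hc : c ≠ 0) :
    Finite (EE N).toAffine.Point ↔ Finite (EE (N * c ^ 2)).toAffine.Point :=
  ((vrS N hc).equiv (dE hN)).toEquiv.finite_iff

end vr

section sha

variable {K : Type} [Field K] [NumberField K]

theorem shC {D : K} (hD : D ≠ 0) {a : ℕ} : Kl (Sha (cv D)) a ↔ Kl (Sha (EE D)) a :=
  ⟨kl_iso (Pool.Agent.Y655.XT.isoVR (vrC D) (dC hD)).sha,
    kl_iso (Pool.Agent.Y655.XT.isoVR (vrC D) (dC hD)).sha.symm⟩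

theorem shS {N : K} (hN : N ≠ 0) {c : K} (hc : c ≠ 0) {a : ℕ} (h : Kl (Sha (EE N)) a) :
    Kl (Sha (EE (N * c ^ 2))) a :=
  kl_iso (Pool.Agent.Y655.XT.isoVR (vrS N hc) (dE hN)).sha h

end sha

/-- the theorem, with the finiteness of the points as a hypothesis -/
theorem core (k L : Type) [Field k] [NumberField k] [Field L] [NumberField L] [Algebra k L]
    (n : ℕ) (d : Fin n → k) (x : Fin n → L) (hd : ∀ i, d i ≠ 0)
    (hx : ∀ i, x i ^ 2 = algebraMap k L (d i))
    (hgen : IntermediateField.adjoin k (Set.range x) = ⊤) (D : k) (hD : D ≠ 0)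
    (h : ∀ T : Finset (Fin n), ∃ N c : k, c ≠ 0 ∧ D * ∏ i ∈ T, d i = N * c ^ 2 ∧
      Finite (cv N).toAffine.Point ∧ ∀ (j : ℕ) (y : Sha (cv N)), 2 ^ j • y = 0 → y = 0)
    (hfin : (∀ T : Finset (Fin n), Finite (EE (D * ∏ i ∈ T, d i)).toAffine.Point) →
      Finite (EE (algebraMap k L D)).toAffine.Point) :
    Finite (cv (algebraMap k L D)).toAffine.Point ∧
      ∀ (j : ℕ) (y : Sha (cv (algebraMap k L D))), 2 ^ j • y = 0 → 2 ^ n • y = 0 := by
  classical
  have hDL : algebraMap k L D ≠ 0 := fun h0 => hD ((map_eq_zero _).1 h0)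
  have hN : ∀ T : Finset (Fin n), ∀ N c : k, D * ∏ i ∈ T, d i = N * c ^ 2 → N ≠ 0 := by
    intro T N c h1 h0
    rw [h0, zero_mul] at h1
    rcases mul_eq_zero.1 h1 with h2 | h2
    · exact hD h2
    · obtain ⟨i, -, hi⟩ := Finset.prod_eq_zero_iff.1 h2
      exact hd i hi
  constructor
  · rw [ptC hDL]
    refine hfin fun T => ?_
    obtain ⟨N, c, hc, h1, h2, -⟩ := h T
    have hN0 := hN T N c h1
    rw [h1, ← ptS hN0 hc, ← ptC hN0]
    exact h2
  · have h1 : Kl (Sha (EE (algebraMap k L D))) (0 + (Finset.univ : Finset (Fin n)).card) := by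
      refine mulq Finset.univ k L d x (fun i _ => hx i) (fun i _ => hd i) ?_ D 0 ?_
      · intro S hS1 hS2
        have h2 : IntermediateField.adjoin k (Set.range x) ≤ S.toIntermediateField hS1 := by
          rw [IntermediateField.adjoin_le_iff]
          rintro _ ⟨i, rfl⟩
          exact hS2 i (Finset.mem_univ i)
        rw [hgen] at h2
        rw [eq_top_iff]
        intro z _
        exact h2 (IntermediateField.mem_top (x := z))
      · intro T _
        obtain ⟨N, c, hc, h2, -, h3⟩ := h T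
        have hN0 := hN T N c h2
        rw [h2]
        refine shS hN0 hc ((shC hN0).1 ?_)
        intro j y hy
        rw [h3 j y hy, smul_zero]
    rw [Finset.card_univ, Fintype.card_fin, zero_add] at h1
    exact (shC hDL).2 h1

end Pool.Agent.R426.QM.FS
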