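import Pool.Agent.R426.QM.Stm2
import Pool.Agent.R426.QM.FSc

/-!
# Project QM, QM-FS
-/

set_option autoImplicit false

namespace Pool.Agent.R426.QM.FS

/-- QM-FS -/
theorem t_FS (h1 : S_FIN) : S_FS := by
  intro k L _ _ _ _ _ n d x hd hx hgen D hD h
  exact core k L n d x hd hx hgen D hD h fun h2 => h1 k L n d x hd hx hgen D hD h2

end Pool.Agent.R426.QM.FS
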