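import Pool.Agent.R426.QM.Stm
import Pool.Agent.R308.QMFin

set_option autoImplicit false

/-! # QM-FIN -/

namespace Pool.Agent.R426.QM.Fin

theorem t_FIN : Pool.Agent.R426.QM.S_FIN := by
  intro k L _ _ _ _ _ n d x hd hx htop D hD hfin
  exact Pool.Agent.R308.QMFin.fin_twists k L n d x hd hx htop D hD hfin

end Pool.Agent.R426.QM.Fin
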