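import Pool.Agent.R426.QM.Bas

/-!
# Project QM: the `L`-functions over the multiquadratic extensions
-/

set_option autoImplicit false

attribute [-instance] DivisionRing.toRatAlgebra

open scoped Classical

namespace Pool.Agent.R426.QM

open NumberField IsDedekindDomain Filter
open Pool.Agent.Y698 Pool.Agent.Y698.SG
open Pool.Agent.R426.QC
open Pool.Agent.R426.QK (nrm ClsE nrm_cast)
open Pool.Agent.Results.MP_e996df_nt.TwoPartTwistsX49 (TwoPart curve IsL criterion exists_e cls_e)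
open Pool.Agent.W192.HK (sp HC)
open Pool.Agent.H921R2.TatePole (nm nm_eq nm_summable two_le_nm)

/-! ### signs -/

theorem signs_one {I : Type} (t : Finset I) (ε : I → ℂ) (hε : ∀ i ∈ t, ε i = 1) (x : ℂ) :
    ∏ J ∈ t.powerset, (1 - (∏ i ∈ J, ε i) * x) = (1 - x) ^ (2 ^ t.card) := by
  rw [Finset.prod_congr rfl (g := fun _ => (1 - x))]
  · rw [Finset.prod_const, Finset.card_powerset]
  · intro J hJ
    rw [Finset.mem_powerset] at hJ
    rw [Finset.prod_eq_one fun i hi => hε i (hJ hi), one_mul]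

theorem sgn_pm {I : Type} (J : Finset I) (ε : I → ℂ) (hε : ∀ i ∈ J, ε i = 1 ∨ ε i = -1) :
    ∏ i ∈ J, ε i = 1 ∨ ∏ i ∈ J, ε i = -1 := by
  induction J using Finset.induction_on with
  | empty => left; exact Finset.prod_empty
  | insert a T ha ih =>
    rw [Finset.prod_insert ha]
    rcases hε a (Finset.mem_insert_self a T) with h1 | h1 <;>
      rcases ih (fun i hi => hε i (Finset.mem_insert_of_mem hi)) with h2 | h2 <;>
      rw [h1, h2] <;> norm_num

theorem signs_neg {I : Type} (t : Finset I) (ε : I → ℂ)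
    (hε : ∀ i ∈ t, ε i = 1 ∨ ε i = -1) {i0 : I} (hi0 : i0 ∈ t) (h0 : ε i0 = -1) (x : ℂ) :
    ∏ J ∈ t.powerset, (1 - (∏ i ∈ J, ε i) * x) = (1 - x ^ 2) ^ (2 ^ (t.card - 1)) := by
  have h1 : t = insert i0 (t.erase i0) := (Finset.insert_erase hi0).symm
  have h2 : i0 ∉ t.erase i0 := Finset.notMem_erase _ _
  rw [h1, Finset.prod_powerset_insert h2, ← Finset.prod_mul_distrib, ← h1,
    ← Finset.card_erase_of_mem hi0, Finset.prod_congr rfl (g := fun _ => (1 - x ^ 2))]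
  · rw [Finset.prod_const, Finset.card_powerset]
  · intro J hJ
    rw [Finset.mem_powerset] at hJ
    have h3 : i0 ∉ J := fun h => h2 (hJ h)
    rw [Finset.prod_insert h3, h0]
    have h4 : ∏ i ∈ J, ε i = 1 ∨ ∏ i ∈ J, ε i = -1 :=
      sgn_pm J ε fun i hi => hε i (Finset.mem_of_mem_erase (hJ hi))
    rcases h4 with h | h <;> rw [h] <;> ring

lemma sy_pm {z x : RR} (h : ¬ z ∣ x) : sy z x = 1 ∨ sy z x = -1 :=
  sy_sgn (fun h' => h (Ideal.mem_span_singleton.1 h'))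

/-- **The local identity.** -/
theorem loc_id {t : Finset RR} {z : RR} (hpt : ∀ d ∈ t, ¬ z ∣ d) {n : ℕ}
    (hn : n * fd z t = 2 ^ t.card) (x : ℂ) :
    ∏ J ∈ t.powerset, (1 - (∏ d ∈ J, sy z d) * x) = (1 - x ^ fd z t) ^ n := by
  unfold fd at *
  split_ifs at * with hall
  · rw [signs_one t (fun d => sy z d) hall, pow_one, ← hn, mul_one]
  · push Not at hall
    obtain ⟨d0, hd0, hne⟩ := hall
    have h1 : sy z d0 = -1 := (sy_pm (hpt d0 hd0)).resolve_left hne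
    rw [signs_neg t (fun d => sy z d) (fun d hd => sy_pm (hpt d hd)) hd0 h1]
    congr 1
    have h2 : 0 < t.card := Finset.card_pos.2 ⟨d0, hd0⟩
    have h3 : 2 ^ t.card = 2 ^ (t.card - 1) * 2 := by
      rw [← pow_succ]; congr 1; omega
    rw [h3] at hn
    omega

lemma fd_cases (z : RR) (t : Finset RR) : fd z t = 1 ∨ fd z t = 2 := by
  unfold fd
  split_ifs
  · exact Or.inl rfl
  · exact Or.inr rfl

lemma cast_pow_cpow (Q f : ℕ) (z : ℂ) : ((Q ^ f : ℕ) : ℂ) ^ z = ((Q : ℂ) ^ z) ^ f := by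
  induction f with
  | zero => simp
  | succ n ih =>
    rw [pow_succ, pow_succ, ← ih, Nat.cast_mul, Complex.natCast_mul_natCast_cpow]

lemma nrm_mul_conj (z : RR) : (z : ℂ) * (starRingEnd ℂ) (z : ℂ) = ((nrm z : ℕ) : ℂ) := by
  have h1 := mul_cj z
  have h2 := congrArg (fun x : RR => (x : ℂ)) h1
  push_cast at h2
  rw [cj_coe] at h2
  rw [h2, ← nrm_cast]
  push_cast
  rfl

lemma normSq_eq (z : RR) : ‖(z : ℂ)‖ = ((nrm z : ℕ) : ℝ) ^ (1 / 2 : ℝ) := by
  have h4 : ‖(z : ℂ)‖ ^ 2 = ((nrm z : ℕ) : ℝ) := by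
    have h5 := congrArg norm (nrm_mul_conj z)
    rw [norm_mul, RCLike.norm_conj, Complex.norm_natCast] at h5
    rw [sq]
    exact h5
  rw [← h4, ← Real.sqrt_eq_rpow, Real.sqrt_sq (norm_nonneg _)]

lemma norm_Yz {z : RR} (hz : z ≠ 0) (s : ℂ) : ‖Yz s z‖ = ((nrm z : ℕ) : ℝ) ^ (1 / 2 - s.re) := by
  have h0 : 0 < nrm z := QK.nrm_pos' hz
  have hn : ‖((nrm z : ℕ) : ℂ) ^ (-s)‖ = ((nrm z : ℕ) : ℝ) ^ (-s.re) := by
    have := Complex.norm_natCast_cpow_of_pos (n := nrm z) h0 (-s)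
    rw [Complex.neg_re] at this
    exact this
  unfold Yz
  rw [norm_mul, hn, normSq_eq, ← Real.rpow_add (by exact_mod_cast h0)]
  congr 1

lemma norm_Yb {z : RR} (hz : z ≠ 0) (s : ℂ) : ‖Yb s z‖ = ((nrm z : ℕ) : ℝ) ^ (1 / 2 - s.re) := by
  rw [← norm_Yz hz s]
  unfold Yb Yz
  rw [norm_mul, norm_mul, RCLike.norm_conj]

lemma Yz_mul_Yb {z : RR} (hz : z ≠ 0) (s : ℂ) :
    Yz s z * Yb s z = ((nrm z : ℕ) : ℂ) ^ (1 - 2 * s) := by
  have h0 : ((nrm z : ℕ) : ℂ) ≠ 0 := Nat.cast_ne_zero.2 (QK.nrm_pos' hz).ne'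
  unfold Yz Yb
  have e4 : (1 - 2 * s) = 1 + ((-s) + (-s)) := by ring
  rw [e4, Complex.cpow_add _ _ h0, Complex.cpow_add _ _ h0, Complex.cpow_one, ← nrm_mul_conj]
  ring

theorem inv_bound {x y : ℂ} {w : ℝ} (hx : ‖x‖ ≤ w) (hy : ‖y‖ ≤ w) (hw : w ≤ 1 / 4) :
    ‖((1 - x) * (1 - y))⁻¹ - 1‖ ≤ 12 * w := by
  have hw0 : 0 ≤ w := (norm_nonneg x).trans hx
  set u : ℂ := x + y - x * y with hu
  have h1 : (1 - x) * (1 - y) = 1 - u := by rw [hu]; ring
  have h2 : ‖u‖ ≤ 3 * w := by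
    calc ‖u‖ ≤ ‖x + y‖ + ‖x * y‖ := norm_sub_le _ _
      _ ≤ (‖x‖ + ‖y‖) + ‖x‖ * ‖y‖ := by rw [norm_mul]; gcongr; exact norm_add_le _ _
      _ ≤ (w + w) + w * w := by gcongr
      _ ≤ 3 * w := by nlinarith
  have h3 : 1 / 4 ≤ ‖1 - u‖ := by
    have h4 := norm_sub_norm_le (1 : ℂ) u
    rw [norm_one] at h4
    linarith
  have h5 : (1 - u) ≠ 0 := by
    intro h
    rw [h, norm_zero] at h3
    norm_num at h3
  have h6 : (1 - u)⁻¹ - 1 = u / (1 - u) := by
    field_simp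
    ring
  rw [h1, h6, norm_div, div_le_iff₀ (by linarith)]
  nlinarith

section

set_option linter.unusedSectionVars false

variable {L : Type} [Field L] [NumberField L]

lemma cop_not_mem (ι : RR →+* 𝓞 L) {I : Ideal (𝓞 L)} (hI : I ≠ ⊤) {x y : RR} (h : IsCoprime x y)
    (hx : ι x ∈ I) : ι y ∉ I := by
  intro hy
  obtain ⟨a, b, hab⟩ := h
  apply hI
  rw [Ideal.eq_top_iff_one, ← map_one ι, ← hab, map_add, map_mul, map_mul]
  exact I.add_mem (I.mul_mem_left _ hx) (I.mul_mem_left _ hy)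

lemma exists_place (ι : RR →+* 𝓞 L) (w : HeightOneSpectrum (𝓞 L)) :
    ∃ z : RR, Prime z ∧ ι z ∈ w.asIdeal := by
  have := w.isPrime
  obtain ⟨z, hz⟩ := exists_gen (w.asIdeal.comap ι)
  have hpr : (w.asIdeal.comap ι).IsPrime := Ideal.comap_isPrime ι w.asIdeal
  have hz0 : z ≠ 0 := by
    intro h0
    have h3 := (nm_eq w).2.2
    have h4 : (((Pool.Agent.H921R2.TatePole.below w : ℕ) : RR)) ∈ w.asIdeal.comap ι := by
      rw [Ideal.mem_comap, map_natCast]
      exact_mod_cast h3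
    rw [hz, h0, Ideal.mem_span_singleton, zero_dvd_iff] at h4
    exact (Pool.Agent.H921R2.TatePole.below w).2.ne_zero (by exact_mod_cast h4)
  refine ⟨z, ?_, ?_⟩
  · rw [← Ideal.span_singleton_prime hz0]
    rw [hz] at hpr
    exact hpr
  · have : z ∈ w.asIdeal.comap ι := by
      rw [hz]
      exact Ideal.mem_span_singleton_self z
    exact this

/-- the Euler factor -/
theorem eul_z (hTR : S_TR) (ι : RR →+* 𝓞 L) {z : RR} (hz : Prime z) (h14 : ¬ z ∣ 14)
    (w : HeightOneSpectrum (𝓞 L)) (hw : ι z ∈ w.asIdeal) {M : RR} (hM : ¬ z ∣ M) {f : ℕ}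
    (hf : f = 1 ∨ f = 2) (hn : Ideal.absNorm w.asIdeal = nrm z ^ f) (s : ℂ) :
    eul (ι M) s w = ((1 - (sg M z * Yz s z) ^ f) * (1 - (sg M z * Yb s z) ^ f))⁻¹ := by
  have hmax : w.asIdeal.IsMaximal := w.isMaximal
  let _ : Field (𝓞 L ⧸ w.asIdeal) := Ideal.Quotient.field w.asIdeal
  have _ : Finite (𝓞 L ⧸ w.asIdeal) := Ideal.finiteQuotientOfFreeOfNeBot w.asIdeal w.ne_bot
  have hcard : Nat.card (𝓞 L ⧸ w.asIdeal) = nrm z ^ f := by
    rw [← hn, Ideal.absNorm_apply, Submodule.cardQuot_apply]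
  have h1 := hTR (𝓞 L ⧸ w.asIdeal) z hz h14 ((Ideal.Quotient.mk w.asIdeal).comp ι)
    (Ideal.Quotient.eq_zero_iff_mem.2 hw) f hf hcard M hM
  have h2 : ((aw (ι M) w : ℤ) : ℂ) = (sy z M * e7 z) ^ f *
      ((z : ℂ) ^ f + (starRingEnd ℂ) (z : ℂ) ^ f) := by
    rw [← h1]
    rfl
  unfold eul
  rw [h2, hcard, cast_pow_cpow, cast_pow_cpow, ← Yz_mul_Yb hz.ne_zero]
  congr 1
  have hsy : (sy z M) ^ 2 = 1 := by
    rcases sy_pm hM with h | h <;> rw [h] <;> norm_num
  have he7 : (e7 z) ^ 2 = 1 := by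
    refine e7_sq fun h => ?_
    rw [Ideal.mem_span_singleton] at h
    apply h14
    have h7 : z ∣ fR := ((QC.prime_fR.associated_of_dvd hz h).symm).dvd
    have h8 : (14 : RR) = fR * (-2 * fR) := by
      have := fR_sq
      linear_combination 2 * this
    rw [h8]
    exact h7.mul_right _
  have hs2 : ((sy z M * e7 z) ^ f) ^ 2 = 1 := by
    rw [← pow_mul, mul_comm f 2, pow_mul, mul_pow, hsy, he7, mul_one, one_pow]
  unfold sg Yz Yb
  rw [mul_pow, mul_pow, mul_pow, mul_pow] at *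
  linear_combination (-(((z : ℂ) ^ f * (((nrm z : ℕ) : ℂ) ^ (-s)) ^ f) *
    ((starRingEnd ℂ) (z : ℂ) ^ f * (((nrm z : ℕ) : ℂ) ^ (-s)) ^ f))) * hs2

variable {K : Type} [Field K] [NumberField K]

theorem KL (hSP : S_SPLIT) (hTR : S_TR) (e : RR ≃+* 𝓞 K) (ι : RR →+* 𝓞 L) {s₀ : Finset RR}
    {r : RR → 𝓞 L} (h : GenBy ι s₀ r) (hi : Indep s₀) (h0 : ∀ d ∈ s₀, d ≠ 0) {M : RR} (hM : M ≠ 0)
    (N : Finset RR → RR) (hN : ∀ J ∈ s₀.powerset, ClsE (N J))
    (hc : ∀ J ∈ s₀.powerset, ∃ c : RR, c ≠ 0 ∧ M * ∏ d ∈ J, d = N J * c ^ 2)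
    (hT : ∀ J ∈ s₀.powerset, TwoPart (curve ((e (N J) : 𝓞 K) : K))) :
    ∃ F : ℂ → ℂ, IsF (ι M) (ι (14 * M * ∏ d ∈ s₀, d)) F := by
  classical
  set B : RR := 14 * M * ∏ d ∈ s₀, d with hB
  have h140 : (14 : RR) ≠ 0 := by
    have h1 : ((14 : ℕ) : RR) ≠ 0 := Nat.cast_ne_zero.2 (by norm_num)
    exact_mod_cast h1
  have hB0 : B ≠ 0 := mul_ne_zero (mul_ne_zero h140 hM) (Finset.prod_ne_zero_iff.2 h0)
  choose! c hc0 hc1 using hc
  have hJB : ∀ J ∈ s₀.powerset, M * ∏ d ∈ J, d ∣ M * ∏ d ∈ s₀, d := fun J hJ =>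
    mul_dvd_mul_left M (Finset.prod_dvd_prod_of_subset _ _ _ (Finset.mem_powerset.1 hJ))
  have hNB : ∀ J ∈ s₀.powerset, 14 * N J ∣ B := by
    intro J hJ
    rw [hB, mul_assoc]
    refine mul_dvd_mul_left 14 ?_
    refine dvd_trans ?_ (hJB J hJ)
    rw [hc1 J hJ]
    exact dvd_mul_right _ _
  choose gz hgz using fun v : HeightOneSpectrum (𝓞 K) => exists_plc e v
  choose! F hF1 hF2 hF3 using fun J (hJ : J ∈ s₀.powerset) =>
    base_L e (hN J hJ) (hT J hJ) hB0 (hNB J hJ) gz hgz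
  refine ⟨fun s => ∏ J ∈ s₀.powerset, F J s,
    Differentiable.fun_finsetProd fun J hJ => hF1 J hJ,
    Finset.prod_ne_zero_iff.2 fun J hJ => hF2 J hJ, fun s hs => ?_⟩
  have hgp : ∀ v : HeightOneSpectrum (𝓞 K), Prime (gz v) := fun v => (hgz v).1
  have hgm : ∀ (v : HeightOneSpectrum (𝓞 K)) (x : RR), e x ∈ v.asIdeal ↔ gz v ∣ x := by
    intro v x
    obtain ⟨hz, hv⟩ := hgz v
    conv_lhs => rw [← hv]
    exact plc_mem e hz x
  -- the product over the base
  have hprod : HasProd (fun v : HeightOneSpectrum (𝓞 K) => ∏ J ∈ s₀.powerset,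
      if gz v ∣ B then (1 : ℂ) else (pf (N J) (gz v) s)⁻¹) (∏ J ∈ s₀.powerset, F J s) :=
    hasProd_prod fun J hJ => hF3 J hJ s hs
  set f : HeightOneSpectrum (𝓞 L) → ℂ := fun w =>
    if ι B ∈ w.asIdeal then 1 else eul (ι M) s w with hf
  show HasProd f (∏ J ∈ s₀.powerset, F J s)
  set e' : (Σ v : HeightOneSpectrum (𝓞 K), {w : HeightOneSpectrum (𝓞 L) // ι (gz v) ∈ w.asIdeal}) →
    HeightOneSpectrum (𝓞 L) := fun x => x.2.1 with he'
  have hcop : ∀ {z x : RR}, Prime z → ¬ z ∣ x → IsCoprime z x := fun hz hx =>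
    (hz.irreducible.coprime_iff_not_dvd).2 hx
  have hinj : Function.Injective e' := by
    rintro ⟨v, ⟨w, hw⟩⟩ ⟨v', ⟨w', hw'⟩⟩ hvw
    simp only [he'] at hvw
    subst hvw
    have hvv : v = v' := by
      by_contra hne
      have h1 : ¬ gz v ∣ gz v' := by
        intro h1
        apply hne
        have h2 := ((hgp v').irreducible.associated_of_dvd (hgp v).irreducible)
        have h3 : Associated (gz v) (gz v') := (hgp v).irreducible.associated_of_dvd
          (hgp v').irreducible h1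
        obtain ⟨hz, hv⟩ := hgz v
        obtain ⟨hz', hv'⟩ := hgz v'
        rw [← hv, ← hv']
        exact (plc_eq e hz hz').2 h3
      exact cop_not_mem ι w.isPrime.ne_top (hcop (hgp v) h1) hw hw'
    subst hvv
    rfl
  have hsurj : Function.Surjective e' := by
    intro w
    obtain ⟨z, hz, hzw⟩ := exists_place ι w
    set v : HeightOneSpectrum (𝓞 K) := plc e hz with hv
    have h1 : gz v ∣ z := (hgm v z).1 (by rw [hv]; exact (plc_mem e hz z).2 dvd_rfl)
    have h2 : Associated (gz v) z := (hgp v).irreducible.associated_of_dvd hz.irreducible h1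
    obtain ⟨y, hy⟩ := h2.symm.dvd
    have h3 : ι (gz v) ∈ w.asIdeal := by
      rw [hy, map_mul]
      exact w.asIdeal.mul_mem_right _ hzw
    exact ⟨⟨v, ⟨w, h3⟩⟩, rfl⟩
  have hmem : ∀ (z : RR) (w : HeightOneSpectrum (𝓞 L)), Prime z → ι z ∈ w.asIdeal →
      (ι B ∈ w.asIdeal ↔ z ∣ B) := by
    intro z w hz hw
    constructor
    · intro h1
      by_contra h2
      exact cop_not_mem ι w.isPrime.ne_top (hcop hz h2) hw h1
    · rintro ⟨y, hy⟩
      rw [hy, map_mul]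
      exact w.asIdeal.mul_mem_right _ hw
  have hgd : ∀ z : RR, Prime z → ¬ z ∣ B → ¬ z ∣ 14 ∧ ¬ z ∣ 2 ∧ ¬ z ∣ M ∧ (∀ d ∈ s₀, ¬ z ∣ d) := by
    intro z hz hzB
    refine ⟨fun h1 => hzB ?_, fun h1 => hzB ?_, fun h1 => hzB ?_, fun d hd h1 => hzB ?_⟩
    · rw [hB, mul_assoc]
      exact h1.mul_right _
    · rw [hB]
      have h2 : (14 : RR) = 2 * 7 := by norm_num
      rw [h2, mul_assoc, mul_assoc]
      exact h1.mul_right _
    · rw [hB]
      exact (h1.mul_left 14).mul_right _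
    · rw [hB]
      exact (h1.trans (Finset.dvd_prod_of_mem _ hd)).mul_left _
  have hsplit : ∀ z : RR, Prime z → ¬ z ∣ B →
      (∀ w : HeightOneSpectrum (𝓞 L), ι z ∈ w.asIdeal →
        Ideal.absNorm w.asIdeal = nrm z ^ fd z s₀) ∧
      Nat.card {w : HeightOneSpectrum (𝓞 L) // ι z ∈ w.asIdeal} * fd z s₀ = 2 ^ s₀.card := by
    intro z hz hzB
    obtain ⟨-, g2, -, g4⟩ := hgd z hz hzB
    exact hSP L ι s₀ r h hi h0 z hz g2 g4
  have hsg : ∀ z : RR, Prime z → ¬ z ∣ B → ‖sg M z‖ = 1 := by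
    intro z hz hzB
    obtain ⟨g1, -, g3, -⟩ := hgd z hz hzB
    have he7 : (e7 z) ^ 2 = 1 := by
      refine e7_sq fun h => ?_
      rw [Ideal.mem_span_singleton] at h
      apply g1
      have h7 : z ∣ fR := ((QC.prime_fR.associated_of_dvd hz h).symm).dvd
      have h8 : (14 : RR) = fR * (-2 * fR) := by
        have := fR_sq
        linear_combination 2 * this
      rw [h8]
      exact h7.mul_right _
    unfold sg
    rcases sy_pm g3 with h1 | h1 <;> rcases sq_one_cases he7 with h2 | h2 <;>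
      rw [h1, h2] <;> norm_num
  have hmult : Multipliable f := by
    have hsum := nm_summable (K := L) (x := s.re - 1 / 2) (by linarith)
    have h5 : Summable (fun w : HeightOneSpectrum (𝓞 L) => ‖f w - 1‖) := by
      refine Summable.of_norm_bounded_eventually (hsum.mul_left 12) ?_
      have h6 := hsum.tendsto_cofinite_zero.eventually (Iio_mem_nhds (by norm_num : (0 : ℝ) < 1 / 4))
      filter_upwards [h6] with w hw
      rw [norm_norm]
      simp only [hf]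
      split_ifs with hiq
      · rw [sub_self, norm_zero]
        positivity
      · obtain ⟨z, hz, hzw⟩ := exists_place ι w
        have hzB : ¬ z ∣ B := fun h => hiq ((hmem z w hz hzw).2 h)
        obtain ⟨g1, -, g3, -⟩ := hgd z hz hzB
        obtain ⟨h7, -⟩ := hsplit z hz hzB
        rw [eul_z hTR ι hz g1 w hzw g3 (fd_cases z s₀) (h7 w hzw) s]
        have h9 : (nm w : ℝ) = ((nrm z : ℕ) : ℝ) ^ fd z s₀ := by
          unfold Pool.Agent.H921R2.TatePole.nm
          rw [h7 w hzw]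
          push_cast
          rfl
        have h10 : (((nrm z : ℕ) : ℝ) ^ (1 / 2 - s.re)) ^ fd z s₀ =
            (nm w : ℝ) ^ (-(s.re - 1 / 2)) := by
          rw [h9, ← Real.rpow_natCast, ← Real.rpow_mul (Nat.cast_nonneg _), ← Real.rpow_natCast,
            ← Real.rpow_mul (Nat.cast_nonneg _)]
          congr 1
          ring
        refine inv_bound ?_ ?_ (le_of_lt hw)
        · rw [norm_pow, norm_mul, hsg z hz hzB, one_mul, norm_Yz hz.ne_zero, h10]
        · rw [norm_pow, norm_mul, hsg z hz hzB, one_mul, norm_Yb hz.ne_zero, h10]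
    have h7 := multipliable_one_add_of_summable h5
    refine h7.congr (fun v => ?_)
    ring
  rw [← hinj.hasProd_iff (fun w hw => absurd (hsurj w) hw)]
  refine HasProd.sigma_of_hasProd hprod ?_ ((hinj.multipliable_iff
    (fun w hw => absurd (hsurj w) hw)).2 hmult)
  intro v
  simp only [Function.comp_apply, he', hf]
  by_cases hqB : gz v ∣ B
  · have h2 : ∏ J ∈ s₀.powerset, (if gz v ∣ B then (1 : ℂ) else (pf (N J) (gz v) s)⁻¹) = 1 :=
      Finset.prod_eq_one fun J hJ => if_pos hqB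
    rw [h2]
    have h1 : (fun c : {w : HeightOneSpectrum (𝓞 L) // ι (gz v) ∈ w.asIdeal} =>
        if ι B ∈ c.1.asIdeal then (1 : ℂ) else eul (ι M) s c.1) = fun _ => 1 := by
      funext c
      rw [if_pos ((hmem (gz v) c.1 (hgp v) c.2).2 hqB)]
    rw [h1]
    exact hasProd_one
  · obtain ⟨g1, g2, g3, g4⟩ := hgd (gz v) (hgp v) hqB
    obtain ⟨h7, h9⟩ := hsplit (gz v) (hgp v) hqB
    have hfin : Finite {w : HeightOneSpectrum (𝓞 L) // ι (gz v) ∈ w.asIdeal} := by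
      apply Nat.finite_of_card_ne_zero
      intro h1
      rw [h1, zero_mul] at h9
      exact (pow_ne_zero s₀.card two_ne_zero) h9.symm
    have _ : Fintype {w : HeightOneSpectrum (𝓞 L) // ι (gz v) ∈ w.asIdeal} := Fintype.ofFinite _
    have h1 : (fun c : {w : HeightOneSpectrum (𝓞 L) // ι (gz v) ∈ w.asIdeal} =>
        if ι B ∈ c.1.asIdeal then (1 : ℂ) else eul (ι M) s c.1) = fun _ =>
        ((1 - (sg M (gz v) * Yz s (gz v)) ^ fd (gz v) s₀) *
          (1 - (sg M (gz v) * Yb s (gz v)) ^ fd (gz v) s₀))⁻¹ := by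
      funext c
      rw [if_neg (fun h => hqB ((hmem (gz v) c.1 (hgp v) c.2).1 h))]
      exact eul_z hTR ι (hgp v) g1 c.1 c.2 g3 (fd_cases _ _) (h7 c.1 c.2) s
    rw [h1]
    have hsyJ : ∀ J ∈ s₀.powerset, sy (gz v) (N J) = sy (gz v) M * ∏ d ∈ J, sy (gz v) d := by
      intro J hJ
      have h10 : ¬ gz v ∣ c J := by
        intro h11
        have h12 : gz v ∣ M * ∏ d ∈ J, d := by
          rw [hc1 J hJ, sq]
          exact (h11.mul_right _).mul_left _
        rcases (hgp v).dvd_or_dvd h12 with h13 | h13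
        · exact g3 h13
        · obtain ⟨d, hd, h14⟩ := ((hgp v).dvd_finsetProd_iff _).1 h13
          exact g4 d (Finset.mem_powerset.1 hJ hd) h14
      have h11 := congrArg (sy (gz v)) (hc1 J hJ)
      rw [QD.sy_mulO (hgp v) g2, QD.sy_mulO (hgp v) g2, sq, QD.sy_mulO (hgp v) g2] at h11
      have h12 : sy (gz v) (c J) * sy (gz v) (c J) = 1 := by
        rcases sy_pm h10 with h13 | h13 <;> rw [h13] <;> norm_num
      rw [h12, mul_one] at h11
      rw [← h11, ← QD.sy_prodO (hgp v) g2]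
    have h2 : ∏ J ∈ s₀.powerset, (if gz v ∣ B then (1 : ℂ) else (pf (N J) (gz v) s)⁻¹) =
        ∏ _c : {w : HeightOneSpectrum (𝓞 L) // ι (gz v) ∈ w.asIdeal},
        ((1 - (sg M (gz v) * Yz s (gz v)) ^ fd (gz v) s₀) *
          (1 - (sg M (gz v) * Yb s (gz v)) ^ fd (gz v) s₀))⁻¹ := by
      rw [Finset.prod_const, Finset.card_univ, ← Nat.card_eq_fintype_card, inv_pow, mul_pow,
        ← loc_id g4 h9, ← loc_id g4 h9, ← Finset.prod_mul_distrib, ← Finset.prod_inv_distrib]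
      refine Finset.prod_congr rfl fun J hJ => ?_
      rw [if_neg hqB]
      congr 1
      unfold pf sg
      rw [hsyJ J hJ]
      ring
    rw [h2]
    exact hasProd_fintype _

end

end Pool.Agent.R426.QM
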