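import Mathlib

/-!
# Project QM: independence in the limit, the exact law and the law of large numbers
-/

set_option autoImplicit false

open scoped Classical
open Finset Filter

namespace Pool.Agent.R426.QM.Prob

section

variable {α β : Type} (fam : ℕ → Set β) (P : α → β → Prop)

/-- the number of the `D` with the properties of `V` -/
noncomputable def g (X : ℕ) (V : Finset α) : ℝ := (({D ∈ fam X | ∀ N ∈ V, P N D}).ncard : ℝ)

/-- the hypothesis: independence in the limit -/
def Ind (c : ℝ) (T : Finset α) : Prop := ∀ V ⊆ T,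
  Tendsto (fun X : ℕ => g fam P X V / ((fam X).ncard : ℝ)) atTop (nhds (c ^ V.card))

variable {fam P}

theorem incl_excl (hfin : ∀ X, (fam X).Finite) {c : ℝ} {T : Finset α} (h : Ind fam P c T)
    (U : Finset α) : ∀ V : Finset α, U ⊆ T → V ⊆ T → Disjoint U V →
    Tendsto (fun X : ℕ => (({D ∈ fam X | (∀ N ∈ V, P N D) ∧ ∀ N ∈ U, ¬ P N D}).ncard : ℝ) /
      ((fam X).ncard : ℝ)) atTop (nhds (c ^ V.card * (1 - c) ^ U.card)) := by
  induction U using Finset.induction_on with
  | empty =>
    intro V _ hV _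
    have h1 := h V hV
    unfold g at h1
    rw [Finset.card_empty, pow_zero, mul_one]
    refine h1.congr fun X => ?_
    congr 3
    ext D
    simp
  | insert N U hN ih =>
    intro V hU hV hd
    have hNT : N ∈ T := hU (mem_insert_self _ _)
    have hUT : U ⊆ T := (subset_insert _ _).trans hU
    have hNV : N ∉ V := Finset.disjoint_left.1 hd (mem_insert_self _ _)
    have hUV : Disjoint U V := hd.mono_left (subset_insert _ _)
    have h1 := ih V hUT hV hUV
    have h2 := ih (insert N V) hUT (insert_subset hNT hV) (by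
      rw [Finset.disjoint_insert_right]
      exact ⟨hN, hUV⟩)
    have h3 := h1.sub h2
    rw [Finset.card_insert_of_notMem hNV] at h3
    rw [Finset.card_insert_of_notMem hN]
    have e : c ^ V.card * (1 - c) ^ U.card - c ^ (V.card + 1) * (1 - c) ^ U.card =
        c ^ V.card * (1 - c) ^ (U.card + 1) := by ring
    rw [e] at h3
    refine h3.congr fun X => ?_
    rw [← sub_div]
    congr 1
    have hs : {D ∈ fam X | (∀ M ∈ V, P M D) ∧ ∀ M ∈ U, ¬ P M D} =
        {D ∈ fam X | (∀ M ∈ insert N V, P M D) ∧ ∀ M ∈ U, ¬ P M D} ∪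
        {D ∈ fam X | (∀ M ∈ V, P M D) ∧ ∀ M ∈ insert N U, ¬ P M D} := by
      ext D
      simp only [Set.mem_ofPred_eq, Set.mem_union, Finset.forall_mem_insert]
      by_cases hP : P N D <;> tauto
    have hdj : Disjoint {D ∈ fam X | (∀ M ∈ insert N V, P M D) ∧ ∀ M ∈ U, ¬ P M D}
        {D ∈ fam X | (∀ M ∈ V, P M D) ∧ ∀ M ∈ insert N U, ¬ P M D} := by
      rw [Set.disjoint_left]
      intro D h4 h5
      exact h5.2.2 N (mem_insert_self _ _) (h4.2.1 N (mem_insert_self _ _))
    have hc := Set.ncard_union_eq hdj ((hfin X).subset fun _ h => h.1)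
      ((hfin X).subset fun _ h => h.1)
    rw [← hs] at hc
    rw [hc]
    push_cast
    ring

/-- **the exact law** -/
theorem law (hfin : ∀ X, (fam X).Finite) {c : ℝ} {T : Finset α} (h : Ind fam P c T)
    {V : Finset α} (hV : V ⊆ T) :
    Tendsto (fun X : ℕ => (({D ∈ fam X | ∀ N ∈ T, P N D ↔ N ∈ V}).ncard : ℝ) /
      ((fam X).ncard : ℝ)) atTop (nhds (c ^ V.card * (1 - c) ^ (T.card - V.card))) := by
  have h1 := incl_excl hfin h (T \ V) V sdiff_subset hV sdiff_disjoint
  rw [Finset.card_sdiff_of_subset hV] at h1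
  refine h1.congr fun X => ?_
  congr 3
  ext D
  simp only [Set.mem_ofPred_eq]
  refine and_congr_right fun _ => ?_
  constructor
  · rintro ⟨h2, h3⟩ N hN
    constructor
    · intro h4
      by_contra h5
      exact h3 N (mem_sdiff.2 ⟨hN, h5⟩) h4
    · exact h2 N
  · intro h2
    exact ⟨fun N hN => (h2 N (hV hN)).2 hN, fun N hN h3 =>
      (mem_sdiff.1 hN).2 ((h2 N (mem_sdiff.1 hN).1).1 h3)⟩

/-- the second moment -/
theorem second (hfin : ∀ X, (fam X).Finite) (c : ℝ) (T : Finset α) (X : ℕ) :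
    ∑ D ∈ (hfin X).toFinset, (((T.filter fun N => P N D).card : ℝ) - c * T.card) ^ 2 =
      (∑ N ∈ T, ∑ N' ∈ T, g fam P X {N, N'}) - 2 * c * T.card * (∑ N ∈ T, g fam P X {N}) +
        c ^ 2 * T.card ^ 2 * g fam P X ∅ := by
  have hg : ∀ V : Finset α, g fam P X V =
      ∑ D ∈ (hfin X).toFinset, if ∀ N ∈ V, P N D then (1 : ℝ) else 0 := by
    intro V
    unfold g
    rw [Finset.sum_boole, ← Set.ncard_coe_finset]
    congr 2
    ext D
    simp
  have hcnt : ∀ D : β, ((T.filter fun N => P N D).card : ℝ) =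
      ∑ N ∈ T, if P N D then (1 : ℝ) else 0 := by
    intro D
    rw [Finset.sum_boole]
  simp only [hg, hcnt]
  have h1 : ∀ D : β, ((∑ N ∈ T, if P N D then (1 : ℝ) else 0) - c * T.card) ^ 2 =
      (∑ N ∈ T, ∑ N' ∈ T, if ∀ M ∈ ({N, N'} : Finset α), P M D then (1 : ℝ) else 0) -
        2 * c * T.card * (∑ N ∈ T, if ∀ M ∈ ({N} : Finset α), P M D then (1 : ℝ) else 0) +
        c ^ 2 * T.card ^ 2 * (if ∀ M ∈ (∅ : Finset α), P M D then (1 : ℝ) else 0) := by
    intro D
    have h2 : ∑ N ∈ T, ∑ N' ∈ T, (if ∀ M ∈ ({N, N'} : Finset α), P M D then (1 : ℝ) else 0) =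
        (∑ N ∈ T, if P N D then (1 : ℝ) else 0) * ∑ N ∈ T, if P N D then (1 : ℝ) else 0 := by
      rw [Finset.sum_mul_sum]
      refine Finset.sum_congr rfl fun N _ => Finset.sum_congr rfl fun N' _ => ?_
      by_cases h3 : P N D <;> by_cases h4 : P N' D <;> simp [h3, h4]
    have h5 : ∑ N ∈ T, (if ∀ M ∈ ({N} : Finset α), P M D then (1 : ℝ) else 0) =
        ∑ N ∈ T, if P N D then (1 : ℝ) else 0 :=
      Finset.sum_congr rfl fun N _ => by simp
    rw [h2, h5]
    simp only [Finset.notMem_empty, false_imp_iff, implies_true, if_true]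
    ring
  simp only [h1]
  rw [Finset.sum_add_distrib, Finset.sum_sub_distrib, ← Finset.mul_sum, ← Finset.mul_sum,
    Finset.sum_comm]
  congr 2
  · exact Finset.sum_congr rfl fun N _ => Finset.sum_comm
  · congr 1
    exact Finset.sum_comm

/-- **the law of large numbers** -/
theorem lln (hfin : ∀ X, (fam X).Finite) {c : ℝ} {T : Finset α} (h : Ind fam P c T)
    {ε : ℝ} (hε : 0 < ε) (ht : 1 ≤ 2 * ε ^ 3 * T.card) :
    ∀ᶠ X : ℕ in atTop,
      (({D ∈ fam X | ε * T.card < |((T.filter fun N => P N D).card : ℝ) - c * T.card|}).ncard : ℝ) ≤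
        ε * ((fam X).ncard : ℝ) := by
  have ht0 : (0 : ℝ) < T.card := by
    rcases Nat.eq_zero_or_pos T.card with h0 | h0
    · rw [h0] at ht
      norm_num at ht
    · exact_mod_cast h0
  set t : ℝ := ((T.card : ℕ) : ℝ) with htd
  have hlim : Tendsto (fun X : ℕ =>
      (∑ N ∈ T, ∑ N' ∈ T, g fam P X {N, N'} / ((fam X).ncard : ℝ)) -
        2 * c * t * (∑ N ∈ T, g fam P X {N} / ((fam X).ncard : ℝ)) +
        c ^ 2 * t ^ 2 * (g fam P X ∅ / ((fam X).ncard : ℝ))) atTop
      (nhds ((∑ N ∈ T, ∑ N' ∈ T, c ^ ({N, N'} : Finset α).card) -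
        2 * c * t * (∑ N ∈ T, c ^ ({N} : Finset α).card) +
        c ^ 2 * t ^ 2 * c ^ (∅ : Finset α).card)) := by
    refine Tendsto.add (Tendsto.sub ?_ ?_) ?_
    · refine tendsto_finsetSum _ fun N hN => tendsto_finsetSum _ fun N' hN' => ?_
      exact h _ (insert_subset hN (singleton_subset_iff.2 hN'))
    · refine Tendsto.const_mul _ (tendsto_finsetSum _ fun N hN => ?_)
      exact h _ (singleton_subset_iff.2 hN)
    · exact Tendsto.const_mul _ (h _ (empty_subset _))
  have hval : (∑ N ∈ T, ∑ N' ∈ T, c ^ ({N, N'} : Finset α).card) -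
        2 * c * t * (∑ N ∈ T, c ^ ({N} : Finset α).card) +
        c ^ 2 * t ^ 2 * c ^ (∅ : Finset α).card = t * (c - c ^ 2) := by
    have h1 : ∀ N ∈ T, ∑ N' ∈ T, c ^ ({N, N'} : Finset α).card = t * c ^ 2 + (c - c ^ 2) := by
      intro N hN
      have h2 : ∀ N' ∈ T, c ^ ({N, N'} : Finset α).card = c ^ 2 + if N = N' then c - c ^ 2 else 0 := by
        intro N' _
        by_cases h3 : N = N'
        · subst h3
          rw [if_pos rfl]
          simp
        · rw [if_neg h3, Finset.card_pair h3, add_zero]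
      rw [Finset.sum_congr rfl h2, Finset.sum_add_distrib, Finset.sum_const, nsmul_eq_mul,
        Finset.sum_ite_eq, if_pos hN]
    rw [Finset.sum_congr rfl h1]
    simp only [Finset.card_singleton, Finset.card_empty, pow_one, pow_zero, Finset.sum_const,
      nsmul_eq_mul, mul_one]
    rw [← htd]
    ring
  rw [hval] at hlim
  have hlt : t * (c - c ^ 2) < t / 2 := by
    have : c - c ^ 2 < 1 / 2 := by nlinarith [sq_nonneg (c - 1 / 2)]
    nlinarith
  filter_upwards [(tendsto_order.1 hlim).2 _ hlt] with X hX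
  set n : ℝ := ((fam X).ncard : ℝ) with hn
  have hbadfin : ({D ∈ fam X | ε * t < |((T.filter fun N => P N D).card : ℝ) - c * t|}).Finite :=
    (hfin X).subset fun _ h => h.1
  rcases (Nat.cast_nonneg ((fam X).ncard) : (0 : ℝ) ≤ ((fam X).ncard : ℝ)).eq_or_lt with h0 | h0
  · have h1 : (({D ∈ fam X | ε * t < |((T.filter fun N => P N D).card : ℝ) - c * t|}).ncard : ℝ) ≤
        ((fam X).ncard : ℝ) := by
      have hsub : {D ∈ fam X | ε * t < |((T.filter fun N => P N D).card : ℝ) - c * t|} ⊆ fam X :=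
        fun _ h => h.1
      exact_mod_cast Set.ncard_le_ncard hsub (hfin X)
    rw [← h0] at h1
    rw [hn, ← h0, mul_zero]
    exact h1
  · rw [← hn] at h0
    have hS := second (P := P) hfin c T X
    have hSn : (∑ D ∈ (hfin X).toFinset,
        (((T.filter fun N => P N D).card : ℝ) - c * T.card) ^ 2) ≤ t / 2 * n := by
      rw [hS, ← htd]
      have e : (∑ N ∈ T, ∑ N' ∈ T, g fam P X {N, N'} / n) -
          2 * c * t * (∑ N ∈ T, g fam P X {N} / n) + c ^ 2 * t ^ 2 * (g fam P X ∅ / n) =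
          ((∑ N ∈ T, ∑ N' ∈ T, g fam P X {N, N'}) - 2 * c * t * (∑ N ∈ T, g fam P X {N}) +
            c ^ 2 * t ^ 2 * g fam P X ∅) / n := by
        simp only [← Finset.sum_div]
        ring
      rw [e, div_lt_iff₀ h0] at hX
      exact hX.le
    have hbad : (({D ∈ fam X | ε * t < |((T.filter fun N => P N D).card : ℝ) - c * t|}).ncard : ℝ) *
        (ε * t) ^ 2 ≤ ∑ D ∈ (hfin X).toFinset,
        (((T.filter fun N => P N D).card : ℝ) - c * T.card) ^ 2 := by
      have e1 : ({D ∈ fam X | ε * t < |((T.filter fun N => P N D).card : ℝ) - c * t|}).ncard =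
          ((hfin X).toFinset.filter fun D =>
            ε * t < |((T.filter fun N => P N D).card : ℝ) - c * t|).card := by
        rw [← Set.ncard_coe_finset]
        congr 1
        ext D
        simp
      rw [e1, ← nsmul_eq_mul, ← Finset.sum_const]
      refine (Finset.sum_le_sum fun D hD => ?_).trans
        (Finset.sum_le_sum_of_subset_of_nonneg (Finset.filter_subset _ _) fun D _ _ => sq_nonneg _)
      have h2 := (Finset.mem_filter.1 hD).2
      rw [← sq_abs (((T.filter fun N => P N D).card : ℝ) - c * T.card), ← htd]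
      exact pow_le_pow_left₀ (by positivity) h2.le 2
    have h3 := hbad.trans hSn
    have h4 : t / 2 * n ≤ ε * n * (ε * t) ^ 2 := by
      have h5 : t / 2 * n * 1 ≤ t / 2 * n * (2 * ε ^ 3 * t) :=
        mul_le_mul_of_nonneg_left ht (by positivity)
      calc t / 2 * n = t / 2 * n * 1 := (mul_one _).symm
        _ ≤ t / 2 * n * (2 * ε ^ 3 * t) := h5
        _ = _ := by ring
    exact le_of_mul_le_mul_right (h3.trans h4) (by positivity)

end

end Pool.Agent.R426.QM.Prob
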