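import Pool.Agent.R426.QM.TopM
import Pool.Agent.R426.QM.Prob
import Pool.Agent.R426.QJ.AsyZ

/-!
# Project QM: the joint law for the twists by a finite set of numbers
-/

set_option autoImplicit false

open scoped Classical

namespace Pool.Agent.R426.QM

open NumberField IsDedekindDomain Filter
open Pool.Agent.Y698 Pool.Agent.Y698.SG
open Pool.Agent.R426.QC
open Pool.Agent.R426.QK (nrm ClsE nrm_cast c2 Gd)
open Pool.Agent.R426.QJ
open Pool.Agent.Results.MP_e996df_nt.TwoPartTwistsX49 (TwoPart curve IsL criterion exists_e cls_e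
  sqf_e good_e)

/-- the elements of the class prime to the elements of `T` -/
def FamT (T : Finset RR) (X : ℕ) : Set RR := {D | nrm D ≤ X ∧ ClsE D ∧ ∀ N ∈ T, IsCoprime D N}

lemma cls_mul {D N : RR} (hD : ClsE D) (hN : ClsE N) (h : IsCoprime D N) :
    ClsE (D * N) ∧ QK.PD (D * N) = QK.PD D ∪ QK.PD N := by
  obtain ⟨h1, h2, -⟩ := Cls.t_MUL.1 D N hD hN fun z hz h1 h2 =>
    (cop_iff' (cls_ne hD)).1 h z hz h1 h2
  exact ⟨h1, h2⟩

lemma cop_disjT {D N : RR} (hD : ClsE D) (hN : ClsE N) :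
    IsCoprime D N ↔ Disjoint (QK.PD D) (QK.PD N) :=
  ⟨fun h => (Cls.t_MUL.1 D N hD hN ((cop_iff' (cls_ne hD)).1 h)).2.2,
    fun h => (cop_iff' (cls_ne hD)).2 (Cls.t_MUL.2.1 D N hD hN h)⟩

/-- **the exact joint proportion** for the twists by the elements of `V` -/
theorem densT {T V : Finset RR} (hT : ∀ N ∈ T, ClsE N) (hV : V ⊆ T) : Tendsto
    (fun X : ℕ => (({D ∈ FamT T X | ∀ N ∈ V, Gd (QK.PD (D * N))}).ncard : ℝ) /
      ((FamT T X).ncard : ℝ)) atTop (nhds (c2 ^ V.card)) := by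
  set F : V → Finset RR := fun N => QK.PD N.1 with hFd
  have hF : Fx V F := by
    refine ⟨fun N => (Cls.t_MUL.2.2.2 N.1 (hT _ (hV N.2))).1, fun N N' h => Subtype.ext ?_⟩
    exact (Cls.t_MUL.2.2.2 N.1 (hT _ (hV N.2))).2 N'.1 (hT _ (hV N'.2)) h
  set Z : Finset RR := T.biUnion QK.PD with hZd
  have hFZ : ZZ F ⊆ Z := by
    intro u hu
    unfold ZZ at hu
    obtain ⟨N, -, h⟩ := Finset.mem_biUnion.1 hu
    exact Finset.mem_biUnion.2 ⟨N.1, hV N.2, h⟩
  have hZq : ∀ u ∈ Z, QK.Pq u := by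
    intro u hu
    obtain ⟨N, hN, h⟩ := Finset.mem_biUnion.1 hu
    exact (Cls.t_MUL.2.2.2 N (hT N hN)).1.1 u h
  have hcop : ∀ D : RR, ClsE D → ((∀ N ∈ T, IsCoprime D N) ↔ Disjoint (QK.PD D) Z) := by
    intro D hD
    rw [hZd, Finset.disjoint_biUnion_right]
    exact forall_congr' fun N => forall_congr' fun hN => cop_disjT hD (hT N hN)
  have hgd : ∀ D : RR, ClsE D → (∀ N ∈ T, IsCoprime D N) →
      ((∀ N ∈ V, Gd (QK.PD (D * N))) ↔ GdJ F (QK.PD D)) := by
    intro D hD hc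
    unfold GdJ
    constructor
    · intro h N
      have h1 := h N.1 N.2
      rwa [(cls_mul hD (hT _ (hV N.2)) (hc _ (hV N.2))).2] at h1
    · intro h N hN
      rw [(cls_mul hD (hT _ (hV hN)) (hc _ (hV hN))).2]
      exact h ⟨N, hN⟩
  have h1 := AsyZ.t_DQZ QK.recP QK.t_BIL QK.EQ.t_EQ t_LAJ Box.t_BOXJ QK.CNT.t_CNT
    (FB.t_FBJ QK.recP QK.t_HALL QK.t_MERT) LOW.t_LOWJ QK.MOM.t_C2 V F hF Z hFZ hZq
  rw [Fintype.card_coe] at h1
  refine h1.congr fun X => ?_
  have e1 : (SSJ Z X).card = (FamT T X).ncard := by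
    have g := QK.NS.card_eq X (fun S => Disjoint S Z)
    refine Eq.trans (card_inst _ _ _ _) (g.symm.trans (congrArg Set.ncard ?_))
    ext D
    unfold FamT
    simp only [Set.mem_ofPred_eq]
    exact and_congr_right fun _ => and_congr_right fun hD => (hcop D hD).symm
  have e2 : ((SSJ Z X).filter (GdJ F)).card =
      ({D ∈ FamT T X | ∀ N ∈ V, Gd (QK.PD (D * N))}).ncard := by
    unfold SSJ
    rw [Finset.filter_filter]
    have g := QK.NS.card_eq X (fun S => Disjoint S Z ∧ GdJ F S)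
    refine Eq.trans (card_inst _ _ _ _) (g.symm.trans (congrArg Set.ncard ?_))
    ext D
    unfold FamT
    simp only [Set.mem_ofPred_eq]
    constructor
    · rintro ⟨g1, g2, g3, g4⟩
      have g5 := (hcop D g2).2 g3
      exact ⟨⟨g1, g2, g5⟩, (hgd D g2 g5).2 g4⟩
    · rintro ⟨⟨g1, g2, g5⟩, g4⟩
      exact ⟨g1, g2, (hcop D g2).1 g5, (hgd D g2 g5).1 g4⟩
  rw [e1, e2]

section

variable {K : Type} [Field K] [NumberField K]

/-- the family -/
def famT (a : 𝓞 K) (T : Finset (𝓞 K)) (X : ℕ) : Set (𝓞 K) :=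
  {D | Ideal.absNorm (Ideal.span {D}) ≤ X ∧ InCl a D ∧ ∀ N ∈ T, IsCoprime D N}

/-- products -/
lemma inCl_mul {a : 𝓞 K} (ha : a ^ 2 = a - 2) (hK : Module.finrank ℚ K = 2) {D N : 𝓞 K}
    (hD : InCl a D) (hN : InCl a N) (h : IsCoprime D N) : InCl a (D * N) := by
  obtain ⟨e, hea, hef⟩ := exists_e ha hK
  have hD' : ClsE (e.symm D) := (cls_e e hef _).1 (by rw [e.apply_symm_apply]; exact hD)
  have hN' : ClsE (e.symm N) := (cls_e e hef _).1 (by rw [e.apply_symm_apply]; exact hN)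
  have hc : IsCoprime (e.symm D) (e.symm N) := by
    rw [← cop_e, e.apply_symm_apply]
    exact h
  have h1 := (cls_e e hef _).2 (cls_mul hD' hN' hc).1
  rwa [map_mul, e.apply_symm_apply, e.apply_symm_apply] at h1

/-- uniqueness of the number of the class -/
lemma cls_unique {a : 𝓞 K} (ha : a ^ 2 = a - 2) (hK : Module.finrank ℚ K = 2) {N N' c c' : 𝓞 K}
    (hN : InCl a N) (hN' : InCl a N') (hc : c ≠ 0) (hc' : c' ≠ 0)
    (h : N * c ^ 2 = N' * c' ^ 2) : N = N' := by
  obtain ⟨e, hea, hef⟩ := exists_e ha hK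
  have h1 : ClsE (e.symm N) := (cls_e e hef _).1 (by rw [e.apply_symm_apply]; exact hN)
  have h2 : ClsE (e.symm N') := (cls_e e hef _).1 (by rw [e.apply_symm_apply]; exact hN')
  have h3 := congrArg e.symm h
  rw [map_mul, map_mul, map_pow, map_pow] at h3
  exact e.symm.injective (Cls.t_MUL.2.2.1 (e.symm N) (e.symm N') (e.symm c) (e.symm c') h1 h2
    ((map_ne_zero_iff e.symm e.symm.injective).2 hc)
    ((map_ne_zero_iff e.symm e.symm.injective).2 hc') h3)

lemma fin_famT {a : 𝓞 K} (ha : a ^ 2 = a - 2) (hK : Module.finrank ℚ K = 2) (T : Finset (𝓞 K))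
    (X : ℕ) : (famT a T X).Finite := by
  obtain ⟨e, hea, hef⟩ := exists_e ha hK
  have h1 : famT a T X ⊆ e '' {x : RR | nrm x ≤ X} := by
    intro D hD
    refine ⟨e.symm D, ?_, e.apply_symm_apply D⟩
    have h2 := hD.1
    have h3 := QK.absNorm_e e (e.symm D)
    rw [e.apply_symm_apply] at h3
    rw [h3] at h2
    exact h2
  exact ((QK.fin_norm_le X).image e).subset h1

/-- **the exact joint proportion** -/
theorem densTK {a : 𝓞 K} (ha : a ^ 2 = a - 2) (hK : Module.finrank ℚ K = 2)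
    {T V : Finset (𝓞 K)} (hT : ∀ N ∈ T, InCl a N) (hV : V ⊆ T) :
    Tendsto (fun X : ℕ =>
      (({D ∈ famT a T X | ∀ N ∈ V, TwoPart (curve ((D * N : 𝓞 K) : K))}).ncard : ℝ) /
      ((famT a T X).ncard : ℝ)) atTop (nhds (c2 ^ V.card)) := by
  obtain ⟨e, hea, hef⟩ := exists_e ha hK
  have hT' : ∀ N ∈ T.image e.symm, ClsE N := by
    intro N hN
    obtain ⟨M, hM, rfl⟩ := Finset.mem_image.1 hN
    exact (cls_e e hef _).1 (by rw [e.apply_symm_apply]; exact hT M hM)
  have h := densT hT' (Finset.image_subset_image (f := e.symm) hV)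
  rw [Finset.card_image_of_injective _ e.symm.injective] at h
  have hcp : ∀ x : RR, (∀ N ∈ T, IsCoprime (e x) N) ↔ ∀ N ∈ T.image e.symm, IsCoprime x N := by
    intro x
    rw [Finset.forall_mem_image]
    exact forall_congr' fun N => forall_congr' fun _ => cop_e e x N
  have e1 : ∀ X : ℕ, (famT a T X).ncard = (FamT (T.image e.symm) X).ncard := fun X =>
    QK.ncard_e e X _ _ fun x => by
      rw [← cls_e e hef x]
      exact and_congr Iff.rfl (hcp x)
  have e2 : ∀ X : ℕ, ({D ∈ famT a T X | ∀ N ∈ V, TwoPart (curve ((D * N : 𝓞 K) : K))}).ncard =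
      ({D ∈ FamT (T.image e.symm) X | ∀ N ∈ V.image e.symm, Gd (QK.PD (D * N))}).ncard := by
    intro X
    have h1 := QK.ncard_e e X
      (fun D : 𝓞 K => (InCl a D ∧ ∀ N ∈ T, IsCoprime D N) ∧
        ∀ N ∈ V, TwoPart (curve ((D * N : 𝓞 K) : K)))
      (fun x : RR => (ClsE x ∧ ∀ N ∈ T.image e.symm, IsCoprime x N) ∧
        ∀ N ∈ V.image e.symm, Gd (QK.PD (x * N))) fun x => by
        rw [← cls_e e hef x, ← hcp x]
        refine and_congr_right fun hx => ?_
        have hx' : ClsE x := (cls_e e hef x).1 hx.1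
        rw [Finset.forall_mem_image]
        refine forall_congr' fun N => forall_congr' fun hN => ?_
        have hN' : ClsE (e.symm N) := (cls_e e hef _).1 (by
          rw [e.apply_symm_apply]; exact hT N (hV hN))
        have hc : IsCoprime x (e.symm N) := (cop_e e x N).1 (hx.2 N (hV hN))
        have h3 := (cls_mul hx' hN' hc).1
        have h4 := good_e e ha hK hea hef (x * e.symm N)
        have h5 := (cls_e e hef _).2 h3
        have h6 : e (x * e.symm N) = e x * N := by rw [map_mul, e.apply_symm_apply]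
        rw [h6] at h4 h5
        constructor
        · intro h7
          exact (h4.1 ⟨h5, h7⟩).2
        · intro h7
          exact (h4.2 ⟨h3, h7⟩).2
    have h2 : {D ∈ famT a T X | ∀ N ∈ V, TwoPart (curve ((D * N : 𝓞 K) : K))} =
        {D : 𝓞 K | Ideal.absNorm (Ideal.span {D}) ≤ X ∧
        ((InCl a D ∧ ∀ N ∈ T, IsCoprime D N) ∧
          ∀ N ∈ V, TwoPart (curve ((D * N : 𝓞 K) : K)))} := by
      ext D
      unfold famT
      simp only [Set.mem_ofPred_eq]
      tauto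
    have h3 : {D ∈ FamT (T.image e.symm) X | ∀ N ∈ V.image e.symm, Gd (QK.PD (D * N))} =
        {x : RR | nrm x ≤ X ∧ ((ClsE x ∧ ∀ N ∈ T.image e.symm, IsCoprime x N) ∧
        ∀ N ∈ V.image e.symm, Gd (QK.PD (x * N)))} := by
      ext D
      unfold FamT
      simp only [Set.mem_ofPred_eq]
      tauto
    rw [h2, h3]
    exact h1
  refine h.congr fun X => ?_
  rw [e1, e2]

end

end Pool.Agent.R426.QM
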