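import Pool.Agent.Results.MP_cd906c_nt.MultiquadraticX49
import Pool.Agent.R426.QM.Law

/-!
# Project QM: the joint law of the twists, and the law of large numbers for the fields
-/

set_option autoImplicit false

open scoped Classical

namespace Pool.Agent.R426.QM

open NumberField IsDedekindDomain Filter Finset
open Pool.Agent.Y698 (RR)
open Pool.Agent.R426.QK (nrm ClsE)
open Pool.Agent.Results.MP_cd906c_nt
open Pool.Agent.Results.MP_cd906c_nt.MultiquadraticX49 (InClass NoSelmer AllNoSelmer Independent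
  OverExtensions)
open Pool.Agent.Results.MP_e996df_nt.TwoPartTwistsX49 (exists_e cls_e)

variable {K : Type} [Field K] [NumberField K]

/-- independence in the limit -/
theorem indNS {a : 𝓞 K} (ha : a ^ 2 = a - 2) (hK : Module.finrank ℚ K = 2) {T : Finset (𝓞 K)}
    (hT : ∀ N ∈ T, InClass a N) :
    Prob.Ind (famT a T) (fun N D : 𝓞 K => NoSelmer (MultiquadraticX49.curve ((D * N : 𝓞 K) : K)))
      MultiquadraticX49.c2 T := by
  intro V hV
  have h := densTK ha hK hT hV
  refine h.congr fun X => ?_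
  unfold Prob.g
  congr 3
  ext D
  simp only [Set.mem_ofPred_eq]
  refine and_congr_right fun hD => forall_congr' fun N => forall_congr' fun hN => ?_
  exact MultiquadraticX49.twoPart_iff ha hK
    (inCl_mul ha hK hD.2.1 (hT N (hV hN)) (hD.2.2 N (hV hN)))

/-- the extensions -/
theorem over_of {a : 𝓞 K} (ha : a ^ 2 = a - 2) (hK : Module.finrank ℚ K = 2) {n : ℕ}
    {d : Fin n → 𝓞 K} {M D : 𝓞 K} (hd : ∀ i, InClass a (d i)) (hind : Independent d)
    (hM : InClass a M) (hMd : ∀ i, IsCoprime M (d i)) (hD : InClass a D) (hDM : IsCoprime D M)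
    (hDd : ∀ i, IsCoprime D (d i))
    (h : ∀ (S : Finset (Fin n)) (N c : 𝓞 K), InClass a N → c ≠ 0 →
      M * ∏ i ∈ S, d i = N * c ^ 2 → NoSelmer (MultiquadraticX49.curve ((D * N : 𝓞 K) : K))) :
    OverExtensions d (M * D) := by
  refine MultiquadraticX49.extension ha hK d hd hind (inCl_mul ha hK hM hD hDM.symm)
    (fun i => (hMd i).mul_left (hDd i)) ?_
  intro S N' c' hN' hc' h'
  obtain ⟨N, c, hN, hc, h1⟩ := MultiquadraticX49.classes ha hK d hd hind hM hMd S
  have hDN : IsCoprime D N :=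
    (hDM.mul_right (IsCoprime.prod_right fun i _ => hDd i)).of_isCoprime_of_dvd_right
      ⟨c ^ 2, h1⟩
  have h2 := inCl_mul ha hK hD hN hDN
  have h3 : N' = D * N := cls_unique ha hK hN' h2 hc' hc (by linear_combination D * h1 - h')
  rw [h3]
  exact h S N c hN hc h1

/-- `1` is in the class -/
lemma one_cls {a : 𝓞 K} (ha : a ^ 2 = a - 2) (hK : Module.finrank ℚ K = 2) : InClass a (1 : 𝓞 K) := by
  obtain ⟨e, hea, hef⟩ := exists_e ha hK
  have h1c := (cls_e e hef 1).2 Cls.cls_one
  rwa [map_one] at h1c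

/-- the classes of the products -/
lemma clsK {a : 𝓞 K} (ha : a ^ 2 = a - 2) (hK : Module.finrank ℚ K = 2) {n : ℕ}
    {d : Fin n → 𝓞 K} (hd : ∀ i, InClass a (d i)) (hind : Independent d) :
    ∃ N : Finset (Fin n) → 𝓞 K, (∀ S, InClass a (N S)) ∧ Function.Injective N ∧ N ∅ = 1 ∧
      ∀ S, ∃ c : 𝓞 K, c ≠ 0 ∧ ∏ i ∈ S, d i = N S * c ^ 2 := by
  obtain ⟨e, hea, hef⟩ := exists_e ha hK
  obtain ⟨N, hN1, hN2, hN3, hN4, -⟩ := Cls.t_CLS n (fun i => e.symm (d i))
    (fun i => (cls_e e hef _).1 (by rw [e.apply_symm_apply]; exact hd i)) (indR_of e hind)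
  refine ⟨fun S => e (N S), fun S => (cls_e e hef _).2 (hN1 S), e.injective.comp hN2, ?_,
    fun S => ?_⟩
  · show e (N ∅) = 1
    rw [hN3, map_one]
  · obtain ⟨c, hc, h, -⟩ := hN4 S
    refine ⟨e c, (map_ne_zero_iff e e.injective).2 hc, ?_⟩
    have h2 := congrArg e h
    rw [map_prod, map_mul, map_pow] at h2
    simp only [e.apply_symm_apply] at h2
    exact h2

/-- the `D` prime to the `d j i`, with `NoSelmer` -/
def base (a : 𝓞 K) {J : Type} {n : ℕ} (d : J → Fin n → 𝓞 K) (X : ℕ) : Set (𝓞 K) :=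
  {D | Ideal.absNorm (Ideal.span {D}) ≤ X ∧ InClass a D ∧ (∀ j i, IsCoprime D (d j i)) ∧
    NoSelmer (MultiquadraticX49.curve (D : K))}

/-- **the law of large numbers for the fields** -/
theorem fields_lln {a : 𝓞 K} (ha : a ^ 2 = a - 2) (hK : Module.finrank ℚ K = 2) {n : ℕ}
    {J : Type} [Fintype J] (d : J → Fin n → 𝓞 K) (hd : ∀ j i, InClass a (d j i))
    (hind : ∀ j, Independent (d j))
    (hdis : ∀ j j', j ≠ j' → ∀ S S' : Finset (Fin n), S.Nonempty →
      ¬ IsSquare ((∏ i ∈ S, ((d j i : 𝓞 K) : K)) * ∏ i ∈ S', ((d j' i : 𝓞 K) : K)))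
    {ε : ℝ} (hε : 0 < ε) (hr : 1 ≤ 2 * ε ^ 3 * Fintype.card J) :
    ∀ᶠ X : ℕ in atTop, (({D ∈ base a d X |
      (((univ : Finset J).filter fun j => OverExtensions (d j) D).card : ℝ) <
        (MultiquadraticX49.c2 ^ (2 ^ n - 1) - ε) * Fintype.card J}).ncard : ℝ) ≤
      ε * ((base a d X).ncard : ℝ) := by
  obtain ⟨-, hc0, -⟩ := QK.MOM.t_C2
  have hc0' : (0 : ℝ) < MultiquadraticX49.c2 := hc0
  choose N hN1 hN2 hN3 hN4 using fun j => clsK ha hK (hd j) (hind j)
  choose c hcc0 hcc using hN4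
  set B : J → Finset (𝓞 K) := fun j => ((univ : Finset (Finset (Fin n))).erase ∅).image (N j)
    with hB
  set T : Finset (𝓞 K) := insert 1 ((univ : Finset J).biUnion B) with hTd
  have hBmem : ∀ j x, x ∈ B j ↔ ∃ S : Finset (Fin n), S.Nonempty ∧ N j S = x := by
    intro j x
    rw [hB]
    simp only [Finset.mem_image, Finset.mem_erase, Finset.mem_univ, and_true,
      Finset.nonempty_iff_ne_empty]
  have hT : ∀ x ∈ T, InClass a x := by
    intro x hx
    rw [hTd, Finset.mem_insert, Finset.mem_biUnion] at hx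
    rcases hx with rfl | ⟨j, -, hx⟩
    · exact one_cls ha hK
    · obtain ⟨S, -, rfl⟩ := (hBmem j x).1 hx
      exact hN1 j S
  have hBcard : ∀ j, (B j).card = 2 ^ n - 1 := by
    intro j
    rw [hB]
    show (((univ : Finset (Finset (Fin n))).erase ∅).image (N j)).card = 2 ^ n - 1
    rw [Finset.card_image_of_injective _ (hN2 j), Finset.card_erase_of_mem (Finset.mem_univ _),
      Finset.card_univ, Fintype.card_finset, Fintype.card_fin]
  have hBdis : ∀ j j', j ≠ j' → Disjoint (B j) (B j') := by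
    intro j j' hjj
    rw [Finset.disjoint_left]
    intro x hx hx'
    obtain ⟨S, hS, h1⟩ := (hBmem j x).1 hx
    obtain ⟨S', hS', h2⟩ := (hBmem j' x).1 hx'
    apply hdis j j' hjj S S' hS
    refine ⟨((x * c j S * c j' S' : 𝓞 K) : K), ?_⟩
    have h3 := hcc j S
    have h4 := hcc j' S'
    rw [h1] at h3
    rw [h2] at h4
    have h5 : (∏ i ∈ S, d j i) * (∏ i ∈ S', d j' i) =
        (x * c j S * c j' S') * (x * c j S * c j' S') := by
      rw [h3, h4]
      ring
    have h6 := congrArg (fun z : 𝓞 K => (z : K)) h5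
    push_cast at h6
    push_cast
    exact h6
  have h1B : ∀ j, (1 : 𝓞 K) ∉ B j := by
    intro j h
    obtain ⟨S, hS, h1⟩ := (hBmem j 1).1 h
    rw [← hN3 j] at h1
    exact hS.ne_empty (hN2 j h1)
  have hcardV : ∀ V : Finset J, (insert (1 : 𝓞 K) (V.biUnion B)).card = 1 + V.card * (2 ^ n - 1) := by
    intro V
    rw [Finset.card_insert_of_notMem (by
      rw [Finset.mem_biUnion]
      rintro ⟨j, -, h⟩
      exact h1B j h), Finset.card_biUnion (fun j _ j' _ h => hBdis j j' h),
      Finset.sum_congr rfl (fun j _ => hBcard j), Finset.sum_const, smul_eq_mul, add_comm]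
  -- the coprimality
  have hcop : ∀ D : 𝓞 K, (∀ x ∈ T, IsCoprime D x) ↔ ∀ j i, IsCoprime D (d j i) := by
    intro D
    constructor
    · intro h j i
      have h1 : N j {i} = d j i := by
        have h2 := hcc j {i}
        rw [Finset.prod_singleton] at h2
        exact (cls_unique ha hK (hd j i) (hN1 j {i}) one_ne_zero (hcc0 j {i})
          (by rw [one_pow, mul_one]; exact h2)).symm
      rw [← h1]
      refine h _ ?_
      rw [hTd, Finset.mem_insert, Finset.mem_biUnion]
      exact Or.inr ⟨j, Finset.mem_univ _, (hBmem j _).2 ⟨{i}, Finset.singleton_nonempty i, rfl⟩⟩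
    · intro h x hx
      rw [hTd, Finset.mem_insert, Finset.mem_biUnion] at hx
      rcases hx with rfl | ⟨j, -, hx⟩
      · exact isCoprime_one_right
      · obtain ⟨S, -, rfl⟩ := (hBmem j x).1 hx
        exact (IsCoprime.prod_right fun i _ => h j i).of_isCoprime_of_dvd_right ⟨_, hcc j S⟩
  set P' : 𝓞 K → 𝓞 K → Prop := fun N D =>
    NoSelmer (MultiquadraticX49.curve ((D * N : 𝓞 K) : K)) with hP'
  set P : J → 𝓞 K → Prop := fun j D => ∀ x ∈ B j, P' x D with hP
  have hfam : ∀ X, base a d X = {D ∈ famT a T X | P' 1 D} := by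
    intro X
    ext D
    unfold base famT
    simp only [Set.mem_ofPred_eq]
    rw [hcop D]
    have h1 : P' 1 D ↔ NoSelmer (MultiquadraticX49.curve (D : K)) := by
      rw [hP']
      simp only [mul_one]
    rw [h1]
    exact ⟨fun ⟨h1, h2, h3, h4⟩ => ⟨⟨h1, h2, h3⟩, h4⟩, fun ⟨⟨h1, h2, h3⟩, h4⟩ => ⟨h1, h2, h3, h4⟩⟩
  have hfin0 := fin_famT ha hK T
  have hfin : ∀ X, (base a d X).Finite := by
    intro X
    rw [hfam X]
    exact (hfin0 X).subset fun _ h => h.1
  have hI := indNS ha hK hT
  have hInd : Prob.Ind (base a d) P (MultiquadraticX49.c2 ^ (2 ^ n - 1)) (univ : Finset J) := by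
    intro V _
    have hVT : insert (1 : 𝓞 K) (V.biUnion B) ⊆ T :=
      Finset.insert_subset_insert _ (Finset.biUnion_subset_biUnion_of_subset_left _
        (Finset.subset_univ V))
    have q1 := hI _ hVT
    have q2 := hI {1} (by
      rw [Finset.singleton_subset_iff, hTd]
      exact Finset.mem_insert_self _ _)
    rw [hcardV V] at q1
    rw [Finset.card_singleton, pow_one] at q2
    have q := q1.div q2 hc0'.ne'
    have e0 : MultiquadraticX49.c2 ^ (1 + V.card * (2 ^ n - 1)) / MultiquadraticX49.c2 =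
        (MultiquadraticX49.c2 ^ (2 ^ n - 1)) ^ V.card := by
      rw [pow_add, pow_one, mul_div_cancel_left₀ _ hc0'.ne', ← pow_mul, mul_comm]
    rw [e0] at q
    refine q.congr fun X => ?_
    have e1 : {D ∈ famT a T X | ∀ x ∈ insert (1 : 𝓞 K) (V.biUnion B), P' x D} =
        {D ∈ base a d X | ∀ j ∈ V, P j D} := by
      rw [hfam X]
      ext D
      simp only [Set.mem_ofPred_eq, Finset.forall_mem_insert, Finset.mem_biUnion]
      constructor
      · rintro ⟨g1, g2, g3⟩
        exact ⟨⟨g1, g2⟩, fun j hj x hx => g3 x ⟨j, hj, hx⟩⟩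
      · rintro ⟨⟨g1, g2⟩, g3⟩
        refine ⟨g1, g2, ?_⟩
        rintro x ⟨j, hj, hx⟩
        exact g3 j hj x hx
    have e2 : {D ∈ famT a T X | ∀ x ∈ ({1} : Finset (𝓞 K)), P' x D} = base a d X := by
      rw [hfam X]
      ext D
      simp only [Set.mem_ofPred_eq, Finset.mem_singleton, forall_eq]
    unfold Prob.g
    show (({D ∈ famT a T X | ∀ x ∈ insert (1 : 𝓞 K) (V.biUnion B), P' x D}.ncard : ℝ) /
      ((famT a T X).ncard : ℝ)) / (({D ∈ famT a T X | ∀ x ∈ ({1} : Finset (𝓞 K)), P' x D}.ncard : ℝ) /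
      ((famT a T X).ncard : ℝ)) = ({D ∈ base a d X | ∀ j ∈ V, P j D}.ncard : ℝ) /
      ((base a d X).ncard : ℝ)
    rw [e1, e2]
    by_cases h0 : ((famT a T X).ncard : ℝ) = 0
    · have h1 : ({D ∈ base a d X | ∀ j ∈ V, P j D}.ncard : ℝ) = 0 := by
        have h2 : {D ∈ base a d X | ∀ j ∈ V, P j D} ⊆ famT a T X := by
          intro D hD
          have h3 := hD.1
          rw [hfam X] at h3
          exact h3.1
        have h4 := Set.ncard_le_ncard h2 (hfin0 X)
        have h5 : (famT a T X).ncard = 0 := by exact_mod_cast h0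
        rw [h5] at h4
        exact_mod_cast Nat.le_zero.1 h4
      rw [h1, zero_div, zero_div, zero_div]
    · rw [div_div_div_cancel_right₀ h0]
  have hL := Prob.lln hfin hInd hε (by rw [Finset.card_univ]; exact hr)
  rw [Finset.card_univ] at hL
  filter_upwards [hL] with X hX
  refine le_trans ?_ hX
  have hsub : {D ∈ base a d X | (((univ : Finset J).filter fun j => OverExtensions (d j) D).card : ℝ) <
        (MultiquadraticX49.c2 ^ (2 ^ n - 1) - ε) * Fintype.card J} ⊆
      {D ∈ base a d X | ε * (Fintype.card J : ℝ) <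
        |(((univ : Finset J).filter fun j => P j D).card : ℝ) -
          MultiquadraticX49.c2 ^ (2 ^ n - 1) * (Fintype.card J : ℝ)|} := by
    rintro D ⟨hD, h1⟩
    refine ⟨hD, ?_⟩
    have hDB := hD
    rw [hfam X] at hDB
    have hle : ((univ : Finset J).filter fun j => P j D).card ≤
        ((univ : Finset J).filter fun j => OverExtensions (d j) D).card := by
      refine Finset.card_le_card fun j hj => ?_
      rw [Finset.mem_filter] at hj ⊢
      refine ⟨hj.1, ?_⟩
      have h2 := over_of ha hK (hd j) (hind j) (one_cls ha hK) (fun _ => isCoprime_one_left)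
        hD.2.1 isCoprime_one_right (fun i => hD.2.2.1 j i) (fun S N' c' hN' hc' h' => by
          have h3 : N' = N j S := by
            refine cls_unique ha hK hN' (hN1 j S) hc' (hcc0 j S) ?_
            rw [← h', one_mul, hcc j S]
          rw [h3]
          rcases Finset.eq_empty_or_nonempty S with rfl | hS
          · rw [hN3 j]
            exact hDB.2
          · exact hj.2 _ ((hBmem j _).2 ⟨S, hS, rfl⟩))
      rwa [one_mul] at h2
    have hle' : (((univ : Finset J).filter fun j => P j D).card : ℝ) ≤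
        (((univ : Finset J).filter fun j => OverExtensions (d j) D).card : ℝ) := by
      exact_mod_cast hle
    rw [abs_sub_comm]
    refine lt_of_lt_of_le ?_ (le_abs_self _)
    nlinarith
  refine Nat.cast_le.2 ((Set.ncard_le_ncard hsub ((hfin X).subset fun _ h => h.1)).trans
    (le_of_eq ?_))
  congr!

end Pool.Agent.R426.QM
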