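import Pool.Agent.R426.QM.Top

/-!
# Project QM: the `L`-series over the number fields
-/

set_option autoImplicit false

open scoped Classical

namespace Pool.Agent.R426.QM

open NumberField IsDedekindDomain Filter Topology
open Pool.Agent.Y698 Pool.Agent.Y698.SG
open Pool.Agent.R426.QC
open Pool.Agent.W189.NF (aV eV aLoc eLoc Ov redMap redMap_surjective redMap_eq_zero card_res
  finite_res)
open Pool.Agent.H921R2.TatePole (nm two_le_nm)
open Pool.Agent.Y715.Z (isUnit_of_notMem')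

variable {L : Type} [Field L] [NumberField L]

/-- the local Euler polynomial -/
noncomputable def Pv (E : WeierstrassCurve L) (v : HeightOneSpectrum (𝓞 L)) (s : ℂ) : ℂ :=
  1 - (aV E v : ℂ) * (nm v : ℂ) ^ (-s) + (eV E v : ℂ) * ((nm v : ℂ) ^ (-s)) ^ 2

lemma nm_ne (v : HeightOneSpectrum (𝓞 L)) : ((nm v : ℕ) : ℂ) ≠ 0 := by
  have := two_le_nm v
  exact Nat.cast_ne_zero.2 (by omega)

lemma Pv_diff (E : WeierstrassCurve L) (v : HeightOneSpectrum (𝓞 L)) :
    Differentiable ℂ (Pv E v) := by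
  have h1 : Differentiable ℂ fun s : ℂ => ((nm v : ℕ) : ℂ) ^ (-s) := by
    intro s
    exact (differentiableAt_id.neg).const_cpow (Or.inl (nm_ne v))
  exact ((differentiable_const _).sub ((differentiable_const _).mul h1)).add
    ((differentiable_const _).mul (h1.pow 2))

/-- the local factor at one is not zero -/
lemma Pv_one (E : WeierstrassCurve L) (v : HeightOneSpectrum (𝓞 L)) : Pv E v 1 ≠ 0 := by
  have hfin := finite_res v
  have hq := two_le_nm v
  have hq0 := nm_ne v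
  have hcard := card_res v
  have hpow : ((nm v : ℕ) : ℂ) ^ (-(1 : ℂ)) = (((nm v : ℕ) : ℂ))⁻¹ := by
    rw [Complex.cpow_neg, Complex.cpow_one]
  unfold Pv
  rw [hpow]
  have key : ((nm v : ℤ) ^ 2 - aV E v * nm v + eV E v : ℤ) ≠ 0 := by
    unfold aV eV aLoc eLoc
    rw [hcard]
    have hqz : (2 : ℤ) ≤ (nm v : ℤ) := by exact_mod_cast hq
    split_ifs
    · obtain ⟨h1, -⟩ := Pool.Agent.W189.NF.point_card
        (((E.baseChange (v.adicCompletion L)).minimal (v.adicCompletionIntegers L)).reduction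
          (v.adicCompletionIntegers L))
      have h1' : (1 : ℤ) ≤ (Nat.card (((E.baseChange (v.adicCompletion L)).minimal
          (v.adicCompletionIntegers L)).reduction
          (v.adicCompletionIntegers L)).toAffine.Point : ℤ) := by exact_mod_cast h1
      set P : ℤ := (Nat.card (((E.baseChange (v.adicCompletion L)).minimal
          (v.adicCompletionIntegers L)).reduction
          (v.adicCompletionIntegers L)).toAffine.Point : ℤ) with hP
      have h3 : (nm v : ℤ) ^ 2 - ((nm v : ℤ) + 1 - P) * nm v + nm v = nm v * P := by ring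
      rw [h3]
      have : 0 < (nm v : ℤ) * P := by positivity
      exact this.ne'
    · have : 0 < (nm v : ℤ) ^ 2 - 1 * nm v + 0 := by nlinarith
      exact this.ne'
    · have : 0 < (nm v : ℤ) ^ 2 - (-1) * nm v + 0 := by nlinarith
      exact this.ne'
    · have : 0 < (nm v : ℤ) ^ 2 - 0 * nm v + 0 := by nlinarith
      exact this.ne'
  intro h
  apply key
  have h2 : (((nm v : ℤ) ^ 2 - aV E v * nm v + eV E v : ℤ) : ℂ) = 0 := by
    push_cast
    have h3 : ((nm v : ℕ) : ℂ) ^ 2 * (1 - (aV E v : ℂ) * (((nm v : ℕ) : ℂ))⁻¹ +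
        (eV E v : ℂ) * ((((nm v : ℕ) : ℂ))⁻¹) ^ 2) = 0 := by rw [h, mul_zero]
    rw [← h3]
    field_simp
  exact_mod_cast h2

lemma EX_intL (v : HeightOneSpectrum (𝓞 L)) (J : 𝓞 L) :
    (EX L (J : L)).baseChange (v.adicCompletion L) =
      (EX (v.adicCompletionIntegers L)
        (algebraMap (𝓞 L) (v.adicCompletionIntegers L) J)).baseChange (v.adicCompletion L) := by
  show (EX L (J : L)).map _ = (EX _ _).map _
  rw [EX_map, EX_map]
  congr 1

/-- the local factors at the places prime to `14 D` -/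
theorem locL {D J : 𝓞 L} (hJ : D = 1 + 4 * J) (v : HeightOneSpectrum (𝓞 L))
    (h14 : 14 * D ∉ v.asIdeal) :
    aV (EX L (J : L)) v = aw D v ∧ eV (EX L (J : L)) v = (Nat.card (𝓞 L ⧸ v.asIdeal) : ℤ) := by
  have hfin := finite_res v
  have hunit : IsUnit (EX (Ov v) (algebraMap (𝓞 L) (Ov v) J)).Δ := by
    have h0 : (-343) * D ^ 6 ∉ v.asIdeal := by
      intro h
      apply h14
      have h343 : ((7 : 𝓞 L) * D) ^ 6 ∈ v.asIdeal := by
        have h1 := v.asIdeal.mul_mem_left (-343) h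
        have h2 : (-343 : 𝓞 L) * ((-343) * D ^ 6) = (7 * D) ^ 6 := by ring
        rwa [h2] at h1
      have h2 := v.isPrime.mem_of_pow_mem 6 h343
      have h3 := v.asIdeal.mul_mem_left 2 h2
      have h4 : (2 : 𝓞 L) * (7 * D) = 14 * D := by ring
      rwa [h4] at h3
    have h3 := isUnit_of_notMem' h0
    have e1 : (EX (Ov v) (algebraMap (𝓞 L) (Ov v) J)).Δ =
        algebraMap (𝓞 L) (Ov v) ((-343) * D ^ 6) := by
      rw [EX_Δ, hJ]
      simp only [map_mul, map_pow, map_neg, map_add, map_one, map_ofNat]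
    rw [e1]
    exact h3
  obtain ⟨c1, c2⟩ := min_count (v.adicCompletionIntegers L) hunit
    (W := (EX L (J : L)).baseChange (v.adicCompletion L)) (EX_intL v J)
  rw [EX_map] at c1
  have hker : RingHom.ker (redMap v) = v.asIdeal := by
    ext r
    rw [RingHom.mem_ker]
    exact redMap_eq_zero v r
  have hcard : Nat.card (IsLocalRing.ResidueField (Ov v)) = Nat.card (𝓞 L ⧸ v.asIdeal) := by
    rw [card_res]
    rfl
  have h2 : (2 : IsLocalRing.ResidueField (Ov v)) ≠ 0 := by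
    intro h
    have h1 : redMap v 2 = 0 := by rw [map_ofNat]; exact h
    rw [redMap_eq_zero] at h1
    apply h14
    have h3 := v.asIdeal.mul_mem_left (7 * D) h1
    have h4 : (7 * D : 𝓞 L) * 2 = 14 * D := by ring
    rwa [h4] at h3
  have hcount := card_AP_EX' (IsLocalRing.ResidueField (Ov v)) h2 (redMap v J)
  have φ : ∃ φ : 𝓞 L ⧸ v.asIdeal ≃+* IsLocalRing.ResidueField (Ov v),
      ∀ x, φ (Ideal.Quotient.mk v.asIdeal x) = redMap v x := by
    rw [← hker]
    exact ⟨RingHom.quotientKerEquivOfSurjective (redMap_surjective v), fun x => rfl⟩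
  obtain ⟨φ, hφ⟩ := φ
  have hD : 1 + 4 * redMap v J = φ (Ideal.Quotient.mk v.asIdeal D) := by
    rw [hφ, hJ, map_add, map_mul, map_one, map_ofNat]
  have htr : Nat.card {p : (𝓞 L ⧸ v.asIdeal) × (𝓞 L ⧸ v.asIdeal) //
      p.2 ^ 2 = p.1 ^ 3 - 35 * (Ideal.Quotient.mk v.asIdeal D) ^ 2 * p.1 -
      98 * (Ideal.Quotient.mk v.asIdeal D) ^ 3} =
      Nat.card {x : IsLocalRing.ResidueField (Ov v) × IsLocalRing.ResidueField (Ov v) //
      x.2 ^ 2 = x.1 ^ 3 + (-35) * (1 + 4 * redMap v J) ^ 2 * x.1 +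
        (-98) * (1 + 4 * redMap v J) ^ 3} := by
    refine Nat.card_congr (Equiv.subtypeEquiv (Equiv.prodCongr φ.toEquiv φ.toEquiv) fun p => ?_)
    show _ ↔ (φ p.2) ^ 2 = (φ p.1) ^ 3 + (-35) * (1 + 4 * redMap v J) ^ 2 * (φ p.1) +
        (-98) * (1 + 4 * redMap v J) ^ 3
    rw [hD]
    have e1 : φ (p.1 ^ 3 - 35 * (Ideal.Quotient.mk v.asIdeal D) ^ 2 * p.1 -
      98 * (Ideal.Quotient.mk v.asIdeal D) ^ 3) = (φ p.1) ^ 3 + (-35) *
        (φ (Ideal.Quotient.mk v.asIdeal D)) ^ 2 * (φ p.1) +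
        (-98) * (φ (Ideal.Quotient.mk v.asIdeal D)) ^ 3 := by
      simp only [map_sub, map_mul, map_pow, map_ofNat]
      ring
    rw [← e1, ← map_pow φ]
    exact φ.injective.eq_iff.symm
  constructor
  · unfold aw
    rw [htr, ← hcount, ← hcard]
    exact c1
  · rw [← hcard]
    exact c2

/-- `crv` and `EX` -/
lemma crv_EX {D J : 𝓞 L} (hJ : D = 1 + 4 * J) : crv (D : L) = EX L (J : L) := by
  have hDj : (D : L) = 1 + 4 * (J : L) := by
    have h := congrArg (algebraMap (𝓞 L) L) hJ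
    rwa [map_add, map_mul, map_one, map_ofNat] at h
  unfold crv EX
  rw [hDj]
  congr 1
  field_simp
  ring

/-- the continuation of the `L`-series -/
theorem contL {D M J : 𝓞 L} (hJ : D = 1 + 4 * J) (hM : M ≠ 0) (hDM : 14 * D ∣ M) {F : ℂ → ℂ}
    (hF : IsF D M F) : ∃ G : ℂ → ℂ, (∀ s, MeromorphicAt G s) ∧ (∀ s : ℂ, 2 < s.re →
      LSeriesSummable ((fun n : ℤ => (n : ℂ)) ∘ (crv (D : L)).LFunction) s ∧
      G s = (crv (D : L)).LSeries s) ∧ AnalyticAt ℂ G 1 ∧ G 1 ≠ 0 ∧
      ∃ Bs : Finset (HeightOneSpectrum (𝓞 L)), (∀ v, v ∈ Bs ↔ M ∈ v.asIdeal) ∧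
        ∀ s, G s = F s / ∏ v ∈ Bs, Pv (crv (D : L)) v s := by
  obtain ⟨hF1, hF2, hF3⟩ := hF
  rw [crv_EX hJ]
  set E : WeierstrassCurve L := EX L (J : L) with hE
  have hfin : {v : HeightOneSpectrum (𝓞 L) | M ∈ v.asIdeal}.Finite := by
    have h1 : {v : HeightOneSpectrum (𝓞 L) | M ∈ v.asIdeal} ⊆
        {v | v.asIdeal ∣ Ideal.span {M}} := by
      intro v hv
      show v.asIdeal ∣ Ideal.span {M}
      rw [Ideal.dvd_span_singleton]
      exact hv
    refine (Ideal.finite_factors ?_).subset h1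
    rw [Ne, Ideal.zero_eq_bot, Ideal.span_singleton_eq_bot]
    exact hM
  obtain ⟨Bs, hBs⟩ : ∃ Bs : Finset (HeightOneSpectrum (𝓞 L)), ∀ v, v ∈ Bs ↔ M ∈ v.asIdeal :=
    ⟨hfin.toFinset, fun v => by rw [Set.Finite.mem_toFinset]; rfl⟩
  have hPd : Differentiable ℂ fun s => ∏ v ∈ Bs, Pv E v s :=
    Differentiable.fun_finsetProd fun v _ => Pv_diff E v
  have hP1 : ∏ v ∈ Bs, Pv E v 1 ≠ 0 := Finset.prod_ne_zero_iff.2 fun v _ => Pv_one E v
  refine ⟨fun s => F s / ∏ v ∈ Bs, Pv E v s, fun s =>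
    ((hF1.analyticAt s).meromorphicAt).div (hPd.analyticAt s).meromorphicAt, fun s hs => ?_,
    (hF1.analyticAt 1).div (hPd.analyticAt 1) hP1, div_ne_zero hF2 hP1, Bs, hBs, fun s => rfl⟩
  obtain ⟨g1, g2⟩ := Pool.Agent.W189.NF.LSeries_hasProd E hs
  refine ⟨g1, ?_⟩
  have h3 := hF3 s (by linarith)
  have h4 : HasProd (fun v => if v ∈ Bs then (Pv E v s)⁻¹ else 1) (∏ v ∈ Bs, (Pv E v s)⁻¹) := by
    have h5 : HasProd (fun v => if v ∈ Bs then (Pv E v s)⁻¹ else 1)
        (∏ v ∈ Bs, if v ∈ Bs then (Pv E v s)⁻¹ else 1) :=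
      hasProd_prod_of_ne_finset_one (fun v hv => if_neg hv)
    rwa [Finset.prod_congr rfl fun v hv => if_pos hv] at h5
  have h6 := h3.mul h4
  have h7 : (fun v : HeightOneSpectrum (𝓞 L) => (if M ∈ v.asIdeal then 1 else eul D s v) *
      (if v ∈ Bs then (Pv E v s)⁻¹ else 1)) = fun v => (Pv E v s)⁻¹ := by
    funext v
    by_cases hv : M ∈ v.asIdeal
    · rw [if_pos hv, if_pos ((hBs v).2 hv), one_mul]
    · rw [if_neg hv, if_neg (fun h => hv ((hBs v).1 h)), mul_one]
      have h14 : 14 * D ∉ v.asIdeal := by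
        intro h
        obtain ⟨c, hc⟩ := hDM
        apply hv
        rw [hc]
        exact v.asIdeal.mul_mem_right c h
      obtain ⟨q1, q2⟩ := locL hJ v h14
      have hn : Nat.card (𝓞 L ⧸ v.asIdeal) = nm v := rfl
      unfold eul Pv
      rw [q1, q2, hn, Int.cast_natCast]
      congr 2
      have hq0 := nm_ne v
      rw [show (1 : ℂ) - 2 * s = 1 + (-s + -s) by ring, Complex.cpow_add _ _ hq0,
        Complex.cpow_add _ _ hq0, Complex.cpow_one]
      ring
  rw [h7] at h6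
  have h8 := h6.unique g2
  show F s / ∏ v ∈ Bs, Pv E v s = _
  rw [← h8, Finset.prod_inv_distrib, div_eq_mul_inv]

/-- two meromorphic continuations have the same order at one -/
theorem ord_unique {F G : ℂ → ℂ} (hF : ∀ s, MeromorphicAt F s) (hG : ∀ s, MeromorphicAt G s)
    (h : ∀ s : ℂ, 2 < s.re → F s = G s) : meromorphicOrderAt F 1 = meromorphicOrderAt G 1 := by
  have hH : MeromorphicOn (F - G) Set.univ := fun s _ => (hF s).sub (hG s)
  by_cases ht : meromorphicOrderAt (F - G) 1 = ⊤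
  · apply meromorphicOrderAt_congr
    rw [meromorphicOrderAt_eq_top_iff] at ht
    filter_upwards [ht] with z hz
    exact sub_eq_zero.1 hz
  · exfalso
    have h3 := hH.meromorphicOrderAt_ne_top_of_isPreconnected (x := 1) (y := 3)
      isPreconnected_univ (Set.mem_univ _) (Set.mem_univ _) ht
    apply h3
    rw [meromorphicOrderAt_eq_top_iff]
    have h4 : {s : ℂ | 2 < s.re} ∈ 𝓝 (3 : ℂ) :=
      (isOpen_lt continuous_const Complex.continuous_re).mem_nhds (by norm_num)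
    filter_upwards [nhdsWithin_le_nhds h4] with z hz
    exact sub_eq_zero.2 (h z hz)

/-- the order is zero -/
theorem ord_zero {G : ℂ → ℂ} (h1 : AnalyticAt ℂ G 1) (h2 : G 1 ≠ 0) :
    meromorphicOrderAt G 1 = 0 := by
  rw [h1.meromorphicOrderAt_eq, h1.analyticOrderAt_eq_zero.2 h2]
  rfl

end Pool.Agent.R426.QM
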