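import Pool.Agent.R426.QM.Lf
import Pool.Agent.Y697.MQ.Kum

/-!
# Project QM: the `L`-series over the number fields, II; the degree
-/

set_option autoImplicit false

open scoped Classical

namespace Pool.Agent.R426.QM

open NumberField IsDedekindDomain Filter Topology
open Pool.Agent.Y698 Pool.Agent.Y698.SG
open Pool.Agent.R426.QC
open Pool.Agent.W189.NF (aV eV aLoc eLoc Ov redMap redMap_surjective redMap_eq_zero card_res
  finite_res)
open Pool.Agent.H921R2.TatePole (nm two_le_nm)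

variable {L : Type} [Field L] [NumberField L]

/-- Mathlib's Euler polynomial, at `q_v ^ (-s)` -/
noncomputable def PL (E : WeierstrassCurve L) (v : HeightOneSpectrum (𝓞 L)) (s : ℂ) : ℂ :=
  (((E.baseChange (v.adicCompletion L)).localPolynomial (v.adicCompletionIntegers L)).map
    (Int.castRingHom ℂ)).eval ((Ideal.absNorm v.asIdeal : ℂ) ^ (-s))

lemma PL_eq (E : WeierstrassCurve L) (v : HeightOneSpectrum (𝓞 L)) (s : ℂ) :
    PL E v s = Pv E v s := by
  unfold PL Pv
  rw [Pool.Agent.W189.NF.localPolynomial_eq]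
  have h : (nm v : ℂ) = ((Ideal.absNorm v.asIdeal : ℕ) : ℂ) := rfl
  rw [h]
  simp only [Polynomial.map_add, Polynomial.map_sub, Polynomial.map_one, Polynomial.map_mul,
    Polynomial.map_pow, Polynomial.map_X, Polynomial.map_C, Polynomial.eval_add,
    Polynomial.eval_sub, Polynomial.eval_one, Polynomial.eval_mul, Polynomial.eval_C,
    Polynomial.eval_X, Polynomial.eval_pow]
  rfl

/-- the local factor on the right of two -/
lemma Pv_two (E : WeierstrassCurve L) (v : HeightOneSpectrum (𝓞 L)) {s : ℂ} (hs : 2 < s.re) :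
    Pv E v s ≠ 0 := by
  have hq := two_le_nm v
  have hq0 : (0 : ℝ) < nm v := by exact_mod_cast (by omega : 0 < nm v)
  have hq2 : (2 : ℝ) ≤ nm v := by exact_mod_cast hq
  have hn : ‖((nm v : ℕ) : ℂ) ^ (-s)‖ = (nm v : ℝ) ^ (-s.re) := by
    have := Complex.norm_natCast_cpow_of_pos (n := nm v) (by omega) (-s)
    rw [Complex.neg_re] at this
    exact this
  have h1 : (nm v : ℝ) ^ (-s.re) ≤ ((nm v : ℝ) ^ 2)⁻¹ := by
    rw [← Real.rpow_natCast, ← Real.rpow_neg hq0.le]
    exact Real.rpow_le_rpow_of_exponent_le (by linarith) (by push_cast; linarith)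
  have ha : |((aV E v : ℤ) : ℝ)| ≤ nm v := by
    have := Pool.Agent.W189.NF.aV_le E v
    exact_mod_cast this
  have he : |((eV E v : ℤ) : ℝ)| ≤ nm v := by
    have := Pool.Agent.W189.NF.eV_le E v
    exact_mod_cast this
  intro h
  unfold Pv at h
  have h2 : (1 : ℂ) = (aV E v : ℂ) * (nm v : ℂ) ^ (-s) - (eV E v : ℂ) * ((nm v : ℂ) ^ (-s)) ^ 2 := by
    linear_combination h
  have h3 := congrArg norm h2
  rw [norm_one] at h3
  have h4 : ‖(aV E v : ℂ) * (nm v : ℂ) ^ (-s) - (eV E v : ℂ) * ((nm v : ℂ) ^ (-s)) ^ 2‖ ≤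
      |((aV E v : ℤ) : ℝ)| * (nm v : ℝ) ^ (-s.re) +
        |((eV E v : ℤ) : ℝ)| * ((nm v : ℝ) ^ (-s.re)) ^ 2 := by
    refine (norm_sub_le _ _).trans ?_
    rw [norm_mul, norm_mul, norm_pow, hn, Complex.norm_intCast, Complex.norm_intCast]
  have h5 : (0 : ℝ) ≤ (nm v : ℝ) ^ (-s.re) := Real.rpow_nonneg hq0.le _
  have h6 : |((aV E v : ℤ) : ℝ)| * (nm v : ℝ) ^ (-s.re) ≤ nm v * ((nm v : ℝ) ^ 2)⁻¹ :=
    mul_le_mul ha h1 h5 hq0.le
  have h7 : |((eV E v : ℤ) : ℝ)| * ((nm v : ℝ) ^ (-s.re)) ^ 2 ≤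
      nm v * (((nm v : ℝ) ^ 2)⁻¹) ^ 2 :=
    mul_le_mul he (pow_le_pow_left₀ h5 h1 2) (by positivity) hq0.le
  have h8 : (nm v : ℝ) * ((nm v : ℝ) ^ 2)⁻¹ = (nm v : ℝ)⁻¹ := by field_simp
  have h9 : (nm v : ℝ) * (((nm v : ℝ) ^ 2)⁻¹) ^ 2 = ((nm v : ℝ)⁻¹) ^ 3 := by field_simp
  have h10 : (nm v : ℝ)⁻¹ ≤ 1 / 2 := by
    rw [one_div]
    exact inv_anti₀ (by norm_num) hq2
  have h11 : ((nm v : ℝ)⁻¹) ^ 3 ≤ (1 / 2) ^ 3 := pow_le_pow_left₀ (by positivity) h10 3
  rw [h8] at h6
  rw [h9] at h7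
  have h12 : ((1 : ℝ) / 2) ^ 3 = 1 / 8 := by norm_num
  rw [h12] at h11
  linarith

/-- **the `L`-series of the twist over `L`** -/
theorem fullL {D M J : 𝓞 L} (hJ : D = 1 + 4 * J) (hM : M ≠ 0) (hDM : 14 * D ∣ M) {F : ℂ → ℂ}
    (hF : IsF D M F) :
    (∃ G : ℂ → ℂ, (∀ s, MeromorphicAt G s) ∧ ∀ s : ℂ, 2 < s.re →
      LSeriesSummable ((fun n : ℤ => (n : ℂ)) ∘ (crv (D : L)).LFunction) s ∧
      G s = (crv (D : L)).LSeries s) ∧
    (∀ G : ℂ → ℂ, (∀ s, MeromorphicAt G s) → (∀ s : ℂ, 2 < s.re →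
      G s = (crv (D : L)).LSeries s) → meromorphicOrderAt G 1 = 0) ∧
    ∃ S : Finset (HeightOneSpectrum (𝓞 L)), (∀ v, v ∈ S ↔ M ∈ v.asIdeal) ∧
      ∀ s : ℂ, 2 < s.re → F s = (crv (D : L)).LSeries s * ∏ v ∈ S, PL (crv (D : L)) v s := by
  obtain ⟨G, hG1, hG2, hG3, hG4, S, hS1, hS2⟩ := contL hJ hM hDM hF
  refine ⟨⟨G, hG1, hG2⟩, fun G' h1 h2 => ?_, ?_⟩
  · rw [ord_unique h1 hG1 fun s hs => by rw [h2 s hs, (hG2 s hs).2]]
    exact ord_zero hG3 hG4
  · refine ⟨S, hS1, fun s hs => ?_⟩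
    have h0 : ∏ v ∈ S, Pv (crv (D : L)) v s ≠ 0 :=
      Finset.prod_ne_zero_iff.2 fun v _ => Pv_two _ v hs
    rw [← (hG2 s hs).2, hS2 s, Finset.prod_congr rfl fun v _ => PL_eq (crv (D : L)) v s,
      div_mul_cancel₀ _ h0]

/-- the multiquadratic extensions are Galois -/
theorem gal {K : Type} [Field K] [NumberField K] [Algebra K L] {n : ℕ} (d : Fin n → K)
    (x : Fin n → L) (hx : ∀ i, x i ^ 2 = algebraMap K L (d i))
    (hL : IntermediateField.adjoin K (Set.range x) = ⊤) : IsGalois K L ∧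
    ∀ σ : L ≃ₐ[K] L, (∀ i, σ (x i) = x i) → σ = 1 := by
  have hfd : FiniteDimensional K L := by
    have : IsScalarTower ℚ K L := IsScalarTower.of_algebraMap_eq' (RingHom.ext_rat _ _)
    exact FiniteDimensional.right ℚ K L
  refine ⟨?_, ?_⟩
  · set p : Polynomial K := ∏ i, (Polynomial.X ^ 2 - Polynomial.C (d i)) with hp
    have hfac : ∀ i, Polynomial.map (algebraMap K L)
        (Polynomial.X ^ 2 - Polynomial.C (d i)) =
        (Polynomial.X - Polynomial.C (x i)) * (Polynomial.X - Polynomial.C (-(x i))) := by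
      intro i
      rw [Polynomial.map_sub, Polynomial.map_pow, Polynomial.map_X, Polynomial.map_C, ← hx,
        Polynomial.C_neg, Polynomial.C_pow]
      ring
    have hp0 : p ≠ 0 := Finset.prod_ne_zero_iff.2 fun i _ => Polynomial.X_pow_sub_C_ne_zero
      (by norm_num) _
    have : Polynomial.IsSplittingField K L p := by
      rw [isSplittingField_iff_intermediateField]
      constructor
      · rw [hp, Polynomial.map_prod]
        apply Polynomial.Splits.prod
        intro i _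
        rw [hfac i]
        exact (Polynomial.Splits.X_sub_C _).mul (Polynomial.Splits.X_sub_C _)
      · rw [eq_top_iff, ← hL, IntermediateField.adjoin_le_iff]
        rintro _ ⟨i, rfl⟩
        apply IntermediateField.subset_adjoin
        rw [Polynomial.mem_rootSet]
        refine ⟨hp0, ?_⟩
        rw [hp, map_prod]
        apply Finset.prod_eq_zero (Finset.mem_univ i)
        rw [map_sub, map_pow, Polynomial.aeval_X, Polynomial.aeval_C, hx, sub_self]
    have : Normal K L := Normal.of_isSplittingField p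
    have : Algebra.IsSeparable K L := Algebra.IsAlgebraic.isSeparable_of_perfectField
    exact ⟨⟩
  · intro σ hσ
    have h1 : IntermediateField.adjoin K (Set.range x) ≤
        IntermediateField.fixedField (Subgroup.zpowers σ) := by
      rw [IntermediateField.adjoin_le_iff]
      rintro _ ⟨i, rfl⟩
      rw [SetLike.mem_coe, IntermediateField.mem_fixedField_iff]
      intro τ hτ
      obtain ⟨m, rfl⟩ := Subgroup.mem_zpowers_iff.1 hτ
      have h2 : σ ∈ MulAction.stabilizer (L ≃ₐ[K] L) (x i) := hσ i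
      exact (MulAction.stabilizer (L ≃ₐ[K] L) (x i)).zpow_mem h2 m
    rw [hL] at h1
    ext y
    have h2 : y ∈ IntermediateField.fixedField (Subgroup.zpowers σ) :=
      h1 IntermediateField.mem_top
    exact (IntermediateField.mem_fixedField_iff _ _).1 h2 σ (Subgroup.mem_zpowers σ)

/-- the degree -/
theorem deg {K : Type} [Field K] [NumberField K] [Algebra K L] {n : ℕ} (d : Fin n → K)
    (hd : ∀ i, d i ≠ 0) (hind : ∀ T : Finset (Fin n), T.Nonempty → ¬ IsSquare (∏ i ∈ T, d i))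
    (x : Fin n → L) (hx : ∀ i, x i ^ 2 = algebraMap K L (d i))
    (hL : IntermediateField.adjoin K (Set.range x) = ⊤) : Module.finrank K L = 2 ^ n := by
  obtain ⟨h1, h2⟩ := gal d x hx hL
  have hfd : FiniteDimensional K L := by
    have : IsScalarTower ℚ K L := IsScalarTower.of_algebraMap_eq' (RingHom.ext_rat _ _)
    exact FiniteDimensional.right ℚ K L
  have h3 := Pool.Agent.Y697.MQ.kummer_card x d hd hx two_ne_zero hind h2
  rw [Fintype.card_fin] at h3
  rw [← h3, IsGalois.card_aut_eq_finrank]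

end Pool.Agent.R426.QM
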