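import Pool.Agent.R426.QM.Stm
import Pool.Agent.R432.RB5

/-!
# Project QM (helper426): statement of QM-FS
-/

set_option autoImplicit false

namespace Pool.Agent.R426.QM

open NumberField
open Pool.Agent.TH841.NF.D (Sha)

/-- the same as `curve` in `Pool/Agent/Results/MP_e996df_nt/TwoPartTwistsX49.lean` -/
noncomputable def crv {K : Type} [Field K] (D : K) : WeierstrassCurve K :=
  ⟨1, -(3 * D + 1) / 4, 0, -2 * D ^ 2, -D ^ 3⟩

/-- QM-FS: rank and 2-primary part of `Ш` over multiquadratic extensions. Tools: `quad`, `triv_ext`,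
`kum4` (the analogous induction) in `Pool/Agent/R432/RB4.lean`, `RB5.lean`; change of variables
(`Pool.Agent.Y700.VR`, used in `Pool/Agent/R494/FG5.lean`, `GA.sha`); `crv D` is isomorphic to
`y² = x³ - 35 D² x - 98 D³` by `X = 4 x - D`, `Y = 4 (2 y + x)`; `S_FIN` for the points. -/
def S_FS : Prop := ∀ (k L : Type) [Field k] [NumberField k] [Field L] [NumberField L] [Algebra k L]
  (n : ℕ) (d : Fin n → k) (x : Fin n → L), (∀ i, d i ≠ 0) →
  (∀ i, x i ^ 2 = algebraMap k L (d i)) → IntermediateField.adjoin k (Set.range x) = ⊤ →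
  ∀ D : k, D ≠ 0 → (∀ T : Finset (Fin n), ∃ N c : k, c ≠ 0 ∧ D * ∏ i ∈ T, d i = N * c ^ 2 ∧
    Finite (crv N).toAffine.Point ∧ ∀ (j : ℕ) (y : Sha (crv N)), 2 ^ j • y = 0 → y = 0) →
  Finite (crv (algebraMap k L D)).toAffine.Point ∧
    ∀ (j : ℕ) (y : Sha (crv (algebraMap k L D))), 2 ^ j • y = 0 → 2 ^ n • y = 0

end Pool.Agent.R426.QM
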