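import Pool.Agent.R426.QM.FSc
import Pool.Agent.R426.QM.Stm2
import Pool.Agent.Y723.QT.Tf
import Pool.Agent.TH841.SH.Pw

/-!
# Project QM: finiteness of the 2-primary part of the Tate-Shafarevich groups
-/

set_option autoImplicit false

attribute [-instance] DivisionRing.toRatAlgebra

namespace Pool.Agent.R426.QM.ShF

open WeierstrassCurve NumberField
open Pool.Agent.TH841.NF.D (Sha)
open Pool.Agent.Y700 (VR)
open Pool.Agent.Y682 (wc)
open Pool.Agent.R426.QM.FS

variable {K : Type} [Field K] [NumberField K]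

theorem vrW (D : K) : VR (EE D) (wc (21 * D) (112 * D ^ 2)) 1 (7 * D) 0 0 := by
  refine ⟨one_ne_zero, ?_, ?_, ?_, ?_, ?_⟩ <;> simp only [EE, wc] <;> ring

theorem dW {D : K} (hD : D ≠ 0) : (wc (21 * D) (112 * D ^ 2)).Δ ≠ 0 := by
  have h := (vrW D).delta
  intro h0
  rw [h0, mul_zero] at h
  exact dE hD h

/-- the elements of order two -/
theorem two_fin {D : K} (hD : D ≠ 0) : Finite {x : Sha (crv D) // x + x = 0} := by
  have h3 := @Pool.Agent.Y723.QT.tf_wc K _ _ (21 * D) (112 * D ^ 2)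
    (mul_ne_zero (by norm_num) (pow_ne_zero 2 hD)) (by
      have : (21 * D) ^ 2 - 4 * (112 * D ^ 2) = -7 * D ^ 2 := by ring
      rw [this]
      exact mul_ne_zero (by norm_num) (pow_ne_zero 2 hD))
  have I := (Pool.Agent.Y655.XT.isoVR (vrW D) (dW hD)).sha
  have J : Sha (crv D) ≃+ Sha (EE D) := (Pool.Agent.Y655.XT.isoVR (vrC D) (dC hD)).sha
  refine Finite.of_injective (β := {x : Sha (wc (21 * D) (112 * D ^ 2)) // 2 • x = 0})
    (fun x => ⟨I.symm (J x.1), by
      rw [two_nsmul, ← map_add, ← map_add, x.2, map_zero, map_zero]⟩) ?_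
  intro x y h
  have h4 := congrArg Subtype.val h
  exact Subtype.ext (J.injective (I.symm.injective h4))

/-- **the 2-primary part is finite** -/
theorem sha_fin {D : K} (hD : D ≠ 0) {n : ℕ}
    (h : ∀ (j : ℕ) (y : Sha (crv D)), 2 ^ j • y = 0 → 2 ^ n • y = 0) :
    {y : Sha (crv D) | ∃ j : ℕ, 2 ^ j • y = 0}.Finite := by
  have h1 := (Pool.Agent.TH841.SH.card_tor (two_fin hD) n).1
  have h2 : {x : Sha (crv D) | (2 ^ n : ℕ) • x = 0}.Finite := Set.finite_coe_iff.1 h1
  exact h2.subset fun x ⟨k, hx⟩ => h k x hx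

end Pool.Agent.R426.QM.ShF
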