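import Pool.Agent.R426.QM.Stm
import Pool.Agent.R606.QM.Split0

/-!
# QM-SPLIT: splitting of primes in multiquadratic extensions of `ℚ(√-7)`

The proof is in `Pool/Agent/R606/QM/Split0.lean`.
-/

set_option autoImplicit false

namespace Pool.Agent.R426.QM.Split

open NumberField IsDedekindDomain
open Pool.Agent.Y698
open Pool.Agent.Y698.SG hiding PD
open Pool.Agent.R426.QK

theorem sy_one {z d : RR} (hd : ¬ z ∣ d) : sy z d = 1 ↔ Pool.Agent.R606.QM.lg z d = 1 := by
  rw [Pool.Agent.R606.QM.lg_one_iff]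
  unfold sy
  rw [if_neg (fun h => hd (Ideal.mem_span_singleton.1 h))]
  split_ifs with h
  · exact ⟨fun _ => h, fun _ => rfl⟩
  · constructor
    · intro h'
      norm_num at h'
    · intro h'
      exact absurd h' h

theorem fd_eq {z : RR} {s : Finset RR} (hs : ∀ d ∈ s, ¬ z ∣ d) :
    fd z s = Pool.Agent.R606.QM.fd2 z s := by
  unfold fd Pool.Agent.R606.QM.fd2
  have h : (∀ d ∈ s, sy z d = 1) ↔ ∀ d ∈ s, Pool.Agent.R606.QM.lg z d = 1 :=
    forall₂_congr fun d hd => sy_one (hs d hd)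
  by_cases h1 : ∀ d ∈ s, sy z d = 1
  · rw [if_pos h1, if_pos (h.1 h1)]
  · rw [if_neg h1, if_neg fun h2 => h1 (h.2 h2)]

theorem t_SPLIT : S_SPLIT := by
  intro L _ _ ι s r hg hi h0 z hz h2 hs
  have h := Pool.Agent.R606.QM.split_loc ι (s := s) (r := r) ⟨hg.sq, hg.gen⟩ hi h0 hz h2 hs
  rw [fd_eq hs]
  exact h

end Pool.Agent.R426.QM.Split
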