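import Pool.Agent.R426.QM.Dens
import Pool.Agent.R426.QM.KL
import Pool.Agent.R426.QM.Stm2

/-!
# Project QM: the statements over the number fields
-/

set_option autoImplicit false

open scoped Classical

namespace Pool.Agent.R426.QM

open NumberField IsDedekindDomain Filter
open Pool.Agent.Y698 Pool.Agent.Y698.SG
open Pool.Agent.R426.QC
open Pool.Agent.R426.QK (nrm ClsE nrm_cast)
open Pool.Agent.R426.QJ (S_DQJ S_LOWJ)
open Pool.Agent.Results.MP_e996df_nt.TwoPartTwistsX49 (TwoPart curve IsL criterion exists_e cls_e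
  sqf_e good_e)
open Pool.Agent.TH841.NF.D (Sha)

section

variable {K : Type} [Field K] [NumberField K]

/-- the class -/
def InCl (a D : 𝓞 K) : Prop := Squarefree D ∧ (4 : 𝓞 K) ∣ D - 1 ∧ ¬ (2 * a - 1) ∣ D

/-- the family -/
def fam (a : 𝓞 K) {n : ℕ} (d : Fin n → 𝓞 K) (X : ℕ) : Set (𝓞 K) :=
  {D | Ideal.absNorm (Ideal.span {D}) ≤ X ∧ InCl a D ∧ ∀ i, IsCoprime D (d i)}

/-- all the twists -/
def AllT (a : 𝓞 K) {n : ℕ} (d : Fin n → 𝓞 K) (D : 𝓞 K) : Prop :=
  ∀ (T : Finset (Fin n)) (N c : 𝓞 K), InCl a N → c ≠ 0 → D * ∏ i ∈ T, d i = N * c ^ 2 →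
    TwoPart (curve (N : K))

lemma indR_of (e : RR ≃+* 𝓞 K) {n : ℕ} {d : Fin n → 𝓞 K}
    (hind : ∀ T : Finset (Fin n), T.Nonempty → ¬ IsSquare (∏ i ∈ T, ((d i : 𝓞 K) : K))) :
    IndR (fun i => e.symm (d i)) := by
  intro T hT a b hb h
  apply hind T hT
  have h1 := congrArg (em e) h
  rw [map_mul, map_pow, map_pow, map_prod] at h1
  have h2 : ∏ i ∈ T, em e (e.symm (d i)) = ∏ i ∈ T, ((d i : 𝓞 K) : K) :=
    Finset.prod_congr rfl fun i _ => by
      rw [em_apply, e.apply_symm_apply]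
  rw [h2] at h1
  have hb' : em e b ≠ 0 := em_ne e hb
  refine ⟨em e a / em e b, ?_⟩
  field_simp
  linear_combination h1

lemma cop_e {K : Type} [Field K] (e : RR ≃+* 𝓞 K) (x : RR) (y : 𝓞 K) : IsCoprime (e x) y ↔ IsCoprime x (e.symm y) := by
  constructor
  · intro h
    have h1 := h.map (e.symm : 𝓞 K →+* RR)
    have h2 : (e.symm : 𝓞 K →+* RR) (e x) = x := e.symm_apply_apply x
    rw [h2] at h1
    exact h1
  · intro h
    have h1 := h.map (e : RR →+* 𝓞 K)
    have h2 : (e : RR →+* 𝓞 K) (e.symm y) = y := e.apply_symm_apply y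
    rw [h2] at h1
    exact h1

lemma all_e (e : RR ≃+* 𝓞 K) {a : 𝓞 K} (ha : a ^ 2 = a - 2) (hK : Module.finrank ℚ K = 2)
    (hea : e aR = a) (hef : e fR = 2 * a - 1) {n : ℕ} (d : Fin n → 𝓞 K) (x : RR) :
    AllT a d (e x) ↔ AllR (fun i => e.symm (d i)) x := by
  unfold AllT AllR
  constructor
  · intro h T N c hN hc h1
    have h2 := h T (e N) (e c) ((cls_e e hef N).2 hN) ((map_ne_zero_iff e e.injective).2 hc) (by
      have h3 := congrArg e h1
      rw [map_mul, map_mul, map_prod, map_pow] at h3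
      simp only [e.apply_symm_apply] at h3
      exact h3)
    exact ((good_e e ha hK hea hef N).1 ⟨(cls_e e hef N).2 hN, h2⟩).2
  · intro h T N c hN hc h1
    have hN' : ClsE (e.symm N) := (cls_e e hef _).1 (by rw [e.apply_symm_apply]; exact hN)
    have h2 := h T (e.symm N) (e.symm c) hN' ((map_ne_zero_iff e.symm e.symm.injective).2 hc) (by
      have h3 := congrArg e.symm h1
      rw [map_mul, map_mul, map_prod, map_pow, e.symm_apply_apply] at h3
      exact h3)
    have h4 := ((good_e e ha hK hea hef (e.symm N)).2 ⟨hN', h2⟩).2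
    rwa [e.apply_symm_apply] at h4

/-- the exact proportion -/
theorem densK (hJ : S_DQJ) (hCLS : S_CLS) (hMUL : S_MUL) {a : 𝓞 K} (ha : a ^ 2 = a - 2)
    (hK : Module.finrank ℚ K = 2) {n : ℕ} (d : Fin n → 𝓞 K) (hd : ∀ i, InCl a (d i))
    (hind : ∀ T : Finset (Fin n), T.Nonempty → ¬ IsSquare (∏ i ∈ T, ((d i : 𝓞 K) : K)))
    (hL : S_LOWJ) (hC2 : QK.S_C2) :
    Tendsto (fun X : ℕ => (({D ∈ fam a d X | AllT a d D}).ncard : ℝ) / ((fam a d X).ncard : ℝ))
      atTop (nhds (QK.c2 ^ (2 ^ n))) ∧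
    ∃ δ : ℝ, 0 < δ ∧ ∀ᶠ X : ℕ in atTop, δ * X ≤ (({D ∈ fam a d X | AllT a d D}).ncard : ℝ) := by
  obtain ⟨e, hea, hef⟩ := exists_e ha hK
  have hd' : ∀ i, ClsE (e.symm (d i)) := fun i =>
    (cls_e e hef _).1 (by rw [e.apply_symm_apply]; exact hd i)
  have hi := indR_of e hind
  have e1 : ∀ X : ℕ, (fam a d X).ncard = (FamR (fun i => e.symm (d i)) X).ncard := fun X =>
    QK.ncard_e e X _ _ fun x => by
      rw [← cls_e e hef x]
      exact and_congr Iff.rfl (forall_congr' fun i => cop_e e x (d i))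
  have e2 : ∀ X : ℕ, ({D ∈ fam a d X | AllT a d D}).ncard =
      ({D ∈ FamR (fun i => e.symm (d i)) X | AllR (fun i => e.symm (d i)) D}).ncard := by
    intro X
    have h1 := QK.ncard_e e X
      (fun D : 𝓞 K => (InCl a D ∧ ∀ i, IsCoprime D (d i)) ∧ AllT a d D)
      (fun x : RR => (ClsE x ∧ ∀ i, IsCoprime x (e.symm (d i))) ∧
        AllR (fun i => e.symm (d i)) x) fun x => by
        rw [← cls_e e hef x, ← all_e e ha hK hea hef d x]
        exact and_congr (and_congr Iff.rfl (forall_congr' fun i => cop_e e x (d i))) Iff.rfl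
    have h2 : {D ∈ fam a d X | AllT a d D} = {D : 𝓞 K | Ideal.absNorm (Ideal.span {D}) ≤ X ∧
        ((InCl a D ∧ ∀ i, IsCoprime D (d i)) ∧ AllT a d D)} := by
      ext D
      unfold fam
      simp only [Set.mem_ofPred_eq]
      tauto
    have h3 : {D ∈ FamR (fun i => e.symm (d i)) X | AllR (fun i => e.symm (d i)) D} =
        {x : RR | nrm x ≤ X ∧ ((ClsE x ∧ ∀ i, IsCoprime x (e.symm (d i))) ∧
        AllR (fun i => e.symm (d i)) x)} := by
      ext D
      unfold FamR
      simp only [Set.mem_ofPred_eq]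
      tauto
    rw [h2, h3]
    exact h1
  constructor
  · refine (densR hCLS hMUL hd' hi hJ).congr fun X => ?_
    rw [e1, e2]
  · obtain ⟨δ, hδ, h1⟩ := lowR hCLS hMUL hd' hi hJ hL hC2
    refine ⟨δ, hδ, ?_⟩
    filter_upwards [h1] with X hX
    rw [e2]
    exact hX

/-! ### over the extension -/

variable {L : Type} [Field L] [NumberField L] [Algebra K L]

/-- the embedding -/
noncomputable def io {K : Type} [Field K] (e : RR ≃+* 𝓞 K) (L : Type) [Field L] [NumberField L]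
    [Algebra K L] : RR →+* 𝓞 L := (algebraMap (𝓞 K) (𝓞 L)).comp (e : RR →+* 𝓞 K)

lemma io_coe {K : Type} [Field K] {L : Type} [Field L] [NumberField L] [Algebra K L]
    (e : RR ≃+* 𝓞 K) (x : RR) : ((io e L x : 𝓞 L) : L) = algebraMap K L (em e x) := by
  show algebraMap (𝓞 L) L (algebraMap (𝓞 K) (𝓞 L) (e x)) = algebraMap K L (algebraMap (𝓞 K) K (e x))
  rw [← IsScalarTower.algebraMap_apply (𝓞 K) (𝓞 L) L, ← IsScalarTower.algebraMap_apply (𝓞 K) K L]

lemma frac_e (e : RR ≃+* 𝓞 K) (x : K) : ∃ u v : RR, v ≠ 0 ∧ x = em e u / em e v := by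
  obtain ⟨u, v, hv, rfl⟩ := IsFractionRing.div_surjective (𝓞 K) x
  refine ⟨e.symm u, e.symm v, (map_ne_zero_iff e.symm e.symm.injective).2
    (nonZeroDivisors.ne_zero hv), ?_⟩
  rw [em_apply, em_apply, e.apply_symm_apply, e.apply_symm_apply]

/-- the generation -/
theorem genBy (e : RR ≃+* 𝓞 K) {n : ℕ} (d : Fin n → 𝓞 K)
    (x : Fin n → L) (hx : ∀ i, x i ^ 2 = algebraMap K L ((d i : 𝓞 K) : K))
    (hL : IntermediateField.adjoin K (Set.range x) = ⊤) :
    ∃ r : RR → 𝓞 L, GenBy (io e L) (Finset.univ.image fun i => e.symm (d i)) r := by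
  have hint : ∀ i, IsIntegral ℤ (x i) := by
    intro i
    refine IsIntegral.of_pow (n := 2) (by norm_num) ?_
    rw [hx]
    exact (RingOfIntegers.isIntegral_coe (d i)).map (algebraMap K L).toIntAlgHom
  obtain ⟨X, hX⟩ : ∃ X : Fin n → 𝓞 L, ∀ i, ((X i : 𝓞 L) : L) = x i :=
    ⟨fun i => ⟨x i, hint i⟩, fun i => rfl⟩
  refine ⟨fun z => if h : ∃ i, e.symm (d i) = z then X h.choose else 0, ?_, ?_⟩
  · intro z hz
    rw [Finset.mem_image] at hz
    obtain ⟨i, -, hi⟩ := hz
    have h : ∃ i, e.symm (d i) = z := ⟨i, hi⟩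
    show (if h : ∃ i, e.symm (d i) = z then X h.choose else 0) ^ 2 = _
    rw [dif_pos h]
    apply RingOfIntegers.ext
    have h2 : io e L z = io e L (e.symm (d h.choose)) := congrArg _ h.choose_spec.symm
    rw [h2, io_coe, em_apply, e.apply_symm_apply]
    have h3 : ((X h.choose ^ 2 : 𝓞 L) : L) = ((X h.choose : 𝓞 L) : L) ^ 2 := rfl
    rw [h3, hX, hx]
  · intro F hF1 hF2
    have hK : ∀ y : K, algebraMap K L y ∈ F := by
      intro y
      obtain ⟨u, v, -, rfl⟩ := frac_e e y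
      rw [map_div₀, ← io_coe, ← io_coe]
      exact F.div_mem (hF1 u) (hF1 v)
    have hxF : ∀ i, x i ∈ F ∨ -x i ∈ F := by
      intro i
      have h : ∃ j, e.symm (d j) = e.symm (d i) := ⟨i, rfl⟩
      have h1 := hF2 (e.symm (d i)) (Finset.mem_image.2 ⟨i, Finset.mem_univ _, rfl⟩)
      have h1' : ((if h : ∃ j, e.symm (d j) = e.symm (d i) then X h.choose else 0 : 𝓞 L) : L) ∈ F :=
        h1
      rw [dif_pos h, hX] at h1'
      have h2 : d h.choose = d i := e.symm.injective h.choose_spec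
      have h3 : x h.choose ^ 2 = x i ^ 2 := by rw [hx, hx, h2]
      have h4 : x h.choose ∈ F := h1'
      rcases sq_eq_sq_iff_eq_or_eq_neg.1 h3 with h5 | h5
      · left
        rw [← h5]
        exact h4
      · right
        rw [← h5]
        exact h4
    have hle : IntermediateField.adjoin K (Set.range x) ≤
        F.toIntermediateField hK := by
      rw [IntermediateField.adjoin_le_iff]
      rintro _ ⟨i, rfl⟩
      show x i ∈ F
      rcases hxF i with h | h
      · exact h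
      · have := F.neg_mem h
        rwa [neg_neg] at this
    rw [hL] at hle
    rw [eq_top_iff]
    intro y _
    exact hle (IntermediateField.mem_top : y ∈ (⊤ : IntermediateField K L))

/-- **the rank conjecture over the multiquadratic extensions** -/
theorem overL (hSP : S_SPLIT) (hTR : S_TR) (hFS : S_FS) (hCLS : S_CLS) (hMUL : S_MUL) {a : 𝓞 K}
    (ha : a ^ 2 = a - 2) (hK : Module.finrank ℚ K = 2) {n : ℕ} (d : Fin n → 𝓞 K)
    (hd : ∀ i, InCl a (d i))
    (hind : ∀ T : Finset (Fin n), T.Nonempty → ¬ IsSquare (∏ i ∈ T, ((d i : 𝓞 K) : K)))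
    {D : 𝓞 K} (hD : InCl a D) (hc : ∀ i, IsCoprime D (d i)) (hA : AllT a d D) :
    (∀ T : Finset (Fin n), ∃ N c : 𝓞 K, InCl a N ∧ c ≠ 0 ∧ D * ∏ i ∈ T, d i = N * c ^ 2) ∧
    ∀ (L : Type) [Field L] [NumberField L] [Algebra K L] (x : Fin n → L),
      (∀ i, x i ^ 2 = algebraMap K L ((d i : 𝓞 K) : K)) →
      IntermediateField.adjoin K (Set.range x) = ⊤ →
      Finite (crv (algebraMap K L (D : K))).toAffine.Point ∧
      (∀ (j : ℕ) (y : Sha (crv (algebraMap K L (D : K)))), 2 ^ j • y = 0 → 2 ^ n • y = 0) ∧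
      ∃ F : ℂ → ℂ, IsF (algebraMap (𝓞 K) (𝓞 L) D)
        (algebraMap (𝓞 K) (𝓞 L) (14 * D * ∏ i, d i)) F := by
  obtain ⟨e, hea, hef⟩ := exists_e ha hK
  have hd' : ∀ i, ClsE (e.symm (d i)) := fun i =>
    (cls_e e hef _).1 (by rw [e.apply_symm_apply]; exact hd i)
  have hi := indR_of e hind
  have hM : ClsE (e.symm D) := (cls_e e hef _).1 (by rw [e.apply_symm_apply]; exact hD)
  obtain ⟨N, hN1, hN2, -, hN4, hN5⟩ := hCLS n (fun i => e.symm (d i)) hd' hi
  have hcM : ∀ i, IsCoprime (e.symm D) (e.symm (d i)) := fun i => by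
    rw [← cop_e, e.apply_symm_apply]
    exact hc i
  have hMN : ∀ T, ClsE (e.symm D * N T) := by
    intro T
    refine (hMUL.1 (e.symm D) (N T) hM (hN1 T) fun z hz h1 h2 => ?_).1
    obtain ⟨i, hi⟩ := hN5 T z hz h2
    exact (cop_iff' (cls_ne hM)).1 (hcM i) z hz h1 hi
  have hNe : ∀ T, ∃ c : 𝓞 K, c ≠ 0 ∧ D * ∏ i ∈ T, d i = e (e.symm D * N T) * c ^ 2 := by
    intro T
    obtain ⟨c, hc0, h1, -⟩ := hN4 T
    refine ⟨e c, (map_ne_zero_iff e e.injective).2 hc0, ?_⟩
    have h2 := congrArg e h1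
    rw [map_prod, map_mul, map_pow] at h2
    simp only [e.apply_symm_apply] at h2
    rw [h2, map_mul, e.apply_symm_apply]
    ring
  have hcl : ∀ T, InCl a (e (e.symm D * N T)) := fun T => (cls_e e hef _).2 (hMN T)
  have hT : ∀ T, TwoPart (curve (((e (e.symm D * N T) : 𝓞 K)) : K)) := by
    intro T
    obtain ⟨c, hc0, h1⟩ := hNe T
    exact hA T _ c (hcl T) hc0 h1
  refine ⟨fun T => ?_, fun L _ _ _ x hx hL => ?_⟩
  · obtain ⟨c, hc0, h1⟩ := hNe T
    exact ⟨_, c, hcl T, hc0, h1⟩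
  · have hfs := hFS K L n (fun i => ((d i : 𝓞 K) : K)) x (fun i h => (hd i).1.ne_zero (by
        exact_mod_cast h)) hx hL (D : K) (fun h => hD.1.ne_zero (by exact_mod_cast h)) (fun T => by
        obtain ⟨c, hc0, h1⟩ := hNe T
        refine ⟨((e (e.symm D * N T) : 𝓞 K) : K), (c : K), fun h => hc0 (by exact_mod_cast h),
          ?_, (hT T).1, (hT T).2.1⟩
        have h2 := congrArg (algebraMap (𝓞 K) K) h1
        rw [map_mul, map_mul, map_prod, map_pow] at h2
        exact h2)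
    refine ⟨hfs.1, hfs.2, ?_⟩
    obtain ⟨r, hr⟩ := genBy e d x hx hL
    have hinj : Function.Injective (fun i => e.symm (d i)) := by
      intro i j hij
      by_contra hne
      have hij' : e.symm (d i) = e.symm (d j) := hij
      refine hi {i, j} ⟨i, Finset.mem_insert_self i _⟩ (e.symm (d i)) 1 one_ne_zero ?_
      rw [Finset.prod_pair hne, one_pow, one_mul, ← hij', sq]
    obtain ⟨s₀, hs₀⟩ : ∃ s₀ : Finset RR, s₀ = Finset.univ.image fun i => e.symm (d i) := ⟨_, rfl⟩
    rw [← hs₀] at hr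
    obtain ⟨T, hTd⟩ : ∃ T : Finset RR → Finset (Fin n), ∀ J ∈ s₀.powerset,
        (T J).image (fun i => e.symm (d i)) = J := by
      refine ⟨fun J => Finset.univ.filter fun i => e.symm (d i) ∈ J, fun J hJ => ?_⟩
      ext z
      simp only [Finset.mem_image, Finset.mem_filter, Finset.mem_univ, true_and]
      constructor
      · rintro ⟨i, h1, rfl⟩
        exact h1
      · intro hz
        have h1 := Finset.mem_powerset.1 hJ hz
        rw [hs₀, Finset.mem_image] at h1
        obtain ⟨i, -, rfl⟩ := h1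
        exact ⟨i, hz, rfl⟩
    have hTJ : ∀ J ∈ s₀.powerset, ∏ z ∈ J, z = ∏ i ∈ T J, e.symm (d i) := by
      intro J hJ
      rw [← Finset.prod_image (s := T J) (g := fun i => e.symm (d i)) (f := fun z => z)
        (fun i _ j _ h => hinj h), hTd J hJ]
    have hInd : Indep s₀ := by
      intro J hJ hne a' b' hb h
      have hJ' := Finset.mem_powerset.2 hJ
      rw [hTJ J hJ'] at h
      refine hi (T J) ?_ a' b' hb h
      rw [Finset.nonempty_iff_ne_empty]
      intro h0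
      have h1 := hTd J hJ'
      rw [h0, Finset.image_empty] at h1
      exact hne.ne_empty h1.symm
    have h0 : ∀ z ∈ s₀, z ≠ 0 := by
      intro z hz
      rw [hs₀, Finset.mem_image] at hz
      obtain ⟨i, -, rfl⟩ := hz
      exact cls_ne (hd' i)
    obtain ⟨F, hF⟩ := KL hSP hTR e (io e L) hr hInd h0 (cls_ne hM)
      (fun J => e.symm D * N (T J)) (fun J _ => hMN (T J)) (fun J hJ => by
        obtain ⟨c, hc0, h1, -⟩ := hN4 (T J)
        refine ⟨c, hc0, ?_⟩
        rw [hTJ J hJ, h1]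
        ring) (fun J _ => hT (T J))
    refine ⟨F, ?_⟩
    have e1 : io e L (e.symm D) = algebraMap (𝓞 K) (𝓞 L) D := by
      show algebraMap (𝓞 K) (𝓞 L) (e (e.symm D)) = _
      rw [e.apply_symm_apply]
    have e2 : io e L (14 * e.symm D * ∏ z ∈ s₀, z) =
        algebraMap (𝓞 K) (𝓞 L) (14 * D * ∏ i, d i) := by
      show algebraMap (𝓞 K) (𝓞 L) (e (14 * e.symm D * ∏ z ∈ s₀, z)) = _
      rw [hs₀, Finset.prod_image fun i _ j _ h => hinj h, map_mul e, map_mul e, map_prod e,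
        map_ofNat e]
      simp only [e.apply_symm_apply]
    rw [e1, e2] at hF
    exact hF

end

end Pool.Agent.R426.QM
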