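import Pool.Agent.R426.QM.Stm
import Pool.Agent.R938.QM.Core

/-!
# The traces of Frobenius: `S_TR`
-/

set_option autoImplicit false

namespace Pool.Agent.R426.QM

theorem t_TR : S_TR := fun k _ _ z hz h14 φ h0 f hf hk D hD =>
  Pool.Agent.R938.QM.core k z hz h14 φ h0 f hf hk D hD

end Pool.Agent.R426.QM
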