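import Pool.Agent.R426.QM.DensM
import Pool.Agent.R426.QM.Split
import Pool.Agent.R426.QM.Tr
import Pool.Agent.R426.QM.Fin
import Pool.Agent.R426.QM.FS
import Pool.Agent.R426.QM.ShF

/-!
# Project QM: a fixed curve over the extensions `L₀(√D)` of a fixed multiquadratic field
-/

set_option autoImplicit false

open scoped Classical

namespace Pool.Agent.R426.QM

open NumberField IsDedekindDomain Filter
open Pool.Agent.Y698 Pool.Agent.Y698.SG
open Pool.Agent.R426.QC
open Pool.Agent.R426.QK (nrm ClsE nrm_cast)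
open Pool.Agent.Results.MP_e996df_nt.TwoPartTwistsX49 (TwoPart curve IsL criterion exists_e cls_e
  sqf_e good_e)
open Pool.Agent.TH841.NF.D (Sha)

section

variable {K : Type} [Field K] [NumberField K]

/-- the family -/
def famM (a : 𝓞 K) {n : ℕ} (d : Fin n → 𝓞 K) (M : 𝓞 K) (X : ℕ) : Set (𝓞 K) :=
  {D | Ideal.absNorm (Ideal.span {D}) ≤ X ∧ InCl a D ∧ IsCoprime D M ∧ ∀ i, IsCoprime D (d i)}

/-- **the exact proportion** -/
theorem densKM {a : 𝓞 K} (ha : a ^ 2 = a - 2) (hK : Module.finrank ℚ K = 2) {n : ℕ}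
    (d : Fin n → 𝓞 K) (hd : ∀ i, InCl a (d i))
    (hind : ∀ T : Finset (Fin n), T.Nonempty → ¬ IsSquare (∏ i ∈ T, ((d i : 𝓞 K) : K)))
    {M : 𝓞 K} (hM : InCl a M) (hMd : ∀ i, IsCoprime M (d i)) :
    Tendsto (fun X : ℕ => (({D ∈ famM a d M X | AllT a d (M * D)}).ncard : ℝ) /
      ((famM a d M X).ncard : ℝ)) atTop (nhds (QK.c2 ^ (2 ^ n))) ∧
    ∃ δ : ℝ, 0 < δ ∧ ∀ᶠ X : ℕ in atTop,
      δ * X ≤ (({D ∈ famM a d M X | AllT a d (M * D)}).ncard : ℝ) := by
  obtain ⟨e, hea, hef⟩ := exists_e ha hK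
  have hd' : ∀ i, ClsE (e.symm (d i)) := fun i =>
    (cls_e e hef _).1 (by rw [e.apply_symm_apply]; exact hd i)
  have hM' : ClsE (e.symm M) := (cls_e e hef _).1 (by rw [e.apply_symm_apply]; exact hM)
  have hMd' : ∀ i, IsCoprime (e.symm M) (e.symm (d i)) := fun i => by
    rw [← cop_e, e.apply_symm_apply]
    exact hMd i
  have hi := indR_of e hind
  have e1 : ∀ X : ℕ, (famM a d M X).ncard =
      (FamM (fun i => e.symm (d i)) (e.symm M) X).ncard := fun X =>
    QK.ncard_e e X _ _ fun x => by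
      rw [← cls_e e hef x]
      exact and_congr Iff.rfl (and_congr (cop_e e x M) (forall_congr' fun i => cop_e e x (d i)))
  have e2 : ∀ X : ℕ, ({D ∈ famM a d M X | AllT a d (M * D)}).ncard =
      ({D ∈ FamM (fun i => e.symm (d i)) (e.symm M) X |
        AllR (fun i => e.symm (d i)) (e.symm M * D)}).ncard := by
    intro X
    have h1 := QK.ncard_e e X
      (fun D : 𝓞 K => (InCl a D ∧ IsCoprime D M ∧ ∀ i, IsCoprime D (d i)) ∧ AllT a d (M * D))
      (fun x : RR => (ClsE x ∧ IsCoprime x (e.symm M) ∧ ∀ i, IsCoprime x (e.symm (d i))) ∧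
        AllR (fun i => e.symm (d i)) (e.symm M * x)) fun x => by
        rw [← cls_e e hef x, ← all_e e ha hK hea hef d (e.symm M * x), map_mul,
          e.apply_symm_apply]
        exact and_congr (and_congr Iff.rfl (and_congr (cop_e e x M)
          (forall_congr' fun i => cop_e e x (d i)))) Iff.rfl
    have h2 : {D ∈ famM a d M X | AllT a d (M * D)} =
        {D : 𝓞 K | Ideal.absNorm (Ideal.span {D}) ≤ X ∧
        ((InCl a D ∧ IsCoprime D M ∧ ∀ i, IsCoprime D (d i)) ∧ AllT a d (M * D))} := by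
      ext D
      unfold famM
      simp only [Set.mem_ofPred_eq]
      tauto
    have h3 : {D ∈ FamM (fun i => e.symm (d i)) (e.symm M) X |
        AllR (fun i => e.symm (d i)) (e.symm M * D)} =
        {x : RR | nrm x ≤ X ∧ ((ClsE x ∧ IsCoprime x (e.symm M) ∧
        ∀ i, IsCoprime x (e.symm (d i))) ∧
        AllR (fun i => e.symm (d i)) (e.symm M * x))} := by
      ext D
      unfold FamM
      simp only [Set.mem_ofPred_eq]
      tauto
    rw [h2, h3]
    exact h1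
  obtain ⟨k1, δ, hδ, k2⟩ := densM hM' hMd' hd' hi
  constructor
  · refine k1.congr fun X => ?_
    rw [e1, e2]
  · refine ⟨δ, hδ, ?_⟩
    filter_upwards [k2] with X hX
    rw [e2]
    exact hX

/-- independence in `K` -/
lemma ind_of (e : RR ≃+* 𝓞 K) {m : ℕ} {d : Fin m → 𝓞 K}
    (h : IndR fun i => e.symm (d i)) (T : Finset (Fin m)) (hT : T.Nonempty) :
    ¬ IsSquare (∏ i ∈ T, ((d i : 𝓞 K) : K)) := by
  rintro ⟨y, hy⟩
  obtain ⟨u, v, hv, rfl⟩ := frac_e e y
  apply h T hT u v hv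
  apply em_inj e
  have hv' : em e v ≠ 0 := em_ne e hv
  rw [map_mul, map_pow, map_pow, map_prod]
  have h2 : ∏ i ∈ T, em e (e.symm (d i)) = ∏ i ∈ T, ((d i : 𝓞 K) : K) :=
    Finset.prod_congr rfl fun i _ => by
      rw [em_apply, e.apply_symm_apply]
  rw [h2, hy]
  field_simp

end

/-! ### one more generator -/

lemma prod_cons {R : Type} [CommMonoid R] {n : ℕ} (D : R) (d : Fin n → R)
    (T : Finset (Fin (n + 1))) : ∏ i ∈ T, (Fin.cons D d : Fin (n + 1) → R) i =
      (if 0 ∈ T then D else 1) * ∏ i ∈ Finset.univ.filter (fun i : Fin n => i.succ ∈ T), d i := by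
  have h1 : ∏ i ∈ T, (Fin.cons D d : Fin (n + 1) → R) i =
      ∏ i : Fin (n + 1), if i ∈ T then (Fin.cons D d : Fin (n + 1) → R) i else 1 := by
    rw [Finset.prod_ite_mem, Finset.univ_inter]
  rw [h1, Fin.prod_univ_succ, Finset.prod_filter]
  simp only [Fin.cons_zero, Fin.cons_succ]

lemma ind_cons {n : ℕ} {d : Fin n → RR} (hd : ∀ i, ClsE (d i)) (hi : IndR d) {D : RR}
    (hD : ClsE D) (hc : ∀ i, IsCoprime D (d i)) (hu : ¬ IsUnit D) :
    IndR (Fin.cons D d : Fin (n + 1) → RR) := by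
  obtain ⟨N, hN1, hN2, -, hN4, hN5⟩ := Cls.t_CLS n d hd hi
  intro T hT a b hb h
  rw [prod_cons] at h
  by_cases h0 : (0 : Fin (n + 1)) ∈ T
  · rw [if_pos h0] at h
    set T' := Finset.univ.filter (fun i : Fin n => i.succ ∈ T) with hT'
    obtain ⟨c, hc0, h1, -⟩ := hN4 T'
    have hDN : ClsE (D * N T') := by
      refine (Cls.t_MUL.1 D (N T') hD (hN1 T') fun z hz h1 h2 => ?_).1
      obtain ⟨i, hi⟩ := hN5 T' z hz h2
      exact (cop_iff' (cls_ne hD)).1 (hc i) z hz h1 hi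
    have h2 : D * N T' * (b * c) ^ 2 = 1 * a ^ 2 := by
      rw [← h, h1]
      ring
    have ha : a ≠ 0 := by
      rintro rfl
      have h3 : D * N T' * (b * c) ^ 2 = 0 := by rw [h2]; ring
      exact mul_ne_zero (cls_ne hDN) (pow_ne_zero 2 (mul_ne_zero hb hc0)) h3
    have h3 := Cls.t_MUL.2.2.1 (D * N T') 1 (b * c) a hDN Cls.cls_one (mul_ne_zero hb hc0) ha h2
    exact hu (IsUnit.of_mul_eq_one _ h3)
  · rw [if_neg h0, one_mul] at h
    refine hi (Finset.univ.filter fun i : Fin n => i.succ ∈ T) ?_ a b hb h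
    obtain ⟨i, hiT⟩ := hT
    have hi0 : i ≠ 0 := by
      rintro rfl
      exact h0 hiT
    obtain ⟨j, rfl⟩ := Fin.exists_succ_eq.2 hi0
    exact ⟨j, Finset.mem_filter.2 ⟨Finset.mem_univ _, hiT⟩⟩

section

variable {K : Type} [Field K] [NumberField K]

lemma ind_consK {a : 𝓞 K} (ha : a ^ 2 = a - 2) (hK : Module.finrank ℚ K = 2) {n : ℕ}
    {d : Fin n → 𝓞 K} (hd : ∀ i, InCl a (d i))
    (hind : ∀ T : Finset (Fin n), T.Nonempty → ¬ IsSquare (∏ i ∈ T, ((d i : 𝓞 K) : K)))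
    {D : 𝓞 K} (hD : InCl a D) (hc : ∀ i, IsCoprime D (d i)) (hu : ¬ IsUnit D)
    (T : Finset (Fin (n + 1))) (hT : T.Nonempty) :
    ¬ IsSquare (∏ i ∈ T, (((Fin.cons D d : Fin (n + 1) → 𝓞 K) i : 𝓞 K) : K)) := by
  obtain ⟨e, hea, hef⟩ := exists_e ha hK
  have hd' : ∀ i, ClsE (e.symm (d i)) := fun i =>
    (cls_e e hef _).1 (by rw [e.apply_symm_apply]; exact hd i)
  have hD' : ClsE (e.symm D) := (cls_e e hef _).1 (by rw [e.apply_symm_apply]; exact hD)
  have hc' : ∀ i, IsCoprime (e.symm D) (e.symm (d i)) := fun i => by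
    rw [← cop_e, e.apply_symm_apply]
    exact hc i
  have h1 := ind_cons hd' (indR_of e hind) hD' hc' (fun h => hu ((isUnit_map_iff e.symm D).1 h))
  have h2 : (Fin.cons (e.symm D) (fun i => e.symm (d i)) : Fin (n + 1) → RR) =
      fun i => e.symm ((Fin.cons D d : Fin (n + 1) → 𝓞 K) i) := by
    funext i
    refine Fin.cases ?_ (fun j => ?_) i
    · simp only [Fin.cons_zero]
    · simp only [Fin.cons_succ]
  rw [h2] at h1
  exact ind_of e h1 T hT

/-- the cosets -/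
lemma all_cons {a : 𝓞 K} {n : ℕ} {d : Fin n → 𝓞 K} {M D : 𝓞 K} (h1 : AllT a d M)
    (h2 : AllT a d (M * D)) : AllT a (Fin.cons D d : Fin (n + 1) → 𝓞 K) M := by
  intro T N c hN hc h
  rw [prod_cons] at h
  by_cases h0 : (0 : Fin (n + 1)) ∈ T
  · rw [if_pos h0, ← mul_assoc] at h
    exact h2 _ N c hN hc h
  · rw [if_neg h0, one_mul] at h
    exact h1 _ N c hN hc h

/-- the trivial twist -/
lemma all_one {a : 𝓞 K} (ha : a ^ 2 = a - 2) (hK : Module.finrank ℚ K = 2) (d : Fin 0 → 𝓞 K) :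
    AllT a d 1 := by
  intro T N c hN hc h
  obtain ⟨e, hea, hef⟩ := exists_e ha hK
  have hN' : ClsE (e.symm N) := (cls_e e hef _).1 (by rw [e.apply_symm_apply]; exact hN)
  have hT : T = ∅ := Finset.eq_empty_of_isEmpty T
  rw [hT, Finset.prod_empty, mul_one] at h
  have h1 := congrArg e.symm h
  rw [map_one, map_mul, map_pow] at h1
  have h2 := Cls.t_MUL.2.2.1 (e.symm N) 1 (e.symm c) 1 hN' Cls.cls_one
    ((map_ne_zero_iff e.symm e.symm.injective).2 hc) one_ne_zero (by rw [← h1]; ring)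
  have h3 : N = 1 := by
    have := congrArg e h2
    rwa [e.apply_symm_apply, map_one] at this
  rw [h3]
  have h1c := (cls_e e hef 1).2 Cls.cls_one
  rw [map_one] at h1c
  obtain ⟨S, hS, -, hC⟩ := criterion ha hK h1c.2.1 h1c.1 h1c.2.2
  have hS0 : S = ∅ := by
    rw [Finset.eq_empty_iff_forall_notMem]
    intro p hp
    obtain ⟨g1, g2, -⟩ := (hS p).1 hp
    exact g1.not_isUnit (isUnit_of_dvd_one g2)
  subst hS0
  refine hC.iff.2 ?_
  rw [Matrix.det_isEmpty]
  exact one_ne_zero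

end

end Pool.Agent.R426.QM
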